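import Mathlib

/-! # Segment mirrors: reflections, first hits, regular and singular points -/

set_option autoImplicit false

open Set Filter Topology ComplexConjugate

namespace Mirr

/-- the cross product -/
def cr (u v : ℂ) : ℝ := u.re * v.im - u.im * v.re

/-- the linear reflection in the direction `e` -/
noncomputable def refl (e d : ℂ) : ℂ := e / conj e * conj d

theorem cr_add_left (u v w : ℂ) : cr (u + v) w = cr u w + cr v w := by
  simp only [cr, Complex.add_re, Complex.add_im]; ring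

theorem cr_add_right (u v w : ℂ) : cr u (v + w) = cr u v + cr u w := by
  simp only [cr, Complex.add_re, Complex.add_im]; ring

theorem cr_sub_left (u v w : ℂ) : cr (u - v) w = cr u w - cr v w := by
  simp only [cr, Complex.sub_re, Complex.sub_im]; ring

theorem cr_sub_right (u v w : ℂ) : cr u (v - w) = cr u v - cr u w := by
  simp only [cr, Complex.sub_re, Complex.sub_im]; ring

theorem cr_smul_left (t : ℝ) (u w : ℂ) : cr (t • u) w = t * cr u w := by
  simp only [cr, Complex.smul_re, Complex.smul_im, smul_eq_mul]; ring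

theorem cr_smul_right (t : ℝ) (u w : ℂ) : cr u (t • w) = t * cr u w := by
  simp only [cr, Complex.smul_re, Complex.smul_im, smul_eq_mul]; ring

theorem cr_self (u : ℂ) : cr u u = 0 := by simp only [cr]; ring

theorem cr_neg_right (u v : ℂ) : cr u (-v) = -cr u v := by
  simp only [cr, Complex.neg_re, Complex.neg_im]; ring

theorem cr_neg_left (u v : ℂ) : cr (-u) v = -cr u v := by
  simp only [cr, Complex.neg_re, Complex.neg_im]; ring

theorem cr_comm (u v : ℂ) : cr u v = -cr v u := by simp only [cr]; ring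

theorem cr_zero_right (u : ℂ) : cr u 0 = 0 := by simp [cr]

theorem cr_zero_left (u : ℂ) : cr 0 u = 0 := by simp [cr]

theorem cr_eq_im (u v : ℂ) : cr u v = (conj u * v).im := by
  simp only [cr, Complex.mul_im, Complex.conj_re, Complex.conj_im]; ring

theorem cr_le (u v : ℂ) : |cr u v| ≤ ‖u‖ * ‖v‖ := by
  rw [cr_eq_im]
  refine (Complex.abs_im_le_norm _).trans ?_
  rw [norm_mul, Complex.norm_conj]

theorem continuous_cr : Continuous fun p : ℂ × ℂ => cr p.1 p.2 := by
  unfold cr
  fun_prop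

@[fun_prop]
theorem Continuous.cr {X : Type*} [TopologicalSpace X] {f g : X → ℂ} (hf : Continuous f)
    (hg : Continuous g) : Continuous fun x => Mirr.cr (f x) (g x) :=
  continuous_cr.comp (hf.prodMk hg)

@[fun_prop]
theorem ContinuousAt.cr {X : Type*} [TopologicalSpace X] {f g : X → ℂ} {x : X}
    (hf : ContinuousAt f x) (hg : ContinuousAt g x) :
    ContinuousAt (fun x => Mirr.cr (f x) (g x)) x :=
  ContinuousAt.comp (g := fun p : ℂ × ℂ => Mirr.cr p.1 p.2) (f := fun x => (f x, g x))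
    continuous_cr.continuousAt (hf.prodMk hg)

/-! ## The reflection -/

theorem refl_add (e d d' : ℂ) : refl e (d + d') = refl e d + refl e d' := by
  simp only [refl, map_add]; ring

theorem refl_smul (e : ℂ) (t : ℝ) (d : ℂ) : refl e (t • d) = t • refl e d := by
  simp only [refl, Complex.real_smul, map_mul, Complex.conj_ofReal]; ring

theorem refl_neg (e d : ℂ) : refl e (-d) = -refl e d := by
  simp only [refl, map_neg]; ring

theorem refl_refl {e : ℂ} (he : e ≠ 0) (d : ℂ) : refl e (refl e d) = d := by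
  have h : conj e ≠ 0 := by simpa using he
  simp only [refl, map_mul, map_div₀, Complex.conj_conj]
  field_simp

theorem refl_self {e : ℂ} (he : e ≠ 0) : refl e e = e := by
  have h : conj e ≠ 0 := by simpa using he
  simp only [refl]
  field_simp

theorem norm_refl {e : ℂ} (he : e ≠ 0) (d : ℂ) : ‖refl e d‖ = ‖d‖ := by
  simp only [refl, norm_mul, norm_div, Complex.norm_conj]
  rw [div_self (by simpa using he), one_mul]

theorem cr_refl_refl {e : ℂ} (he : e ≠ 0) (u v : ℂ) : cr (refl e u) (refl e v) = -cr u v := by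
  have h : conj e ≠ 0 := by simpa using he
  rw [cr_eq_im, cr_eq_im]
  have : conj (refl e u) * refl e v = conj (conj u * v) := by
    simp only [refl, map_mul, map_div₀, Complex.conj_conj]
    field_simp
  rw [this, Complex.conj_im]

theorem cr_refl {e : ℂ} (he : e ≠ 0) (d : ℂ) : cr e (refl e d) = -cr e d := by
  conv_lhs => rw [← refl_self he]
  rw [refl_self he]
  have := cr_refl_refl he e d
  rwa [refl_self he] at this

/-- a vector parallel to `e` is fixed -/
theorem refl_of_cr {e : ℂ} (he : e ≠ 0) {v : ℂ} (hv : cr e v = 0) : refl e v = v := by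
  have h : conj e ≠ 0 := by simpa using he
  have h1 : conj e * v = e * conj v := by
    have h2 : (conj e * v).im = 0 := by rw [← cr_eq_im, hv]
    have h3 : conj (conj e * v) = conj e * v := Complex.conj_eq_iff_im.2 h2
    rw [← h3]; simp
  simp only [refl]
  rw [div_mul_eq_mul_div, ← h1]
  field_simp

theorem continuousAt_refl {e d : ℂ} (he : e ≠ 0) :
    ContinuousAt (fun p : ℂ × ℂ => refl p.1 p.2) (e, d) := by
  unfold refl
  have h : conj e ≠ 0 := by simpa using he
  refine ContinuousAt.mul (ContinuousAt.div ?_ ?_ h) ?_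
  · exact continuousAt_fst
  · exact (Complex.continuous_conj.comp continuous_fst).continuousAt
  · exact (Complex.continuous_conj.comp continuous_snd).continuousAt

/-! ## Segments -/

/-- the parameter of the projection of `y` on the line through `a` and `b` -/
noncomputable def par (a b y : ℂ) : ℝ := (conj (b - a) * (y - a)).re / Complex.normSq (b - a)

theorem eq_par {a b y : ℂ} (hab : a ≠ b) (h : cr (b - a) (y - a) = 0) :
    y = a + par a b y • (b - a) := by
  have he : b - a ≠ 0 := sub_ne_zero.2 (Ne.symm hab)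
  have h1 : (conj (b - a) * (y - a)).im = 0 := by rw [← cr_eq_im, h]
  have h2 : conj (b - a) * (y - a) = ((conj (b - a) * (y - a)).re : ℂ) := by
    apply Complex.ext
    · simp
    · rw [h1]; simp
  have h3 : (Complex.normSq (b - a) : ℂ) = conj (b - a) * (b - a) := by
    rw [Complex.normSq_eq_conj_mul_self]
  have hc : conj (b - a) ≠ 0 := (map_ne_zero (starRingEnd ℂ)).2 he
  have h4 : (par a b y : ℂ) * (b - a) = y - a := by
    rw [par, Complex.ofReal_div, ← h2, h3]
    field_simp
  rw [Complex.real_smul, h4]; ring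

theorem par_of {a b : ℂ} (hab : a ≠ b) (s : ℝ) : par a b (a + s • (b - a)) = s := by
  have he : b - a ≠ 0 := sub_ne_zero.2 (Ne.symm hab)
  have h0 : Complex.normSq (b - a) ≠ 0 := by simpa [Complex.normSq_eq_zero] using he
  have h1 : (conj (b - a) * (a + s • (b - a) - a)).re = s * Complex.normSq (b - a) := by
    rw [Complex.normSq_apply]
    simp only [Complex.mul_re, Complex.conj_re, Complex.conj_im, Complex.sub_re, Complex.sub_im,
      Complex.add_re, Complex.add_im, Complex.smul_re, Complex.smul_im, smul_eq_mul]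
    ring
  rw [par, h1]
  field_simp

theorem cr_of (a b : ℂ) (s : ℝ) : cr (b - a) (a + s • (b - a) - a) = 0 := by
  rw [add_sub_cancel_left, cr_smul_right, cr_self, mul_zero]

theorem mem_segment_iff {a b y : ℂ} (hab : a ≠ b) :
    y ∈ segment ℝ a b ↔ cr (b - a) (y - a) = 0 ∧ 0 ≤ par a b y ∧ par a b y ≤ 1 := by
  rw [segment_eq_image']
  constructor
  · rintro ⟨s, hs, rfl⟩
    simp only
    rw [par_of hab, cr_of]
    exact ⟨rfl, hs.1, hs.2⟩
  · rintro ⟨h, h0, h1⟩
    exact ⟨par a b y, ⟨h0, h1⟩, (eq_par hab h).symm⟩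

theorem mem_openSegment_iff {a b y : ℂ} (hab : a ≠ b) :
    y ∈ openSegment ℝ a b ↔ cr (b - a) (y - a) = 0 ∧ 0 < par a b y ∧ par a b y < 1 := by
  rw [openSegment_eq_image']
  constructor
  · rintro ⟨s, hs, rfl⟩
    simp only
    rw [par_of hab, cr_of]
    exact ⟨rfl, hs.1, hs.2⟩
  · rintro ⟨h, h0, h1⟩
    exact ⟨par a b y, ⟨h0, h1⟩, (eq_par hab h).symm⟩

theorem cr_of_mem {a b y : ℂ} (hab : a ≠ b) (h : y ∈ segment ℝ a b) : cr (b - a) (y - a) = 0 :=
  ((mem_segment_iff hab).1 h).1

theorem mem_openSegment_of_ne {a b y : ℂ} (h : y ∈ segment ℝ a b) (ha : y ≠ a)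
    (hb : y ≠ b) : y ∈ openSegment ℝ a b :=
  mem_openSegment_of_ne_left_right ha.symm hb.symm h

theorem isCompact_segment (a b : ℂ) : IsCompact (segment ℝ a b) := by
  rw [segment_eq_image']
  exact isCompact_Icc.image (by fun_prop)

/-! ## Configurations -/

variable {ι : Type*}

/-- the union of the mirrors with index in `S` -/
def M (a b : ι → ℂ) (S : Set ι) : Set ℂ := ⋃ i ∈ S, segment ℝ (a i) (b i)

/-- singular points: end points of mirrors and common points of two mirrors -/
def Sing (a b : ι → ℂ) (S : Set ι) : Set ℂ :=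
  {p | (∃ i ∈ S, p = a i ∨ p = b i) ∨
    ∃ i ∈ S, ∃ j ∈ S, i ≠ j ∧ p ∈ segment ℝ (a i) (b i) ∧ p ∈ segment ℝ (a j) (b j)}

/-- `y` is a regular point of the mirror `i` -/
def Reg (a b : ι → ℂ) (S : Set ι) (i : ι) (y : ℂ) : Prop :=
  i ∈ S ∧ y ∈ openSegment ℝ (a i) (b i) ∧ ∀ j ∈ S, j ≠ i → y ∉ segment ℝ (a j) (b j)

/-- start of a flight: off the mirrors, or at a regular point of the mirror `i`, transversally -/
def Start (a b : ι → ℂ) (S : Set ι) : Option ι → ℂ → ℂ → Prop
  | none, x, _ => x ∉ M a b S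
  | some i, x, d => Reg a b S i x ∧ cr (b i - a i) d ≠ 0

/-- the flight from `x` in the direction `d` hits the mirror `j` at the time `t`, regularly -/
def Step (a b : ι → ℂ) (S : Set ι) (o : Option ι) (x d : ℂ) (j : ι) (t : ℝ) : Prop :=
  0 < t ∧ j ∈ S ∧ o ≠ some j ∧ x + t • d ∈ openSegment ℝ (a j) (b j) ∧ cr (b j - a j) d ≠ 0 ∧
    ∀ j' ∈ S, o ≠ some j' → j' ≠ j → ∀ τ ∈ Icc 0 t, x + τ • d ∉ segment ℝ (a j') (b j')

variable {a b : ι → ℂ} {S : Set ι}

theorem mem_M {x : ℂ} : x ∈ M a b S ↔ ∃ i ∈ S, x ∈ segment ℝ (a i) (b i) := by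
  simp [M]

theorem isCompact_M (hS : S.Finite) : IsCompact (M a b S) :=
  hS.isCompact_biUnion fun i _ => isCompact_segment (a i) (b i)

/-- two points of a line transversal to `d` which differ by a multiple of `d` are equal -/
theorem eq_of_line {e x y d : ℂ} {t : ℝ} (hd : cr e d ≠ 0) (hx : cr e x = 0) (hy : cr e y = 0)
    (h : y = x + t • d) : t = 0 := by
  rw [h, cr_add_right, cr_smul_right, hx, zero_add] at hy
  exact (mul_eq_zero.1 hy).resolve_right hd

/-- on the flight there is no point of the start mirror -/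
theorem notMem_start {o : Option ι} {x d : ℂ} (hab : ∀ i ∈ S, a i ≠ b i)
    (h : Start a b S o x d) {i : ι} (hi : o = some i) {t : ℝ} (ht : t ≠ 0) :
    x + t • d ∉ segment ℝ (a i) (b i) := by
  subst hi
  obtain ⟨⟨hiS, hx, -⟩, hd⟩ := h
  intro h1
  have k1 := cr_of_mem (hab i hiS) (openSegment_subset_segment ℝ _ _ hx)
  have k2 := cr_of_mem (hab i hiS) h1
  exact ht (eq_of_line hd k1 k2 (by ring))

theorem Step.reg {o : Option ι} {x d : ℂ} {j : ι} {t : ℝ} (hab : ∀ i ∈ S, a i ≠ b i)
    (hs : Start a b S o x d) (h : Step a b S o x d j t) : Reg a b S j (x + t • d) := by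
  obtain ⟨ht, hj, ho, hm, hd, hf⟩ := h
  refine ⟨hj, hm, fun j' hj' hne => ?_⟩
  by_cases ho' : o = some j'
  · exact notMem_start hab hs ho' ht.ne'
  · exact hf j' hj' ho' hne t ⟨ht.le, le_rfl⟩

theorem Step.start {o : Option ι} {x d : ℂ} {j : ι} {t : ℝ} (hab : ∀ i ∈ S, a i ≠ b i)
    (hs : Start a b S o x d) (h : Step a b S o x d j t) :
    Start a b S (some j) (x + t • d) (refl (b j - a j) d) := by
  refine ⟨h.reg hab hs, ?_⟩
  rw [cr_refl (sub_ne_zero.2 (hab j h.2.1).symm)]
  exact neg_ne_zero.2 h.2.2.2.2.1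

/-- the open flight does not meet the mirrors -/
theorem Step.free {o : Option ι} {x d : ℂ} {j : ι} {t : ℝ} (hab : ∀ i ∈ S, a i ≠ b i)
    (hs : Start a b S o x d) (h : Step a b S o x d j t) {τ : ℝ} (hτ : τ ∈ Ioo 0 t) :
    x + τ • d ∉ M a b S := by
  obtain ⟨ht, hj, ho, hm, hd, hf⟩ := h
  rw [mem_M]
  rintro ⟨i, hi, hx⟩
  by_cases hij : i = j
  · subst hij
    have k1 := cr_of_mem (hab i hi) (openSegment_subset_segment ℝ _ _ hm)
    have k2 := cr_of_mem (hab i hi) hx
    have := eq_of_line (t := τ - t) hd k1 k2 (by rw [sub_smul]; ring)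
    linarith [hτ.2]
  · by_cases ho' : o = some i
    · exact notMem_start hab hs ho' hτ.1.ne' hx
    · exact hf i hi ho' hij τ ⟨hτ.1.le, hτ.2.le⟩ hx

theorem Step.unique {o : Option ι} {x d : ℂ} {j j' : ι} {t t' : ℝ} (hab : ∀ i ∈ S, a i ≠ b i)
    (hs : Start a b S o x d) (h : Step a b S o x d j t) (h' : Step a b S o x d j' t') :
    j = j' ∧ t = t' := by
  have key : ∀ {j j' : ι} {t t' : ℝ}, Step a b S o x d j t → Step a b S o x d j' t' → ¬ t < t' := by
    intro j j' t t' h h' hlt
    have := h'.free hab hs (τ := t) ⟨h.1, hlt⟩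
    exact this (mem_M.2 ⟨j, h.2.1, openSegment_subset_segment ℝ _ _ h.2.2.2.1⟩)
  have ht : t = t' := le_antisymm (not_lt.1 (key h' h)) (not_lt.1 (key h h'))
  refine ⟨?_, ht⟩
  subst ht
  by_contra hne
  exact (h.reg hab hs).2.2 j' h'.2.1 (Ne.symm hne) (openSegment_subset_segment ℝ _ _ h'.2.2.2.1)

theorem notMem_start_M {o : Option ι} {x d : ℂ} {j : ι}
    (h : Start a b S o x d) (hj : j ∈ S) (ho : o ≠ some j) : x ∉ segment ℝ (a j) (b j) := by
  cases o with
  | none => exact fun h1 => h (mem_M.2 ⟨j, hj, h1⟩)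
  | some i => exact h.1.2.2 j hj fun h1 => ho (by rw [h1])

/-- a flight is free for ever, or hits a mirror regularly, or arrives at a singular point -/
theorem trichotomy (hS : S.Finite) {o : Option ι} {x d : ℂ}
    (hd : ∀ i ∈ S, cr (b i - a i) d ≠ 0) (hs : Start a b S o x d) :
    (∀ τ : ℝ, 0 ≤ τ → ∀ j ∈ S, o ≠ some j → x + τ • d ∉ segment ℝ (a j) (b j)) ∨
    (∃ j t, Step a b S o x d j t) ∨ ∃ t : ℝ, 0 < t ∧ x + t • d ∈ Sing a b S := by
  set M' : Set ℂ := M a b {j ∈ S | o ≠ some j} with hM'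
  have hM'c : IsClosed M' := (isCompact_M (hS.subset (sep_subset _ _))).isClosed
  set T : Set ℝ := {τ | 0 ≤ τ ∧ x + τ • d ∈ M'} with hT
  have hTc : IsClosed T := by
    have : T = Ici 0 ∩ (fun τ : ℝ => x + τ • d) ⁻¹' M' := rfl
    rw [this]
    exact isClosed_Ici.inter (hM'c.preimage (by fun_prop))
  rcases T.eq_empty_or_nonempty with he | hne
  · left
    intro τ hτ j hj ho hmem
    have : τ ∈ T := ⟨hτ, mem_M.2 ⟨j, ⟨hj, ho⟩, hmem⟩⟩
    rw [he] at this
    exact this
  right
  have hbdd : BddBelow T := ⟨0, fun τ hτ => hτ.1⟩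
  have hmem : sInf T ∈ T := hTc.csInf_mem hne hbdd
  set t := sInf T with ht
  obtain ⟨j, ⟨hj, ho⟩, hxj⟩ := mem_M.1 hmem.2
  have ht0 : 0 < t := by
    refine lt_of_le_of_ne hmem.1 fun h => ?_
    rw [← h, zero_smul, add_zero] at hxj
    exact notMem_start_M hs hj ho hxj
  by_cases hsing : x + t • d ∈ Sing a b S
  · exact Or.inr ⟨t, ht0, hsing⟩
  left
  refine ⟨j, t, ht0, hj, ho, ?_, hd j hj, ?_⟩
  · refine mem_openSegment_of_ne hxj (fun h => hsing ?_) fun h => hsing ?_
    · exact Or.inl ⟨j, hj, Or.inl h⟩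
    · exact Or.inl ⟨j, hj, Or.inr h⟩
  · intro j' hj' ho' hne' τ hτ hmem'
    rcases hτ.2.lt_or_eq with h | h
    · have : τ ∈ T := ⟨hτ.1, mem_M.2 ⟨j', ⟨hj', ho'⟩, hmem'⟩⟩
      exact absurd (csInf_le hbdd this) (not_le.2 h)
    · subst h
      exact hsing (Or.inr ⟨j', hj', j, hj, hne', hmem', hxj⟩)

theorem Reg.notSing (hab : ∀ i ∈ S, a i ≠ b i) {i : ι} {y : ℂ} (h : Reg a b S i y) :
    y ∉ Sing a b S := by
  obtain ⟨hi, hy, hj⟩ := h
  have hne := (mem_openSegment_iff (hab i hi)).1 hy
  have hab' := hab i hi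
  rintro (⟨j, hjS, h | h⟩ | ⟨j, hjS, k, hkS, hjk, h1, h2⟩)
  · by_cases hji : j = i
    · subst hji
      have := par_of hab' 0
      rw [zero_smul, add_zero] at this
      rw [h] at hne
      linarith
    · exact hj j hjS hji (by rw [h]; exact left_mem_segment ℝ _ _)
  · by_cases hji : j = i
    · subst hji
      have := par_of hab' 1
      rw [one_smul, add_sub_cancel] at this
      rw [h] at hne
      linarith
    · exact hj j hjS hji (by rw [h]; exact right_mem_segment ℝ _ _)
  · by_cases hji : j = i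
    · subst hji
      exact hj k hkS (Ne.symm hjk) h2
    · exact hj j hjS hji h1

theorem Reg.symm_eq {i j : ι} {y : ℂ} (h : Reg a b S i y) (h' : Reg a b S j y) : i = j := by
  by_contra hne
  exact h.2.2 j h'.1 (Ne.symm hne) (openSegment_subset_segment ℝ _ _ h'.2.1)

end Mirr
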