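import Pool.Agent.Lib.MP_669c56_pr.Zeno

/-! # Chains of points off the mirrors and unbounded components -/

set_option autoImplicit false

open Set Filter Topology ComplexConjugate

namespace Mirr

variable {ι : Type*} {a b : ι → ℂ} {S : Set ι}

theorem comp_unbounded {x : ℕ → ℂ} {N : ℕ} {δ R : ℝ} (hδ : 0 < δ) (hR : 0 < R) (h0 : x 0 = 0)
    (hstep : ∀ k < N, ‖x (k + 1) - x k‖ ≤ δ / 2) (hdist : ∀ k ≤ N, ∀ y ∈ M a b S, δ ≤ ‖x k - y‖)
    (hM : ∀ y ∈ M a b S, ‖y‖ < R) (hx : R ≤ ‖x N‖) :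
    (0 : ℂ) ∉ M a b S ∧ ¬ Bornology.IsBounded (connectedComponentIn (M a b S)ᶜ 0) := by
  have h0M : (0 : ℂ) ∉ M a b S := by
    intro h
    have := hdist 0 (Nat.zero_le _) 0 h
    rw [h0, sub_zero, norm_zero] at this
    linarith
  refine ⟨h0M, fun hbd => ?_⟩
  have hmem : ∀ k ≤ N, x k ∈ connectedComponentIn (M a b S)ᶜ 0 := by
    intro k
    induction k with
    | zero => intro _; rw [h0]; exact mem_connectedComponentIn h0M
    | succ k ih =>
      intro hk
      refine seg_mem (ih (by omega)) fun y hy hyM => ?_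
      rw [segment_eq_image'] at hy
      obtain ⟨s, hs, rfl⟩ := hy
      have h1 := hdist k (by omega) _ hyM
      simp only at h1
      rw [sub_add_cancel_left, norm_neg, norm_smul, Real.norm_eq_abs, abs_of_nonneg hs.1] at h1
      have h2 := hstep k (by omega)
      have h3 : s * ‖x (k + 1) - x k‖ ≤ 1 * ‖x (k + 1) - x k‖ :=
        mul_le_mul_of_nonneg_right hs.2 (norm_nonneg _)
      linarith
  have hray : ∀ t : ℝ, 0 ≤ t → (1 + t) • x N ∈ connectedComponentIn (M a b S)ᶜ 0 := by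
    intro t ht
    refine seg_mem (hmem N le_rfl) fun y hy hyM => ?_
    rw [segment_eq_image'] at hy
    obtain ⟨s, hs, rfl⟩ := hy
    have h1 := hM _ hyM
    simp only at h1
    have e : x N + s • ((1 + t) • x N - x N) = (1 + s * t) • x N := by
      simp only [Complex.real_smul, Complex.ofReal_add, Complex.ofReal_one, Complex.ofReal_mul]
      ring
    rw [e, norm_smul, Real.norm_eq_abs] at h1
    have h2 : 0 ≤ s * t := mul_nonneg hs.1 ht
    rw [abs_of_nonneg (by linarith)] at h1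
    have h3 : 0 ≤ s * t * ‖x N‖ := mul_nonneg h2 (norm_nonneg _)
    linarith
  obtain ⟨C, hC⟩ := hbd.exists_norm_le
  have hC0 : 0 ≤ |C| := abs_nonneg C
  have h1 := hC _ (hray (|C| / ‖x N‖ + 1) (by positivity))
  have hxN : 0 < ‖x N‖ := by linarith
  rw [norm_smul, Real.norm_eq_abs, abs_of_nonneg (by positivity)] at h1
  have h2 : (1 + (|C| / ‖x N‖ + 1)) * ‖x N‖ = |C| + 2 * ‖x N‖ := by field_simp; ring
  rw [h2] at h1
  have := le_abs_self C
  linarith

theorem exists_chain {M : Set ℂ} (hM : IsClosed M) (h0 : (0 : ℂ) ∉ M)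
    (hunb : ¬ Bornology.IsBounded (connectedComponentIn Mᶜ 0)) (R : ℝ) :
    ∃ (N m : ℕ) (x : ℕ → ℂ) (δ : ℚ), 0 < δ ∧ x 0 = 0 ∧ (∀ k < N, ‖x (k + 1) - x k‖ ≤ δ / 2) ∧
      (∀ k ≤ N, ∀ y ∈ M, (δ : ℝ) ≤ ‖x k - y‖) ∧ R ≤ ‖x N‖ ∧ ∀ k, ‖x k‖ ≤ m := by
  have hopen : IsOpen (connectedComponentIn Mᶜ (0 : ℂ)) := hM.isOpen_compl.connectedComponentIn
  have h00 : (0 : ℂ) ∈ connectedComponentIn Mᶜ (0 : ℂ) := mem_connectedComponentIn h0
  have hconn : IsConnected (connectedComponentIn Mᶜ (0 : ℂ)) :=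
    ⟨⟨0, h00⟩, isPreconnected_connectedComponentIn⟩
  have hpc := (hopen.isConnected_iff_isPathConnected).1 hconn
  obtain ⟨y, hy, hyR⟩ : ∃ y ∈ connectedComponentIn Mᶜ (0 : ℂ), R ≤ ‖y‖ := by
    by_contra hcon
    push Not at hcon
    apply hunb
    refine (Metric.isBounded_closedBall (x := (0 : ℂ)) (r := R)).subset fun y hy => ?_
    rw [Metric.mem_closedBall, dist_zero_right]
    exact (hcon y hy).le
  obtain ⟨γ, hγ⟩ := hpc.joinedIn 0 h00 y hy
  set f : ℝ → ℂ := fun t => γ.extend t with hf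
  have hfc : Continuous f := γ.continuous_extend
  have hfC : ∀ t, f t ∈ connectedComponentIn Mᶜ (0 : ℂ) := by
    intro t
    have h1 : f t ∈ Set.range γ := by
      rw [← γ.extend_range]
      exact ⟨t, rfl⟩
    obtain ⟨s, hs⟩ := h1
    rw [← hs]
    exact hγ s
  have hK : IsCompact (f '' Icc 0 1) := isCompact_Icc.image hfc
  have hdis : Disjoint (f '' Icc 0 1) M := by
    rw [Set.disjoint_left]
    rintro _ ⟨t, _, rfl⟩
    exact connectedComponentIn_subset _ _ (hfC t)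
  obtain ⟨δ₀, hδ₀, hth⟩ := hdis.exists_thickenings hK hM
  obtain ⟨δ, hδ1, hδ2⟩ := exists_rat_btwn hδ₀
  have hδ0 : (0 : ℝ) < δ := hδ1
  have huc := isCompact_Icc.uniformContinuousOn_of_continuous (hfc.continuousOn (s := Icc 0 1))
  rw [Metric.uniformContinuousOn_iff] at huc
  obtain ⟨η, hη, huc⟩ := huc (δ / 2) (by positivity)
  obtain ⟨N, hN⟩ := exists_nat_gt (1 / η)
  have hN0 : (0 : ℝ) < N := lt_trans (by positivity) hN
  have hNη : 1 / (N : ℝ) < η := by
    rw [div_lt_iff₀ hN0]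
    rw [div_lt_iff₀ hη] at hN
    linarith
  obtain ⟨C, hC⟩ := hK.isBounded.exists_norm_le
  obtain ⟨m, hm⟩ := exists_nat_ge C
  have hmem : ∀ k : ℕ, min ((k : ℝ) / N) 1 ∈ Icc (0 : ℝ) 1 := fun k =>
    ⟨le_min (by positivity) zero_le_one, min_le_right _ _⟩
  refine ⟨N, m, fun k => f (min ((k : ℝ) / N) 1), δ, by exact_mod_cast hδ1, ?_, ?_, ?_, ?_, ?_⟩
  · simp [hf]
  · intro k _
    have h1 := huc _ (hmem (k + 1)) _ (hmem k) (by
      rw [Real.dist_eq]
      have h2 : (((k + 1 : ℕ) : ℝ)) / N = (k : ℝ) / N + 1 / N := by push_cast; ring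
      have h3 : 0 < 1 / (N : ℝ) := by positivity
      rw [h2, abs_of_nonneg]
      · rcases le_total ((k : ℝ) / N + 1 / N) 1 with h4 | h4
        · rw [min_eq_left h4, min_eq_left (by linarith)]; linarith
        · rw [min_eq_right h4]
          rcases le_total ((k : ℝ) / N) 1 with h5 | h5
          · rw [min_eq_left h5]; linarith
          · rw [min_eq_right h5]; linarith
      · have := min_le_min_right 1 (show (k : ℝ) / N ≤ (k : ℝ) / N + 1 / N by linarith)
        linarith)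
    rw [dist_eq_norm] at h1
    exact h1.le
  · intro k _ y hy
    by_contra hcon
    push Not at hcon
    have h1 : y ∈ Metric.thickening δ₀ (f '' Icc 0 1) := by
      rw [Metric.mem_thickening_iff]
      refine ⟨_, ⟨_, hmem k, rfl⟩, ?_⟩
      rw [dist_comm, dist_eq_norm]
      exact hcon.trans hδ2
    exact Set.disjoint_left.1 hth h1 (Metric.self_subset_thickening hδ₀ _ hy)
  · have h1 : min ((N : ℝ) / N) 1 = 1 := by rw [div_self hN0.ne', min_self]
    show R ≤ ‖f (min ((N : ℝ) / N) 1)‖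
    rw [h1]
    simpa [hf] using hyR
  · intro k
    exact (hC _ ⟨_, hmem k, rfl⟩).trans hm

end Mirr
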