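import Pool.Agent.Lib.MP_669c56_pr.NoGap

/-! # Relatively closed invariant sets are open, hence contain whole components -/

set_option autoImplicit false

open Set Filter Topology ComplexConjugate

namespace Mirr

variable {ι : Type*} {a b : ι → ℂ} {S : Set ι} {K : ℂ → Set ℂ} {D : Set ℂ}

/-- a finite set of directions, closed under the reflections and under reversal, without bad
directions -/
structure GoodD (a b : ι → ℂ) (S : Set ι) (D : Set ℂ) : Prop where
  fin : D.Finite
  unit : ∀ d ∈ D, ‖d‖ = 1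
  trans : ∀ d ∈ D, ∀ i ∈ S, cr (b i - a i) d ≠ 0
  refl : ∀ d ∈ D, ∀ i ∈ S, Mirr.refl (b i - a i) d ∈ D
  neg : ∀ d ∈ D, -d ∈ D
  good : ∀ d ∈ D, d ∉ BadDir a b S

/-- a gap next to a point forces a singular forward orbit -/
theorem GoodD.singular [Countable ι] (hD : GoodD a b S D) (hS : S.Finite)
    (hab : ∀ i ∈ S, a i ≠ b i) (hK : Inv a b S K) (hSing : (Sing a b S).Finite) {d : ℂ}
    (hd : d ∈ D) {z v : ℂ} {r : ℝ} (hr : 0 < r) (hz : z ∈ K d)
    (hv : cr d v = 1 ∨ cr d v = -1) (hgap : ∀ s ∈ Ioo 0 r, z + s • v ∉ M a b S ∧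
      z + s • v ∉ K d) :
    ∃ (w : List ι) (p : ℂ) (T : ℝ), p ∈ Sing a b S ∧ 0 < T ∧ z + T • d = U a b w p := by
  by_contra hcon
  push Not at hcon
  have hns : ∀ (w : List ι) (p : ℂ) (T : ℝ), p ∈ Sing a b S → 0 < T →
      z + T • d ≠ U a b w p := hcon
  have hbad := hD.good d hd
  have hper : ∀ (w w' : List ι) (T : ℝ) (x e : ℂ), 0 < T → ‖e‖ = 1 → L a b w e = d →
      L a b w' e = d → U a b w x + T • d ≠ U a b w' x := by
    intro w w' T x e hT he h1 h2 h3
    exact hbad ⟨hD.unit d hd, Or.inr ⟨w, w', T, x, e, hT, he, h1, h2, h3⟩⟩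
  refine strip hS hab hK hD.fin hSing hD.unit hD.trans hD.refl hns hper
    (σ₀ := ⟨none, z, d, v, [], 0, r⟩) ?_
  refine ⟨hK.off d z hz, hz, hd, ?_, rfl, le_rfl, hv, fun i hi => ?_, hr, fun s hs => ?_⟩
  · show z + (0 : ℝ) • d = U a b [] z
    rw [zero_smul, add_zero]; rfl
  · exact absurd hi (by simp)
  · exact hgap s hs

theorem Inv.isOpen [Countable ι] (hD : GoodD a b S D) (hS : S.Finite)
    (hab : ∀ i ∈ S, a i ≠ b i) (hK : Inv a b S K) (hSing : (Sing a b S).Finite)
    (hcl : ∀ d, ∀ z, z ∉ M a b S → z ∈ closure (K d) → z ∈ K d) {d : ℂ} (hd : d ∈ D) :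
    IsOpen (K d) := by
  have hMc : IsOpen (M a b S)ᶜ := (isCompact_M hS).isClosed.isOpen_compl
  rw [Metric.isOpen_iff]
  intro z hz
  obtain ⟨ρ, hρ, hball⟩ := Metric.isOpen_iff.1 hMc z (hK.off d z hz)
  refine ⟨ρ, hρ, fun z' hz' => ?_⟩
  by_contra hz'K
  have hd1 := hD.unit d hd
  set n : ℂ := Complex.I * d with hn
  have hcn : cr d n = 1 := by
    have h1 : cr d n = Complex.normSq d := by
      rw [Complex.normSq_apply]
      simp only [cr, hn, Complex.mul_im, Complex.mul_re, Complex.I_re, Complex.I_im]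
      ring
    rw [h1, Complex.normSq_eq_norm_sq, hd1]; norm_num
  have hn1 : ‖n‖ = 1 := by rw [hn, norm_mul, Complex.norm_I, one_mul, hd1]
  set β : ℝ := cr d (z' - z) with hβ
  obtain ⟨α, hα⟩ : ∃ α : ℝ, z' - z - β • n = α • d :=
    ⟨_, eq_smul_of_cr hd1 (by rw [cr_sub_right, cr_smul_right, hcn]; ring)⟩
  have hβle : |β| ≤ ‖z' - z‖ := by
    have := cr_le d (z' - z)
    rwa [hd1, one_mul] at this
  have hz'ρ : ‖z' - z‖ < ρ := by
    rw [Metric.mem_ball, dist_eq_norm] at hz'
    exact hz'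
  have hin : ∀ y : ℂ, ‖y - z‖ < ρ → y ∉ M a b S := by
    intro y hy
    exact hball (by rw [Metric.mem_ball, dist_eq_norm]; exact hy)
  have hz''K : z + β • n ∉ K d := by
    intro h
    have h1 := hK.flight d _ α h (by
      intro τ hτ
      refine hin _ ?_
      have e1 : z + β • n + α • d = z' := by rw [← hα]; ring
      have e2 : z + β • n ∈ Metric.ball z ρ := by
        rw [Metric.mem_ball, dist_eq_norm]
        have : z + β • n - z = β • n := by ring
        rw [this, norm_smul, hn1, mul_one, Real.norm_eq_abs]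
        linarith
      have e3 : z + β • n + α • d ∈ Metric.ball z ρ := by rw [e1]; exact hz'
      have hconv := convex_ball z ρ
      -- the point with parameter `τ` is between the two
      have e4 : z + β • n + τ • d ∈ segment ℝ (z + β • n) (z + β • n + α • d) := by
        rw [segment_eq_image']
        rcases eq_or_ne α 0 with h0 | h0
        · refine ⟨0, ⟨le_rfl, zero_le_one⟩, ?_⟩
          rw [h0, uIcc_self, mem_singleton_iff] at hτ
          simp only
          rw [hτ, zero_smul, zero_smul, add_zero]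
        · refine ⟨τ / α, ?_, ?_⟩
          · rw [mem_uIcc] at hτ
            rcases hτ with h | h
            · have hα0 : 0 < α := lt_of_le_of_ne (h.1.trans h.2) (Ne.symm h0)
              exact ⟨div_nonneg h.1 hα0.le, (div_le_one hα0).2 h.2⟩
            · have hα0 : α < 0 := lt_of_le_of_ne (h.1.trans h.2) h0
              exact ⟨div_nonneg_of_nonpos h.2 hα0.le, (div_le_one_of_neg hα0).2 h.1⟩
          · simp only
            rw [add_sub_cancel_left, smul_smul, div_mul_cancel₀ _ h0]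
      have e5 := hconv.segment_subset e2 e3 e4
      rwa [Metric.mem_ball, dist_eq_norm] at e5)
    rw [← hα] at h1
    apply hz'K
    convert h1 using 1
    ring
  have hβ0 : β ≠ 0 := by
    intro h
    rw [h, zero_smul, add_zero] at hz''K
    exact hz''K hz
  obtain ⟨v, hv, hv1, hvβ⟩ : ∃ v : ℂ, (cr d v = 1 ∨ cr d v = -1) ∧ ‖v‖ = 1 ∧
      |β| • v = β • n := by
    rcases lt_or_gt_of_ne hβ0 with h | h
    · refine ⟨-n, Or.inr (by rw [cr_neg_right, hcn]), by rw [norm_neg, hn1], ?_⟩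
      rw [abs_of_neg h, smul_neg, neg_smul, neg_neg]
    · exact ⟨n, Or.inl hcn, hn1, by rw [abs_of_pos h]⟩
  set A : Set ℝ := {s | s ∈ Icc 0 |β| ∧ z + s • v ∈ K d} with hA
  have hA0 : (0 : ℝ) ∈ A := ⟨⟨le_rfl, abs_nonneg _⟩, by rw [zero_smul, add_zero]; exact hz⟩
  have hAb : BddAbove A := ⟨|β|, fun s hs => hs.1.2⟩
  set s₀ := sSup A with hs₀
  have hs₀0 : 0 ≤ s₀ := le_csSup hAb hA0
  have hs₀β : s₀ ≤ |β| := csSup_le ⟨0, hA0⟩ fun s hs => hs.1.2
  have hvin : ∀ s ∈ Icc 0 |β|, z + s • v ∉ M a b S := by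
    intro s hs
    refine hin _ ?_
    have : z + s • v - z = s • v := by ring
    rw [this, norm_smul, hv1, mul_one, Real.norm_eq_abs, abs_of_nonneg hs.1]
    linarith [hs.2]
  have hs₀K : z + s₀ • v ∈ K d := by
    refine hcl d _ (hvin s₀ ⟨hs₀0, hs₀β⟩) ?_
    have h1 : s₀ ∈ closure A := csSup_mem_closure ⟨0, hA0⟩ hAb
    have h2 : Continuous fun s : ℝ => z + s • v := by fun_prop
    have h4 : (fun s : ℝ => z + s • v) s₀ ∈ closure ((fun s : ℝ => z + s • v) '' A) :=
      image_closure_subset_closure_image h2 ⟨s₀, h1, rfl⟩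
    refine closure_mono ?_ h4
    rintro _ ⟨s, hs, rfl⟩
    exact hs.2
  have hs₀lt : s₀ < |β| := by
    refine lt_of_le_of_ne hs₀β fun h => hz''K ?_
    rw [h, hvβ] at hs₀K
    exact hs₀K
  have hgap : ∀ s ∈ Ioo 0 (|β| - s₀), z + s₀ • v + s • v ∉ M a b S ∧
      z + s₀ • v + s • v ∉ K d := by
    intro s hs
    have e : z + s₀ • v + s • v = z + (s₀ + s) • v := by rw [add_smul]; ring
    rw [e]
    have hm : s₀ + s ∈ Icc 0 |β| := ⟨by linarith [hs.1], by linarith [hs.2]⟩
    refine ⟨hvin _ hm, fun h => ?_⟩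
    have := le_csSup hAb (show s₀ + s ∈ A from ⟨hm, h⟩)
    linarith [hs.1]
  obtain ⟨w, p, T, hp, hT, h1⟩ := hD.singular hS hab hK hSing hd (by linarith) hs₀K hv hgap
  obtain ⟨w', p', T', hp', hT', h2⟩ := hD.singular hS hab (hK.rev hab) hSing (hD.neg d hd)
    (z := z + s₀ • v) (v := v) (r := |β| - s₀) (by linarith)
    (by show z + s₀ • v ∈ K (- -d); rw [neg_neg]; exact hs₀K)
    (by
      rw [cr_neg_left]
      rcases hv with h | h <;> rw [h]
      · right; rfl
      · left; norm_num)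
    (by
      intro s hs
      have := hgap s hs
      refine ⟨this.1, ?_⟩
      show z + s₀ • v + s • v ∉ K (- -d)
      rw [neg_neg]
      exact this.2)
  refine hD.good d hd ⟨hd1, Or.inl ⟨w, w', p', hp', p, hp, T + T', by linarith, ?_⟩⟩
  rw [← h1, ← h2, smul_neg, add_smul]
  ring

/-- an invariant set does not meet the unbounded component -/
theorem Inv.not_in_component [Countable ι] (hD : GoodD a b S D) (hS : S.Finite)
    (hab : ∀ i ∈ S, a i ≠ b i) (hK : Inv a b S K) (hSing : (Sing a b S).Finite)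
    (hcl : ∀ d, ∀ z, z ∉ M a b S → z ∈ closure (K d) → z ∈ K d) {d : ℂ} (hd : d ∈ D)
    (hunb : ¬ Bornology.IsBounded (connectedComponentIn (M a b S)ᶜ 0)) :
    ∀ z ∈ K d, z ∉ connectedComponentIn (M a b S)ᶜ 0 := by
  intro z hz hzC
  have hMc : IsOpen (M a b S)ᶜ := (isCompact_M hS).isClosed.isOpen_compl
  have ho := hK.isOpen hD hS hab hSing hcl hd
  have hsub : connectedComponentIn (M a b S)ᶜ 0 ⊆ K d := by
    refine isPreconnected_connectedComponentIn.subset_left_of_subset_union ho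
      (v := (M a b S)ᶜ ∩ (closure (K d))ᶜ) (hMc.inter isClosed_closure.isOpen_compl) ?_ ?_
      ⟨z, hzC, hz⟩
    · rw [Set.disjoint_left]
      intro y hy hy'
      exact hy'.2 (subset_closure hy)
    · intro y hy
      have hyM : y ∈ (M a b S)ᶜ := connectedComponentIn_subset _ _ hy
      by_cases h : y ∈ closure (K d)
      · exact Or.inl (hcl d y hyM h)
      · exact Or.inr ⟨hyM, h⟩
  obtain ⟨B, hB⟩ := hK.bdd
  apply hunb
  refine (Metric.isBounded_closedBall (x := (0 : ℂ)) (r := B)).subset fun y hy => ?_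
  rw [Metric.mem_closedBall, dist_zero_right]
  exact hB d y (hsub hy)

end Mirr
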