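import Pool.Agent.Lib.MP_669c56_pr.Zeno

/-! # Escape to infinity after finitely many regular reflections: an open condition -/

set_option autoImplicit false

open Set Filter Topology ComplexConjugate

namespace Mirr

variable {ι : Type*}

/-- The flight from `x` in the direction `d` (starting at the mirror `o`) escapes to infinity after
finitely many regular reflections. -/
inductive Esc (a b : ι → ℂ) (S : Set ι) : Option ι → ℂ → ℂ → Prop
  | free {o : Option ι} {x d : ℂ} (h : ∀ j ∈ S, o ≠ some j → ∀ τ : ℝ, 0 ≤ τ →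
      x + τ • d ∉ segment ℝ (a j) (b j)) : Esc a b S o x d
  | step {o : Option ι} {x d : ℂ} {j : ι} {t : ℝ} (h : Step a b S o x d j t)
      (h' : Esc a b S (some j) (x + t • d) (refl (b j - a j) d)) : Esc a b S o x d

variable {a b : ι → ℂ} {S : Set ι}

theorem Esc.eventually (hS : S.Finite) (hab : ∀ i ∈ S, a i ≠ b i) {o : Option ι} {x d : ℂ}
    (h : Esc a b S o x d) (hd : d ≠ 0) :
    ∀ᶠ q : Par ι in 𝓝 (a, b, x, d), Esc q.1 q.2.1 S o q.2.2.1 q.2.2.2 := by
  induction h with
  | @free o x d h =>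
    have e : ∀ᶠ q : Par ι in 𝓝 (a, b, x, d), ∀ j ∈ S, o ≠ some j → ∀ τ : ℝ, 0 ≤ τ →
        q.2.2.1 + τ • q.2.2.2 ∉ segment ℝ (q.1 j) (q.2.1 j) := by
      rw [Filter.eventually_all_finite hS]
      intro j hj
      by_cases ho : o = some j
      · exact Filter.Eventually.of_forall fun q h1 => absurd ho h1
      · have c1 : ContinuousAt (fun q : Par ι => q.1 j) (a, b, x, d) := by fun_prop
        have c2 : ContinuousAt (fun q : Par ι => q.2.1 j) (a, b, x, d) := by fun_prop
        have c3 : ContinuousAt (fun q : Par ι => q.2.2.1) (a, b, x, d) := by fun_prop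
        have c4 : ContinuousAt (fun q : Par ι => q.2.2.2) (a, b, x, d) := by fun_prop
        filter_upwards [free_robust c1 c2 c3 c4 hd (h j hj ho)] with q hq _
        exact hq
    filter_upwards [e] with q hq
    exact Esc.free hq
  | @step o x d j t hst _ ih =>
    have hj := hst.2.1
    have he : b j - a j ≠ 0 := sub_ne_zero.2 (hab j hj).symm
    have hrd : refl (b j - a j) d ≠ 0 := by
      rw [← norm_pos_iff, norm_refl he]; exact norm_pos_iff.2 hd
    have ih' := ih hrd
    have ht := hst.time hab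
    have e1 := step_open hS hab hst
    have c0 := continuousAt_hitT (x := x) hst.2.2.2.2.1
    have c1 : ContinuousAt (fun q : Par ι => q.1) (a, b, x, d) := by fun_prop
    have c2 : ContinuousAt (fun q : Par ι => q.2.1) (a, b, x, d) := by fun_prop
    have c1j : ContinuousAt (fun q : Par ι => q.1 j) (a, b, x, d) := by fun_prop
    have c2j : ContinuousAt (fun q : Par ι => q.2.1 j) (a, b, x, d) := by fun_prop
    have c3 : ContinuousAt (fun q : Par ι => q.2.2.1) (a, b, x, d) := by fun_prop
    have c4 : ContinuousAt (fun q : Par ι => q.2.2.2) (a, b, x, d) := by fun_prop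
    have cr1 : ContinuousAt (fun q : Par ι => refl (q.2.1 j - q.1 j) q.2.2.2) (a, b, x, d) :=
      ContinuousAt.comp (g := fun p : ℂ × ℂ => refl p.1 p.2)
        (f := fun q : Par ι => (q.2.1 j - q.1 j, q.2.2.2)) (continuousAt_refl he)
        ((c2j.sub c1j).prodMk c4)
    have cF : ContinuousAt (fun q : Par ι => ((q.1, q.2.1, q.2.2.1 +
        hitT q.1 q.2.1 q.2.2.1 q.2.2.2 j • q.2.2.2, refl (q.2.1 j - q.1 j) q.2.2.2) : Par ι))
        (a, b, x, d) := c1.prodMk (c2.prodMk ((c3.add (c0.smul c4)).prodMk cr1))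
    have e2 : ∀ᶠ q : Par ι in 𝓝 (a, b, x, d), Esc q.1 q.2.1 S (some j)
        (q.2.2.1 + hitT q.1 q.2.1 q.2.2.1 q.2.2.2 j • q.2.2.2)
        (refl (q.2.1 j - q.1 j) q.2.2.2) := by
      have e3 : ∀ᶠ q : Par ι in 𝓝 (a, b, x + hitT a b x d j • d, refl (b j - a j) d),
          Esc q.1 q.2.1 S (some j) q.2.2.1 q.2.2.2 := by
        rw [← ht]
        exact ih'
      exact cF.tendsto.eventually e3
    filter_upwards [e1, e2] with q h1 h2
    exact Esc.step h1 h2

end Mirr
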