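import Pool.Agent.Lib.MP_669c56_pr.GenericMain

/-! # Locally finite families -/

set_option autoImplicit false

open Set Filter Topology ComplexConjugate

namespace Mirr

variable {ι : Type*} {a b : ι → ℂ} {I J : Set ι}

/-- the first `n` reflections of the light path from `x₀` in the direction `d₀` -/
def LP (a b : ι → ℂ) (I : Set ι) (x₀ d₀ : ℂ) (n : ℕ) (x d : ℕ → ℂ) : Prop :=
  x 0 = x₀ ∧ d 0 = d₀ ∧ ∀ k < n,
    (∃ t : ℝ, 0 < t ∧ x (k + 1) = x k + t • d k ∧ x (k + 1) ∈ M a b I ∧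
      ∀ s : ℝ, 0 < s → s < t → x k + s • d k ∉ M a b I) ∧
    ∃ i ∈ I, x (k + 1) ∈ segment ℝ (a i) (b i) ∧ d (k + 1) = refl (b i - a i) (d k)

/-- the light path leaves the ball of radius `R` -/
def Leaves (a b : ι → ℂ) (I : Set ι) (x₀ d₀ : ℂ) (R : ℝ) : Prop :=
  ∃ (n : ℕ) (x d : ℕ → ℂ), LP a b I x₀ d₀ n x d ∧ ∃ t : ℝ, 0 ≤ t ∧
    (∀ s : ℝ, 0 < s → s < t → x n + s • d n ∉ M a b I) ∧ R ≤ ‖x n + t • d n‖

theorem first_exit {x d : ℂ} {R T : ℝ} (hT : 0 ≤ T) (h : R ≤ ‖x + T • d‖) :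
    ∃ t : ℝ, 0 ≤ t ∧ t ≤ T ∧ R ≤ ‖x + t • d‖ ∧ ∀ s : ℝ, 0 ≤ s → s < t → ‖x + s • d‖ < R := by
  set A : Set ℝ := {t | 0 ≤ t ∧ R ≤ ‖x + t • d‖} with hA
  have hAc : IsClosed A := by
    have : A = Ici 0 ∩ {t : ℝ | R ≤ ‖x + t • d‖} := rfl
    rw [this]
    exact isClosed_Ici.inter (isClosed_le continuous_const (by fun_prop))
  have hAb : BddBelow A := ⟨0, fun t ht => ht.1⟩
  have hmem := hAc.csInf_mem ⟨T, hT, h⟩ hAb
  refine ⟨sInf A, hmem.1, csInf_le hAb ⟨hT, h⟩, hmem.2, fun s hs hlt => ?_⟩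
  by_contra hcon
  exact absurd (csInf_le hAb ⟨hs, not_lt.1 hcon⟩) (not_le.2 hlt)

theorem exists_exit (x : ℂ) {d : ℂ} (hd : d ≠ 0) (R : ℝ) : ∃ T : ℝ, 0 ≤ T ∧ R ≤ ‖x + T • d‖ := by
  have hd' : 0 < ‖d‖ := norm_pos_iff.2 hd
  refine ⟨(|R| + ‖x‖) / ‖d‖, by positivity, ?_⟩
  have h1 : ‖((|R| + ‖x‖) / ‖d‖) • d‖ = |R| + ‖x‖ := by
    rw [norm_smul, Real.norm_eq_abs, abs_of_nonneg (by positivity), div_mul_cancel₀ _ hd'.ne']
  have h2 : ‖((|R| + ‖x‖) / ‖d‖) • d‖ ≤ ‖x + ((|R| + ‖x‖) / ‖d‖) • d‖ + ‖x‖ := by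
    have e : ((|R| + ‖x‖) / ‖d‖) • d = (x + ((|R| + ‖x‖) / ‖d‖) • d) - x := by ring
    calc ‖((|R| + ‖x‖) / ‖d‖) • d‖ = ‖(x + ((|R| + ‖x‖) / ‖d‖) • d) - x‖ := by rw [← e]
      _ ≤ _ := norm_sub_le _ _
  have := le_abs_self R
  linarith

/-- Until the first exit from the ball the path is the one for the mirrors meeting the ball. -/
theorem Esc.leaves {R : ℝ} (hJI : J ⊆ I)
    (hJ : ∀ i ∈ I, (segment ℝ (a i) (b i) ∩ Metric.ball 0 R).Nonempty → i ∈ J)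
    (hab : ∀ i ∈ J, a i ≠ b i) {o : Option ι} {x d : ℂ} (h : Esc a b J o x d) (hd : d ≠ 0)
    (hs : Start a b J o x d) (hx : ‖x‖ < R) : Leaves a b I x d R := by
  have hMJ : ∀ y : ℂ, ‖y‖ < R → y ∉ M a b J → y ∉ M a b I := by
    intro y hy hyJ hyI
    obtain ⟨i, hi, h1⟩ := mem_M.1 hyI
    refine hyJ (mem_M.2 ⟨i, hJ i hi ⟨y, h1, ?_⟩, h1⟩)
    rwa [Metric.mem_ball, dist_zero_right]
  induction h with
  | @free o x d h =>
    obtain ⟨T, hT, hRT⟩ := exists_exit x hd R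
    obtain ⟨t, ht, _, hRt, hlt⟩ := first_exit hT hRT
    refine ⟨0, fun _ => x, fun _ => d, ⟨rfl, rfl, fun k hk => absurd hk (Nat.not_lt_zero k)⟩, t, ht,
      fun s hs0 hst => hMJ _ (hlt s hs0.le hst) fun hm => ?_, hRt⟩
    obtain ⟨i, hi, h1⟩ := mem_M.1 hm
    by_cases ho : o = some i
    · exact notMem_start hab hs ho hs0.ne' h1
    · exact h i hi ho s hs0.le h1
  | @step o x d j t hst hE ih =>
    have hj := hst.2.1
    have he : b j - a j ≠ 0 := sub_ne_zero.2 (hab j hj).symm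
    have hfree : ∀ s : ℝ, 0 < s → s < t → x + s • d ∉ M a b J := fun s h1 h2 =>
      hst.free hab hs ⟨h1, h2⟩
    by_cases hex : ∃ T : ℝ, 0 ≤ T ∧ T ≤ t ∧ R ≤ ‖x + T • d‖
    · obtain ⟨T, hT, hTt, hRT⟩ := hex
      obtain ⟨t', ht', ht'T, hRt, hlt⟩ := first_exit hT hRT
      exact ⟨0, fun _ => x, fun _ => d, ⟨rfl, rfl, fun k hk => absurd hk (Nat.not_lt_zero k)⟩, t',
        ht', fun s hs0 hst' => hMJ _ (hlt s hs0.le hst') (hfree s hs0 (by linarith)), hRt⟩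
    · push Not at hex
      have hrd : refl (b j - a j) d ≠ 0 := by
        rw [← norm_pos_iff, norm_refl he]; exact norm_pos_iff.2 hd
      obtain ⟨n, xs, ds, ⟨hx0, hd0, hp⟩, hleave⟩ := ih hrd (hst.start hab hs)
        (hex t hst.1.le le_rfl)
      refine ⟨n + 1, fun k => Nat.casesOn k x xs, fun k => Nat.casesOn k d ds, ⟨rfl, rfl, ?_⟩, ?_⟩
      · intro k hk
        cases k with
        | zero =>
          show (∃ t' : ℝ, 0 < t' ∧ xs 0 = x + t' • d ∧ xs 0 ∈ M a b I ∧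
            ∀ s : ℝ, 0 < s → s < t' → x + s • d ∉ M a b I) ∧
            ∃ i ∈ I, xs 0 ∈ segment ℝ (a i) (b i) ∧ ds 0 = refl (b i - a i) d
          have hm : xs 0 ∈ segment ℝ (a j) (b j) := by
            rw [hx0]; exact openSegment_subset_segment ℝ _ _ hst.2.2.2.1
          exact ⟨⟨t, hst.1, hx0, mem_M.2 ⟨j, hJI hj, hm⟩, fun s h1 h2 =>
            hMJ _ (hex s h1.le h2.le) (hfree s h1 h2)⟩, j, hJI hj, hm, hd0⟩
        | succ k => exact hp k (by omega)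
      · exact hleave

theorem LP.unfold {u : ℂ} {n : ℕ} {x d : ℕ → ℂ} (hab : ∀ i ∈ I, a i ≠ b i)
    (h : LP a b I 0 u n x d) : ∀ k ≤ n, ∃ (w : List ι) (T : ℝ), 0 ≤ T ∧ (0 < k → 0 < T) ∧
      U a b w (x k) = T • u ∧ L a b w (d k) = u := by
  obtain ⟨h0, hd0, hp⟩ := h
  intro k
  induction k with
  | zero =>
    intro _
    refine ⟨[], 0, le_rfl, fun h => absurd h (lt_irrefl _), ?_, ?_⟩
    · rw [h0, zero_smul]; rfl
    · rw [hd0]; rfl
  | succ k ih =>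
    intro hk
    obtain ⟨w, T, hT, _, hU, hL⟩ := ih (by omega)
    obtain ⟨⟨t, ht, hxs, _, _⟩, i, hi, hxi, hds⟩ := hp k (by omega)
    have he : b i - a i ≠ 0 := sub_ne_zero.2 (hab i hi).symm
    refine ⟨w ++ [i], T + t, by linarith, fun _ => by linarith, ?_, ?_⟩
    · rw [U_concat, rf_of_line (hab i hi) (cr_of_mem (hab i hi) hxi), hxs, U_add, hU, L_smul, hL,
        add_smul]
    · rw [L_concat, hds, refl_refl he, hL]

/-- the exceptional angles -/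
theorem exceptional_countable [Countable ι] (hI : I.Countable) (hab : ∀ i ∈ I, a i ≠ b i)
    (hpair : ∀ i ∈ I, ∀ j ∈ I, i ≠ j →
      (segment ℝ (a i) (b i) ∩ segment ℝ (a j) (b j)).Subsingleton) (h0 : (0 : ℂ) ∉ M a b I) :
    {α : ℝ | ∃ (n : ℕ) (x d : ℕ → ℂ), LP a b I 0 (ev α) n x d ∧ x n ∈ Sing a b I}.Countable := by
  refine (angle_countable (hitSing_countable (a := a) (b := b)
    (sing_countable hI hpair))).mono ?_
  rintro α ⟨n, x, d, hp, hx⟩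
  obtain ⟨w, T, hT, hT', hU, -⟩ := hp.unfold hab n le_rfl
  have hn : 0 < n := by
    rcases Nat.eq_zero_or_pos n with h | h
    · exfalso
      subst h
      rw [hp.1] at hx
      apply h0
      rcases hx with ⟨i, hi, h | h⟩ | ⟨i, hi, j, hj, hij, h1, h2⟩
      · exact mem_M.2 ⟨i, hi, by rw [h]; exact left_mem_segment ℝ _ _⟩
      · exact mem_M.2 ⟨i, hi, by rw [h]; exact right_mem_segment ℝ _ _⟩
      · exact mem_M.2 ⟨i, hi, h1⟩
    · exact h
  exact ⟨norm_exp_angle α, w, x n, hx, T, hT' hn, hU.symm⟩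

theorem compl_countable_residual {C : Set ℝ} (hC : C.Countable) : Cᶜ ∈ residual ℝ := by
  have h1 : Cᶜ = ⋂ x ∈ C, ({x} : Set ℝ)ᶜ := by
    ext y
    simp only [mem_compl_iff, mem_iInter, mem_singleton_iff]
    exact ⟨fun h x hx hy => h (hy ▸ hx), fun h hy => h y hy rfl⟩
  rw [h1, countable_bInter_mem hC]
  intro x _
  exact residual_of_dense_open isOpen_compl_singleton (dense_compl_singleton x)

/-- the finite subfamily which decides whether the path leaves the ball -/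
theorem exists_sub {θ : ℕ → ℝ} {I : Set ℕ} {a b : ℕ → ℂ}
    (hinc : ∀ i ∈ I, ∃ (k : ℕ) (r : ℝ), r ≠ 0 ∧ b i - a i = r • ev (θ k))
    (hlf : ∀ R : ℝ, {i ∈ I | (segment ℝ (a i) (b i) ∩ Metric.ball 0 R).Nonempty}.Finite)
    (h0 : (0 : ℂ) ∉ M a b I)
    (hunb : ¬ Bornology.IsBounded (connectedComponentIn (M a b I)ᶜ 0)) (R : ℕ) :
    ∃ J : Finset ℕ, (J : Set ℕ) ⊆ I ∧ (0 : ℂ) ∉ M a b J ∧
      ¬ Bornology.IsBounded (connectedComponentIn (M a b J)ᶜ 0) ∧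
      ∀ α : ℝ, Esc a b J none 0 (ev α) → Leaves a b I 0 (ev α) R := by
  have hab : ∀ i ∈ I, a i ≠ b i := by
    intro i hi h
    obtain ⟨k, r, hr, hk⟩ := hinc i hi
    rw [h, sub_self] at hk
    exact smul_ne_zero hr (ev_ne_zero _) hk.symm
  set J : Finset ℕ := (hlf ((R : ℝ) + 1)).toFinset with hJ
  have hJmem : ∀ i, i ∈ J ↔ i ∈ I ∧
      (segment ℝ (a i) (b i) ∩ Metric.ball 0 ((R : ℝ) + 1)).Nonempty := fun i => by
    rw [hJ, Set.Finite.mem_toFinset]; rfl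
  have hJI : (J : Set ℕ) ⊆ I := fun i hi => ((hJmem i).1 hi).1
  have hMsub : M a b J ⊆ M a b I := by
    intro y hy
    obtain ⟨i, hi, h⟩ := mem_M.1 hy
    exact mem_M.2 ⟨i, hJI hi, h⟩
  have h0J : (0 : ℂ) ∉ M a b J := fun h => h0 (hMsub h)
  refine ⟨J, hJI, h0J, fun h => hunb (h.subset
    (connectedComponentIn_mono 0 (compl_subset_compl.2 hMsub))), fun α hα => ?_⟩
  have h2 : Leaves a b I 0 (ev α) ((R : ℝ) + 1) :=
    Esc.leaves hJI (fun i hi hne => (hJmem i).2 ⟨hi, hne⟩) (fun i hi => hab i (hJI hi)) hα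
      (ev_ne_zero α) h0J (by rw [norm_zero]; positivity)
  obtain ⟨n, x, d, hp, t, ht, hf, hR⟩ := h2
  exact ⟨n, x, d, hp, t, ht, hf, by linarith⟩

/-- The theorem for locally finite families. -/
theorem final {θ : ℕ → ℝ} (hθ : θ ∈ ThetaSet) (I : Set ℕ) (a b : ℕ → ℂ)
    (hinc : ∀ i ∈ I, ∃ (k : ℕ) (r : ℝ), r ≠ 0 ∧ b i - a i = r • ev (θ k))
    (hlf : ∀ R : ℝ, {i ∈ I | (segment ℝ (a i) (b i) ∩ Metric.ball 0 R).Nonempty}.Finite)
    (hpair : ∀ i ∈ I, ∀ j ∈ I, i ≠ j →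
      (segment ℝ (a i) (b i) ∩ segment ℝ (a j) (b j)).Subsingleton)
    (h0 : (0 : ℂ) ∉ M a b I)
    (hunb : ¬ Bornology.IsBounded (connectedComponentIn (M a b I)ᶜ 0)) :
    {α : ℝ | (¬ ∃ (n : ℕ) (x d : ℕ → ℂ), LP a b I 0 (ev α) n x d ∧ x n ∈ Sing a b I) ∧
      ∀ R : ℝ, Leaves a b I 0 (ev α) R} ∈ residual ℝ := by
  have hab : ∀ i ∈ I, a i ≠ b i := by
    intro i hi h
    obtain ⟨k, r, hr, hk⟩ := hinc i hi
    rw [h, sub_self] at hk
    exact smul_ne_zero hr (ev_ne_zero _) hk.symm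
  have h1 : ∀ R : ℕ, {α : ℝ | Leaves a b I 0 (ev α) R} ∈ residual ℝ := by
    intro R
    obtain ⟨J, hJI, h0J, hunbJ, hJ⟩ := exists_sub hinc hlf h0 hunb R
    have hd := ThetaSet_dense hθ J a b (fun i hi => hinc i (hJI hi))
      (fun i hi j hj hij => hpair i (hJI hi) j (hJI hj) hij) h0J hunbJ
    have habJ : ∀ i ∈ (J : Set ℕ), a i ≠ b i := fun i hi => hab i (hJI hi)
    have ho : IsOpen {α : ℝ | Esc a b J none 0 (ev α)} := by
      rw [isOpen_iff_mem_nhds]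
      intro α hα
      have h2 := Esc.eventually J.finite_toSet habJ hα (ev_ne_zero α)
      have hc : Continuous fun α : ℝ => ((a, b, 0, ev α) : Par ℕ) :=
        continuous_const.prodMk (continuous_const.prodMk (continuous_const.prodMk continuous_ev))
      exact hc.continuousAt.tendsto.eventually h2
    exact Filter.mem_of_superset (residual_of_dense_open ho hd) fun α hα => hJ α hα
  have h2 : (⋂ R : ℕ, {α : ℝ | Leaves a b I 0 (ev α) R}) ∈ residual ℝ :=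
    countable_iInter_mem.2 h1
  have h3 := compl_countable_residual
    (exceptional_countable (a := a) (b := b) (I := I) (Set.to_countable I) hab hpair h0)
  refine Filter.mem_of_superset (Filter.inter_mem h2 h3) ?_
  rintro α ⟨k1, k2⟩
  refine ⟨k2, fun R => ?_⟩
  obtain ⟨m, hm⟩ := exists_nat_ge R
  obtain ⟨n, x, d, hp, t, ht, hf, hR⟩ := mem_iInter.1 k1 m
  exact ⟨n, x, d, hp, t, ht, hf, hm.trans hR⟩

/-- Rational inclinations: all angles but countably many. -/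
theorem final_rational {θ : ℕ → ℝ} (hθ : ∀ k, ∃ q : ℚ, θ k = q * Real.pi) (I : Set ℕ)
    (a b : ℕ → ℂ)
    (hinc : ∀ i ∈ I, ∃ (k : ℕ) (r : ℝ), r ≠ 0 ∧ b i - a i = r • ev (θ k))
    (hlf : ∀ R : ℝ, {i ∈ I | (segment ℝ (a i) (b i) ∩ Metric.ball 0 R).Nonempty}.Finite)
    (hpair : ∀ i ∈ I, ∀ j ∈ I, i ≠ j →
      (segment ℝ (a i) (b i) ∩ segment ℝ (a j) (b j)).Subsingleton)
    (h0 : (0 : ℂ) ∉ M a b I)
    (hunb : ¬ Bornology.IsBounded (connectedComponentIn (M a b I)ᶜ 0)) :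
    {α : ℝ | ¬ ((¬ ∃ (n : ℕ) (x d : ℕ → ℂ), LP a b I 0 (ev α) n x d ∧ x n ∈ Sing a b I) ∧
      ∀ R : ℝ, Leaves a b I 0 (ev α) R)}.Countable := by
  have hab : ∀ i ∈ I, a i ≠ b i := by
    intro i hi h
    obtain ⟨k, r, hr, hk⟩ := hinc i hi
    rw [h, sub_self] at hk
    exact smul_ne_zero hr (ev_ne_zero _) hk.symm
  have h1 : ∀ R : ℕ, {α : ℝ | ¬ Leaves a b I 0 (ev α) R}.Countable := by
    intro R
    obtain ⟨J, hJI, h0J, hunbJ, hJ⟩ := exists_sub hinc hlf h0 hunb R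
    obtain ⟨N, hN, hpow⟩ := exists_pow (S := (J : Set ℕ)) J.finite_toSet
      (w := fun i => (b i - a i) / conj (b i - a i)) (by
        intro i hi
        obtain ⟨k, r, hr, hk⟩ := hinc i (hJI hi)
        obtain ⟨q, hq⟩ := hθ k
        refine ⟨q.den, q.den_pos, ?_⟩
        rw [hk, quot_real_smul hr, ev_quot, hq]
        exact ev_rat q)
    refine (rational_escape J.finite_toSet (fun i hi => hab i (hJI hi))
      (fun i hi j hj hij => hpair i (hJI hi) j (hJI hj) hij) hN hpow h0J hunbJ).mono ?_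
    intro α hα hE
    exact hα (hJ α hE)
  refine ((exceptional_countable (a := a) (b := b) (I := I) (Set.to_countable I) hab hpair
    h0).union (countable_iUnion h1)).mono ?_
  intro α hα
  by_contra hcon
  rw [mem_union, not_or] at hcon
  refine hα ⟨hcon.1, fun R => ?_⟩
  obtain ⟨m, hm⟩ := exists_nat_ge R
  have h2 : Leaves a b I 0 (ev α) m := by
    by_contra h3
    exact hcon.2 (mem_iUnion.2 ⟨m, h3⟩)
  obtain ⟨n, x, d, hp, t, ht, hf, hR⟩ := h2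
  exact ⟨n, x, d, hp, t, ht, hf, hm.trans hR⟩

/-- a non exceptional path is unique -/
theorem LP.unique {u : ℂ} {n : ℕ} {x d x' d' : ℕ → ℂ}
    (hne : ¬ ∃ (n : ℕ) (x d : ℕ → ℂ), LP a b I 0 u n x d ∧ x n ∈ Sing a b I)
    (h : LP a b I 0 u n x d) (h' : LP a b I 0 u n x' d') :
    ∀ k ≤ n, x k = x' k ∧ d k = d' k := by
  intro k
  induction k with
  | zero => exact fun _ => ⟨by rw [h.1, h'.1], by rw [h.2.1, h'.2.1]⟩
  | succ k ih =>
    intro hk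
    obtain ⟨e1, e2⟩ := ih (by omega)
    obtain ⟨⟨t, ht, hx, hm, hf⟩, i, hi, hxi, hd⟩ := h.2.2 k (by omega)
    obtain ⟨⟨t', ht', hx', hm', hf'⟩, i', hi', hxi', hd'⟩ := h'.2.2 k (by omega)
    have htt : t = t' := by
      rcases lt_trichotomy t t' with hlt | heq | hlt
      · exfalso
        refine hf' t ht hlt ?_
        rw [← e1, ← e2, ← hx]; exact hm
      · exact heq
      · exfalso
        refine hf t' ht' hlt ?_
        rw [e1, e2, ← hx']; exact hm'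
    have hxx : x (k + 1) = x' (k + 1) := by rw [hx, hx', e1, e2, htt]
    refine ⟨hxx, ?_⟩
    have hii : i = i' := by
      by_contra hcon
      refine hne ⟨k + 1, x, d, ⟨h.1, h.2.1, fun l hl => h.2.2 l (by omega)⟩, Or.inr
        ⟨i, hi, i', hi', hcon, hxi, ?_⟩⟩
      rw [hxx]; exact hxi'
    rw [hd, hd', e2, hii]

/-- a non exceptional path which leaves every ball is not an infinite bounded path -/
theorem not_trapped {u : ℂ}
    (hne : ¬ ∃ (n : ℕ) (x d : ℕ → ℂ), LP a b I 0 u n x d ∧ x n ∈ Sing a b I)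
    (hL : ∀ R : ℝ, Leaves a b I 0 u R) :
    ¬ ∃ x d : ℕ → ℂ, (∀ n, LP a b I 0 u n x d) ∧ Bornology.IsBounded (Set.range x) := by
  rintro ⟨x, d, hp, hb⟩
  obtain ⟨C, hC⟩ := hb.exists_norm_le
  obtain ⟨n, x', d', hp', t, ht, hf, hR⟩ := hL (C + 1)
  obtain ⟨e1, e2⟩ := hp'.unique hne (hp n) n le_rfl
  obtain ⟨⟨t', ht', hx, hm, -⟩, -⟩ := (hp (n + 1)).2.2 n (by omega)
  rw [e1, e2] at hf hR
  have htt : t ≤ t' := by
    by_contra hcon
    refine hf t' ht' (not_le.1 hcon) ?_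
    rw [← hx]; exact hm
  have h1 : x n + t • d n ∈ segment ℝ (x n) (x (n + 1)) := by
    rw [segment_eq_image']
    refine ⟨t / t', ⟨by positivity, (div_le_one ht').2 htt⟩, ?_⟩
    simp only
    rw [hx, add_sub_cancel_left, smul_smul, div_mul_cancel₀ _ ht'.ne']
  have h2 := norm_le_of_segment (hC _ ⟨n, rfl⟩) (hC _ ⟨n + 1, rfl⟩) h1
  linarith

end Mirr
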