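import Pool.Agent.Lib.MP_669c56_pr.Pairs

/-! # The bad inclinations are nowhere dense -/

set_option autoImplicit false

open Set Filter Topology ComplexConjugate

namespace Mirr

/-- centres, half lengths, chain of points -/
abbrev ZZ := (ℕ → ℂ) × (ℕ → ℝ) × (ℕ → ℂ)

/-- the bounds -/
def KZ (m m' : ℕ) : Set ZZ :=
  {z | (∀ i, ‖z.1 i‖ ≤ m) ∧ (∀ i, 1 / ((m : ℝ) + 1) ≤ |z.2.1 i| ∧ |z.2.1 i| ≤ (m : ℝ) + 1) ∧
    ∀ k, ‖z.2.2 k‖ ≤ m'}

theorem isCompact_KZ (m m' : ℕ) : IsCompact (KZ m m') := by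
  have h1 : IsCompact {l : ℝ | 1 / ((m : ℝ) + 1) ≤ |l| ∧ |l| ≤ (m : ℝ) + 1} := by
    have e : {l : ℝ | 1 / ((m : ℝ) + 1) ≤ |l| ∧ |l| ≤ (m : ℝ) + 1} =
        Icc (-((m : ℝ) + 1)) ((m : ℝ) + 1) ∩ {l : ℝ | 1 / ((m : ℝ) + 1) ≤ |l|} := by
      ext l
      simp only [mem_ofPred_eq, mem_inter_iff, mem_Icc, ← abs_le]
      exact and_comm
    rw [e]
    exact isCompact_Icc.inter_right (isClosed_le continuous_const continuous_abs)
  have h2 : KZ m m' = (Set.univ.pi fun _ => Metric.closedBall (0 : ℂ) m) ×ˢ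
      ((Set.univ.pi fun _ => {l : ℝ | 1 / ((m : ℝ) + 1) ≤ |l| ∧ |l| ≤ (m : ℝ) + 1}) ×ˢ
        (Set.univ.pi fun _ => Metric.closedBall (0 : ℂ) m')) := by
    ext z
    simp only [KZ, mem_ofPred_eq, mem_prod, mem_univ_pi, Metric.mem_closedBall, dist_zero_right]
  rw [h2]
  exact (isCompact_univ_pi fun _ => isCompact_closedBall _ _).prod
    ((isCompact_univ_pi fun _ => h1).prod (isCompact_univ_pi fun _ => isCompact_closedBall _ _))

/-- the closed conditions -/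
def FZ (J : Finset ℕ) (κ : ℕ → ℕ) (m N : ℕ) (δ : ℚ) (n : ℕ) : Set (ZZ × (ℕ → ℝ)) :=
  {w | w.1.2.2 0 = 0 ∧ (∀ k < N, ‖w.1.2.2 (k + 1) - w.1.2.2 k‖ ≤ (δ : ℝ) / 2) ∧
    (∀ k ≤ N, ∀ i ∈ J, ∀ s ∈ Icc (0 : ℝ) 1, (δ : ℝ) ≤ ‖w.1.2.2 k - (eA κ w.2 w.1.1 w.1.2.1 i +
      s • (eB κ w.2 w.1.1 w.1.2.1 i - eA κ w.2 w.1.1 w.1.2.1 i))‖) ∧
    2 * ((m : ℝ) + 1) + 1 ≤ ‖w.1.2.2 N‖ ∧
    ∀ i ∈ J, ∀ j ∈ J, i ≠ j → κ i = κ j →
      PC (1 / ((n : ℝ) + 1)) (ev (w.2 (κ i))) (w.1.1 j - w.1.1 i) (w.1.2.1 i) (w.1.2.1 j)}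

@[fun_prop]
theorem continuous_eA (κ : ℕ → ℕ) : Continuous fun w : ZZ × (ℕ → ℝ) =>
    eA κ w.2 w.1.1 w.1.2.1 := by
  have := continuous_ev
  unfold eA
  fun_prop

@[fun_prop]
theorem continuous_eB (κ : ℕ → ℕ) : Continuous fun w : ZZ × (ℕ → ℝ) =>
    eB κ w.2 w.1.1 w.1.2.1 := by
  have := continuous_ev
  unfold eB
  fun_prop

theorem isClosed_FZ (J : Finset ℕ) (κ : ℕ → ℕ) (m N : ℕ) (δ : ℚ) (n : ℕ) :
    IsClosed (FZ J κ m N δ n) := by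
  have cA : ∀ i, Continuous fun w : ZZ × (ℕ → ℝ) => eA κ w.2 w.1.1 w.1.2.1 i := fun i =>
    (continuous_apply i).comp (continuous_eA κ)
  have cB : ∀ i, Continuous fun w : ZZ × (ℕ → ℝ) => eB κ w.2 w.1.1 w.1.2.1 i := fun i =>
    (continuous_apply i).comp (continuous_eB κ)
  have ce := continuous_ev
  have e : FZ J κ m N δ n = {w : ZZ × (ℕ → ℝ) | w.1.2.2 0 = 0} ∩
      (⋂ k ∈ {k : ℕ | k < N}, {w : ZZ × (ℕ → ℝ) | ‖w.1.2.2 (k + 1) - w.1.2.2 k‖ ≤ (δ : ℝ) / 2}) ∩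
      (⋂ k ∈ {k : ℕ | k ≤ N}, ⋂ i ∈ J, ⋂ s ∈ Icc (0 : ℝ) 1, {w : ZZ × (ℕ → ℝ) |
        (δ : ℝ) ≤ ‖w.1.2.2 k - (eA κ w.2 w.1.1 w.1.2.1 i +
          s • (eB κ w.2 w.1.1 w.1.2.1 i - eA κ w.2 w.1.1 w.1.2.1 i))‖}) ∩
      {w : ZZ × (ℕ → ℝ) | 2 * ((m : ℝ) + 1) + 1 ≤ ‖w.1.2.2 N‖} ∩
      (⋂ i ∈ J, ⋂ j ∈ J, ⋂ (_ : i ≠ j), ⋂ (_ : κ i = κ j), {w : ZZ × (ℕ → ℝ) |
        PC (1 / ((n : ℝ) + 1)) (ev (w.2 (κ i))) (w.1.1 j - w.1.1 i) (w.1.2.1 i) (w.1.2.1 j)}) := by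
    ext w
    simp only [FZ, mem_ofPred_eq, mem_inter_iff, mem_iInter]
    tauto
  rw [e]
  refine ((((isClosed_eq (by fun_prop) continuous_const).inter ?_).inter ?_).inter ?_).inter ?_
  · exact isClosed_biInter fun k _ => isClosed_le (by fun_prop) continuous_const
  · refine isClosed_biInter fun k _ => isClosed_biInter fun i _ => isClosed_biInter fun s _ => ?_
    refine isClosed_le continuous_const (Continuous.norm ?_)
    have h1 : Continuous fun w : ZZ × (ℕ → ℝ) => w.1.2.2 k := by fun_prop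
    exact h1.sub ((cA i).add (((cB i).sub (cA i)).const_smul s))
  · exact isClosed_le continuous_const (by fun_prop)
  · refine isClosed_biInter fun i _ => isClosed_biInter fun j _ => isClosed_iInter fun _ =>
      isClosed_iInter fun _ => ?_
    have h1 : Continuous fun w : ZZ × (ℕ → ℝ) => ev (w.2 (κ i)) := by fun_prop
    have h2 : Continuous fun w : ZZ × (ℕ → ℝ) => w.1.1 j - w.1.1 i := by fun_prop
    have h3 : Continuous fun w : ZZ × (ℕ → ℝ) => w.1.2.1 i := by fun_prop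
    have h4 : Continuous fun w : ZZ × (ℕ → ℝ) => w.1.2.1 j := by fun_prop
    have h5 : Continuous fun w : ZZ × (ℕ → ℝ) => (conj (ev (w.2 (κ i))) *
        (w.1.1 j - w.1.1 i)).re :=
      Complex.continuous_re.comp ((Complex.continuous_conj.comp h1).mul h2)
    exact (isClosed_le continuous_const (Continuous.cr h1 h2).abs).union
      (isClosed_le (h3.abs.add h4.abs) h5.abs)

/-- the bad configurations -/
def BZ (J : Finset ℕ) (κ : ℕ → ℕ) (p q : ℚ) (m m' N : ℕ) (δ : ℚ) (n : ℕ) :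
    Set (ZZ × (ℕ → ℝ)) :=
  {w | w.1 ∈ KZ m m' ∧ w ∈ FZ J κ m N δ n ∧ ∀ α ∈ Ioo (p : ℝ) q,
    ¬ Esc (eA κ w.2 w.1.1 w.1.2.1) (eB κ w.2 w.1.1 w.1.2.1) J none 0 (ev α)}

theorem isClosed_BZ (J : Finset ℕ) (κ : ℕ → ℕ) (p q : ℚ) (m m' N : ℕ) (δ : ℚ) (n : ℕ) :
    IsClosed (BZ J κ p q m m' N δ n) := by
  have h1 : IsClosed {w : ZZ × (ℕ → ℝ) | w.1 ∈ KZ m m'} :=
    (isCompact_KZ m m').isClosed.preimage continuous_fst
  have h2 : ∀ α : ℝ, IsClosed {w : ZZ × (ℕ → ℝ) | w.1 ∈ KZ m m' ∧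
      ¬ Esc (eA κ w.2 w.1.1 w.1.2.1) (eB κ w.2 w.1.1 w.1.2.1) J none 0 (ev α)} := by
    intro α
    rw [← isOpen_compl_iff, isOpen_iff_mem_nhds]
    intro w hw
    by_cases hwK : w.1 ∈ KZ m m'
    · have hE : Esc (eA κ w.2 w.1.1 w.1.2.1) (eB κ w.2 w.1.1 w.1.2.1) J none 0 (ev α) := by
        by_contra hcon
        exact hw ⟨hwK, hcon⟩
      have hl : ∀ i ∈ (J : Set ℕ), eA κ w.2 w.1.1 w.1.2.1 i ≠ eB κ w.2 w.1.1 w.1.2.1 i := by
        intro i _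
        refine eA_ne_eB fun h => ?_
        have h3 := (hwK.2.1 i).1
        rw [h, abs_zero] at h3
        have : 0 < 1 / ((m : ℝ) + 1) := by positivity
        linarith
      have h3 := hE.eventually J.finite_toSet hl (ev_ne_zero α)
      have hc : Continuous fun w : ZZ × (ℕ → ℝ) => ((eA κ w.2 w.1.1 w.1.2.1,
          eB κ w.2 w.1.1 w.1.2.1, 0, ev α) : Par ℕ) :=
        (continuous_eA κ).prodMk ((continuous_eB κ).prodMk continuous_const)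
      have h4 := hc.continuousAt.tendsto.eventually h3
      filter_upwards [h4] with w' hw' hcon
      exact hcon.2 hw'
    · have : {w : ZZ × (ℕ → ℝ) | w.1 ∈ KZ m m'}ᶜ ∈ 𝓝 w := h1.isOpen_compl.mem_nhds hwK
      filter_upwards [this] with w' hw' hcon
      exact hw' hcon.1
  have e : BZ J κ p q m m' N δ n = {w : ZZ × (ℕ → ℝ) | w.1 ∈ KZ m m'} ∩ FZ J κ m N δ n ∩
      ⋂ α ∈ Ioo (p : ℝ) q, {w : ZZ × (ℕ → ℝ) | w.1 ∈ KZ m m' ∧
        ¬ Esc (eA κ w.2 w.1.1 w.1.2.1) (eB κ w.2 w.1.1 w.1.2.1) J none 0 (ev α)} := by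
    ext w
    simp only [BZ, mem_ofPred_eq, mem_inter_iff, mem_iInter]
    constructor
    · rintro ⟨k1, k2, k3⟩
      exact ⟨⟨k1, k2⟩, fun α hα => ⟨k1, k3 α hα⟩⟩
    · rintro ⟨⟨k1, k2⟩, k3⟩
      exact ⟨k1, k2, fun α hα => (k3 α hα).2⟩
  rw [e]
  exact (h1.inter (isClosed_FZ J κ m N δ n)).inter (isClosed_biInter fun α _ => h2 α)

theorem isClosed_snd_image {Z X : Type*} [TopologicalSpace Z] [TopologicalSpace X] {K : Set Z}
    (hK : IsCompact K) {F : Set (Z × X)} (hF : IsClosed F) (hsub : ∀ p ∈ F, p.1 ∈ K) :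
    IsClosed (Prod.snd '' F) := by
  have := isCompact_iff_compactSpace.1 hK
  have h1 : IsClosed {p : K × X | ((p.1 : Z), p.2) ∈ F} := hF.preimage (by fun_prop)
  have h2 := isClosedMap_snd_of_compactSpace _ h1
  have h3 : Prod.snd '' F = Prod.snd '' {p : K × X | ((p.1 : Z), p.2) ∈ F} := by
    ext x
    constructor
    · rintro ⟨⟨z, x'⟩, hp, rfl⟩
      exact ⟨⟨⟨z, hsub _ hp⟩, x'⟩, hp, rfl⟩
    · rintro ⟨⟨z, x'⟩, hp, rfl⟩
      exact ⟨⟨z, x'⟩, hp, rfl⟩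
  rw [h3]
  exact h2

/-- the bad inclinations -/
def Bad (J : Finset ℕ) (κ : ℕ → ℕ) (p q : ℚ) (m m' N : ℕ) (δ : ℚ) (n : ℕ) : Set (ℕ → ℝ) :=
  Prod.snd '' BZ J κ p q m m' N δ n

theorem isClosed_Bad (J : Finset ℕ) (κ : ℕ → ℕ) (p q : ℚ) (m m' N : ℕ) (δ : ℚ) (n : ℕ) :
    IsClosed (Bad J κ p q m m' N δ n) :=
  isClosed_snd_image (isCompact_KZ m m') (isClosed_BZ J κ p q m m' N δ n) fun _ h => h.1

/-- the rational sequences with pairwise different inclinations -/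
def RD : Set (ℕ → ℝ) :=
  {θ | (∀ k, ∃ r : ℚ, θ k = r * Real.pi) ∧ ∀ k l, k ≠ l → cr (ev (θ k)) (ev (θ l)) ≠ 0}

theorem Bad_disjoint {J : Finset ℕ} {κ : ℕ → ℕ} {p q : ℚ} (hpq : p < q) {m m' N : ℕ} {δ : ℚ}
    (hδ : 0 < δ) {n : ℕ} {θ : ℕ → ℝ} (hθ : θ ∈ RD) : θ ∉ Bad J κ p q m m' N δ n := by
  rintro ⟨⟨⟨c, l, x⟩, θ'⟩, ⟨hK, hF, hE⟩, rfl⟩
  simp only at hθ hE
  obtain ⟨hK1, hK2, hK3⟩ := hK
  obtain ⟨hF1, hF2, hF3, hF4, hF5⟩ := hF
  simp only at hK1 hK2 hK3 hF1 hF2 hF3 hF4 hF5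
  have hδ' : (0 : ℝ) < δ := by exact_mod_cast hδ
  have hl : ∀ i, l i ≠ 0 := by
    intro i h
    have h3 := (hK2 i).1
    rw [h, abs_zero] at h3
    have : 0 < 1 / ((m : ℝ) + 1) := by positivity
    linarith
  have hab : ∀ i ∈ (J : Set ℕ), eA κ θ' c l i ≠ eB κ θ' c l i := fun i _ => eA_ne_eB (hl i)
  have hpair : ∀ i ∈ (J : Set ℕ), ∀ j ∈ (J : Set ℕ), i ≠ j →
      (segment ℝ (eA κ θ' c l i) (eB κ θ' c l i) ∩
        segment ℝ (eA κ θ' c l j) (eB κ θ' c l j)).Subsingleton := by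
    intro i hi j hj hij
    unfold eA eB
    by_cases hκ : κ i = κ j
    · have h1 := hF5 i hi j hj hij hκ
      rw [← hκ]
      exact subsingleton_of_pc (by positivity) (norm_ev _) (hl i) h1
    · exact subsingleton_of_cr (hθ.2 _ _ hκ)
  obtain ⟨N', hN', hpow⟩ := exists_pow (S := (J : Set ℕ)) J.finite_toSet
    (w := fun i => (eB κ θ' c l i - eA κ θ' c l i) / conj (eB κ θ' c l i - eA κ θ' c l i)) (by
      intro i _
      obtain ⟨r, hr⟩ := hθ.1 (κ i)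
      refine ⟨r.den, r.den_pos, ?_⟩
      rw [eB_sub_eA, quot_real_smul (mul_ne_zero two_ne_zero (hl i)), ev_quot, hr]
      exact ev_rat r)
  have hMbd : ∀ y ∈ M (eA κ θ' c l) (eB κ θ' c l) J, ‖y‖ < 2 * ((m : ℝ) + 1) + 1 := by
    intro y hy
    obtain ⟨i, hi, hyi⟩ := mem_M.1 hy
    have h1 : ‖l i • ev (θ' (κ i))‖ ≤ (m : ℝ) + 1 := by
      rw [norm_smul, norm_ev, mul_one, Real.norm_eq_abs]
      exact (hK2 i).2
    have h2 : ‖y‖ ≤ (m : ℝ) + ((m : ℝ) + 1) := by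
      refine norm_le_of_segment ?_ ?_ hyi
      · exact (norm_sub_le _ _).trans (add_le_add (hK1 i) h1)
      · exact (norm_add_le _ _).trans (add_le_add (hK1 i) h1)
    linarith
  obtain ⟨h0, hunb⟩ := comp_unbounded (a := eA κ θ' c l) (b := eB κ θ' c l) (S := (J : Set ℕ))
    (x := x) (N := N) (δ := δ) (R := 2 * ((m : ℝ) + 1) + 1) hδ' (by positivity) hF1 hF2 (by
      intro k hk y hy
      obtain ⟨i, hi, hyi⟩ := mem_M.1 hy
      rw [segment_eq_image'] at hyi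
      obtain ⟨s, hs, rfl⟩ := hyi
      exact hF3 k hk i hi s hs) hMbd hF4
  have hcount := rational_escape J.finite_toSet hab hpair hN' hpow h0 hunb
  have hdense := hcount.dense_compl ℝ
  obtain ⟨α, hα, hα'⟩ := hdense.inter_open_nonempty (Ioo (p : ℝ) q) isOpen_Ioo
    (nonempty_Ioo.2 (by exact_mod_cast hpq))
  exact hα' (hE α hα)

/-- the odd numerator approximation -/
theorem exists_odd_approx (y : ℝ) (M : ℕ) : ∃ a : ℤ, |y - (2 * a + 1) / 2 ^ M| ≤ 2 / 2 ^ M := by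
  have hM : (0 : ℝ) < 2 ^ M := by positivity
  refine ⟨⌊(y * 2 ^ M - 1) / 2⌋, ?_⟩
  have h1 := Int.floor_le ((y * 2 ^ M - 1) / 2)
  have h2 := Int.lt_floor_add_one ((y * 2 ^ M - 1) / 2)
  set a : ℝ := (⌊(y * 2 ^ M - 1) / 2⌋ : ℝ) with ha
  have h3 : y - (2 * a + 1) / 2 ^ M = (y * 2 ^ M - (2 * a + 1)) / 2 ^ M := by field_simp
  rw [h3, abs_div, abs_of_pos hM]
  refine div_le_div_of_nonneg_right ?_ hM.le
  rw [abs_le]
  constructor <;> linarith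

theorem odd_ne {k l n : ℕ} (hkl : k < l) (a b : ℤ) (z : ℤ) :
    (2 * (a : ℝ) + 1) / 2 ^ (n + k + 1) - (2 * (b : ℝ) + 1) / 2 ^ (n + l + 1) ≠ z := by
  intro h
  obtain ⟨d, rfl⟩ := Nat.exists_eq_add_of_lt hkl
  have h1 : (2 : ℝ) ^ (n + (k + d + 1) + 1) = 2 ^ (n + k + 1) * 2 ^ (d + 1) := by
    rw [← pow_add]; congr 1; ring
  rw [h1] at h
  have hp : (2 : ℝ) ^ (n + k + 1) ≠ 0 := by positivity
  have hp' : (2 : ℝ) ^ (d + 1) ≠ 0 := by positivity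
  field_simp at h
  have h2 : ((2 : ℤ) ^ (d + 1) * (2 * a + 1) - (2 * b + 1) : ℤ) =
      2 ^ (n + k + 1) * 2 ^ (d + 1) * z := by
    have : ((((2 : ℤ) ^ (d + 1) * (2 * a + 1) - (2 * b + 1) : ℤ)) : ℝ) =
        ((2 ^ (n + k + 1) * 2 ^ (d + 1) * z : ℤ) : ℝ) := by
      push_cast
      linarith
    exact_mod_cast this
  have h3 : (2 : ℤ) ∣ 2 * b + 1 := by
    have e1 : (2 : ℤ) ∣ 2 ^ (d + 1) := dvd_pow_self 2 (by omega)
    have e2 : 2 * b + 1 = 2 ^ (d + 1) * (2 * a + 1) - 2 ^ (n + k + 1) * 2 ^ (d + 1) * z := by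
      linarith
    rw [e2]
    exact dvd_sub (e1.mul_right _) ((e1.mul_left _).mul_right _)
  omega

theorem cr_ev (s t : ℝ) : cr (ev s) (ev t) = Real.sin (t - s) := by
  rw [cr_eq_im, ev_conj, ev_mul]
  unfold ev
  rw [Complex.exp_ofReal_mul_I_im]
  congr 1
  ring

theorem dense_RD : Dense RD := by
  intro θ
  have h1 : ∀ (n k : ℕ), ∃ a : ℤ, |θ k / Real.pi - (2 * a + 1) / 2 ^ (n + k + 1)| ≤
      2 / 2 ^ (n + k + 1) := fun n k => exists_odd_approx _ _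
  choose a ha using h1
  have hpi := Real.pi_pos
  refine mem_closure_of_tendsto (f := fun n : ℕ => fun k : ℕ =>
    ((2 * (a n k : ℝ) + 1) / 2 ^ (n + k + 1)) * Real.pi) (b := atTop) ?_ ?_
  · rw [tendsto_pi_nhds]
    intro k
    have h2 : Tendsto (fun n : ℕ => (2 * (a n k : ℝ) + 1) / 2 ^ (n + k + 1)) atTop
        (𝓝 (θ k / Real.pi)) := by
      rw [tendsto_iff_norm_sub_tendsto_zero]
      refine squeeze_zero (fun _ => norm_nonneg _) (g := fun n : ℕ => (1 / 2 : ℝ) ^ n) (fun n => ?_)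
        (tendsto_pow_atTop_nhds_zero_of_lt_one (by norm_num) (by norm_num))
      rw [norm_sub_rev, Real.norm_eq_abs]
      refine (ha n k).trans ?_
      rw [div_pow, one_pow, div_le_div_iff₀ (by positivity) (by positivity)]
      have h3 : (2 : ℝ) ^ (n + k + 1) = 2 ^ n * 2 ^ k * 2 := by rw [pow_add, pow_add, pow_one]
      have h4 : (1 : ℝ) ≤ 2 ^ k := one_le_pow₀ (by norm_num)
      have h5 : (0 : ℝ) < 2 ^ n := by positivity
      rw [h3]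
      nlinarith
    have h3 := h2.mul_const Real.pi
    rw [div_mul_cancel₀ _ hpi.ne'] at h3
    exact h3
  · refine Filter.Eventually.of_forall fun n => ⟨fun k => ?_, fun k l hkl => ?_⟩
    · refine ⟨(2 * (a n k : ℚ) + 1) / 2 ^ (n + k + 1), ?_⟩
      push_cast
      ring
    · rw [cr_ev]
      intro h
      rw [Real.sin_eq_zero_iff] at h
      obtain ⟨z, hz⟩ := h
      have h3 : (2 * (a n l : ℝ) + 1) / 2 ^ (n + l + 1) -
          (2 * (a n k : ℝ) + 1) / 2 ^ (n + k + 1) = z := by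
        have h4 : ((2 * (a n l : ℝ) + 1) / 2 ^ (n + l + 1) -
          (2 * (a n k : ℝ) + 1) / 2 ^ (n + k + 1)) * Real.pi = z * Real.pi := by
          rw [hz]; ring
        exact mul_right_cancel₀ hpi.ne' h4
      rcases lt_or_gt_of_ne hkl with h5 | h5
      · refine odd_ne (n := n) h5 (a n k) (a n l) (-z) ?_
        push_cast
        linarith
      · exact odd_ne (n := n) h5 (a n l) (a n k) z h3

end Mirr
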