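import Pool.Agent.Lib.MP_669c56_pr.Generic

/-! # The residual set of inclinations, finite families -/

set_option autoImplicit false

open Set Filter Topology ComplexConjugate

namespace Mirr

/-- the parameters of the bad sets -/
abbrev PT := {t : Finset ℕ × (ℕ →₀ ℕ) × (ℚ × ℚ) × (ℕ × ℕ × ℕ) × ℚ × ℕ //
  t.2.2.1.1 < t.2.2.1.2 ∧ 0 < t.2.2.2.2.1}

/-- the bad set of a parameter -/
def BadT (t : PT) : Set (ℕ → ℝ) :=
  Bad t.1.1 t.1.2.1 t.1.2.2.1.1 t.1.2.2.1.2 t.1.2.2.2.1.1 t.1.2.2.2.1.2.1 t.1.2.2.2.1.2.2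
    t.1.2.2.2.2.1 t.1.2.2.2.2.2

/-- the good inclinations -/
def ThetaSet : Set (ℕ → ℝ) :=
  (⋂ t : PT, (BadT t)ᶜ) ∪ {θ | ∀ k, ∃ r : ℚ, θ k = r * Real.pi}

theorem ThetaSet_residual : ThetaSet ∈ residual (ℕ → ℝ) := by
  refine Filter.mem_of_superset ?_ subset_union_left
  rw [countable_iInter_mem]
  intro t
  refine residual_of_dense_open (isClosed_Bad _ _ _ _ _ _ _ _ _).isOpen_compl ?_
  refine dense_RD.mono fun θ hθ => ?_
  exact Bad_disjoint t.2.1 t.2.2 hθ

theorem ThetaSet_dense {θ : ℕ → ℝ} (hθ : θ ∈ ThetaSet) (J : Finset ℕ) (a b : ℕ → ℂ)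
    (hinc : ∀ i ∈ J, ∃ (k : ℕ) (r : ℝ), r ≠ 0 ∧ b i - a i = r • ev (θ k))
    (hpair : ∀ i ∈ J, ∀ j ∈ J, i ≠ j →
      (segment ℝ (a i) (b i) ∩ segment ℝ (a j) (b j)).Subsingleton)
    (h0 : (0 : ℂ) ∉ M a b J)
    (hunb : ¬ Bornology.IsBounded (connectedComponentIn (M a b J)ᶜ 0)) :
    Dense {α : ℝ | Esc a b J none 0 (ev α)} := by
  classical
  choose! k r hr hk using hinc
  have hab : ∀ i ∈ (J : Set ℕ), a i ≠ b i := by
    intro i hi h
    have h1 := hk i hi
    rw [h, sub_self] at h1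
    exact smul_ne_zero (hr i hi) (ev_ne_zero _) h1.symm
  rcases hθ with hθ | hθ
  swap
  · -- rational inclinations
    obtain ⟨N, hN, hpow⟩ := exists_pow (S := (J : Set ℕ)) J.finite_toSet
      (w := fun i => (b i - a i) / conj (b i - a i)) (by
        intro i hi
        obtain ⟨q, hq⟩ := hθ (k i)
        refine ⟨q.den, q.den_pos, ?_⟩
        rw [hk i hi, quot_real_smul (hr i hi), ev_quot, hq]
        exact ev_rat q)
    have hc := rational_escape J.finite_toSet hab hpair hN hpow h0 hunb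
    refine (hc.dense_compl ℝ).mono fun α hα => ?_
    by_contra hcon
    exact hα hcon
  -- generic inclinations
  set κ : ℕ →₀ ℕ := Finsupp.indicator J fun i _ => k i with hκ
  have hκi : ∀ i ∈ J, κ i = k i := fun i hi => Finsupp.indicator_of_mem hi _
  set c : ℕ → ℂ := fun i => if i ∈ J then (a i + b i) / 2 else 0 with hc
  set l : ℕ → ℝ := fun i => if i ∈ J then r i / 2 else 1 with hl
  have hl0 : ∀ i, l i ≠ 0 := by
    intro i
    by_cases hi : i ∈ J
    · simp only [hl, if_pos hi]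
      have := hr i hi
      positivity
    · simp only [hl, if_neg hi]
      exact one_ne_zero
  have hlev : ∀ i ∈ J, l i • ev (θ (κ i)) = (b i - a i) / 2 := by
    intro i hi
    rw [hκi i hi, hk i hi]
    simp only [hl, if_pos hi, Complex.real_smul, Complex.ofReal_div, Complex.ofReal_ofNat]
    ring
  have hA : ∀ i ∈ (J : Set ℕ), eA κ θ c l i = a i ∧ eB κ θ c l i = b i := by
    intro i hi
    simp only [eA, eB, hlev i hi, hc, if_pos (show i ∈ J from hi)]
    constructor <;> ring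
  have hMe : M (eA κ θ c l) (eB κ θ c l) J = M a b J := M_congr hA
  have hpairs : ∀ᶠ n : ℕ in atTop, ∀ i ∈ (J : Set ℕ), ∀ j ∈ (J : Set ℕ), i ≠ j → κ i = κ j →
      PC (1 / ((n : ℝ) + 1)) (ev (θ (κ i))) (c j - c i) (l i) (l j) := by
    rw [Filter.eventually_all_finite J.finite_toSet]
    intro i hi
    rw [Filter.eventually_all_finite J.finite_toSet]
    intro j hj
    by_cases hcon : i ≠ j ∧ κ i = κ j
    · have h1 := hpair i hi j hj hcon.1
      rw [← (hA i hi).1, ← (hA i hi).2, ← (hA j hj).1, ← (hA j hj).2] at h1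
      unfold eA eB at h1
      rw [← hcon.2] at h1
      filter_upwards [pc_of_subsingleton (norm_ev _) (hl0 i) (hl0 j) h1] with n hn _ _
      exact hn
    · exact Filter.Eventually.of_forall fun n h1 h2 => absurd ⟨h1, h2⟩ hcon
  obtain ⟨n, hn⟩ := hpairs.exists
  have hbounds : ∀ᶠ m : ℕ in atTop, ∀ i ∈ (J : Set ℕ), ‖c i‖ ≤ m ∧ 1 / ((m : ℝ) + 1) ≤ |l i| ∧
      |l i| ≤ (m : ℝ) + 1 := by
    rw [Filter.eventually_all_finite J.finite_toSet]
    intro i _
    have h1 : ∀ᶠ m : ℕ in atTop, ‖c i‖ ≤ (m : ℝ) := by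
      obtain ⟨m₀, hm₀⟩ := exists_nat_ge ‖c i‖
      filter_upwards [eventually_ge_atTop m₀] with m hm
      exact hm₀.trans (by exact_mod_cast hm)
    have h2 : ∀ᶠ m : ℕ in atTop, |l i| ≤ (m : ℝ) + 1 := by
      obtain ⟨m₀, hm₀⟩ := exists_nat_ge |l i|
      filter_upwards [eventually_ge_atTop m₀] with m hm
      have : (m₀ : ℝ) ≤ m := by exact_mod_cast hm
      linarith
    have h3 := (tendsto_one_div_add_atTop_nhds_zero_nat (𝕜 := ℝ)).eventually_lt_const
      (abs_pos.2 (hl0 i))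
    filter_upwards [h1, h2, h3] with m k1 k2 k3
    exact ⟨k1, k3.le, k2⟩
  obtain ⟨m, hm⟩ := hbounds.exists
  obtain ⟨N, m', x, δ, hδ, hx0, hstep, hdist, hxN, hxb⟩ := exists_chain
    (isCompact_M (a := a) (b := b) J.finite_toSet).isClosed h0 hunb (2 * ((m : ℝ) + 1) + 1)
  rw [dense_iff_inter_open]
  rintro V hV ⟨y, hy⟩
  obtain ⟨ε, hε, hball⟩ := Metric.isOpen_iff.1 hV y hy
  obtain ⟨p, hp1, hp2⟩ := exists_rat_btwn (show y - ε < y by linarith)
  obtain ⟨q, hq1, hq2⟩ := exists_rat_btwn (show y < y + ε by linarith)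
  have hpq : p < q := by exact_mod_cast hp2.trans hq1
  by_contra hcon
  rw [Set.not_nonempty_iff_eq_empty] at hcon
  have hnE : ∀ α ∈ Ioo (p : ℝ) q, ¬ Esc a b J none 0 (ev α) := by
    intro α hα hE
    have h1 : α ∈ V := hball (by
      rw [Metric.mem_ball, Real.dist_eq, abs_lt]
      constructor <;> linarith [hα.1, hα.2])
    have : α ∈ V ∩ {α : ℝ | Esc a b J none 0 (ev α)} := ⟨h1, hE⟩
    rw [hcon] at this
    exact this
  have hbad : θ ∈ BadT ⟨(J, κ, (p, q), (m, m', N), δ, n), hpq, hδ⟩ := by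
    refine ⟨((c, l, x), θ), ⟨⟨?_, ?_, hxb⟩, ⟨hx0, hstep, ?_, hxN, ?_⟩, ?_⟩, rfl⟩
    · intro i
      by_cases hi : i ∈ J
      · exact (hm i hi).1
      · simp only [hc, if_neg hi, norm_zero]
        positivity
    · intro i
      by_cases hi : i ∈ J
      · exact (hm i hi).2
      · simp only [hl, if_neg hi, abs_one]
        have h1 : (0 : ℝ) ≤ m := by positivity
        refine ⟨?_, by linarith⟩
        rw [div_le_one (by positivity)]
        linarith
    · intro k' hk' i hi s hs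
      refine hdist k' hk' _ ?_
      rw [← hMe]
      refine mem_M.2 ⟨i, hi, ?_⟩
      rw [segment_eq_image']
      exact ⟨s, hs, rfl⟩
    · intro i hi j hj hij hκij
      exact hn i hi j hj hij hκij
    · intro α hα hE
      exact hnE α hα (hE.congr hA)
  exact (mem_iInter.1 hθ _) hbad

end Mirr
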