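import Pool.Agent.Lib.MP_669c56_pr.StripMain

/-! # Invariant sets have no one sided gaps -/

set_option autoImplicit false

open Set Filter Topology ComplexConjugate

namespace Mirr

variable {ι : Type*} {a b : ι → ℂ} {S : Set ι} {K : ℂ → Set ℂ} {D : Set ℂ} {z₀ d₀ : ℂ}

theorem exists_iter {α : Type*} (P : α → Prop) (R : α → α → Prop)
    (h : ∀ x, P x → ∃ y, P y ∧ R x y) {x₀ : α} (h₀ : P x₀) :
    ∃ f : ℕ → α, f 0 = x₀ ∧ ∀ n, P (f n) ∧ R (f n) (f (n + 1)) := by
  choose! g hg using h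
  let F : ℕ → {x // P x} := fun n => Nat.rec ⟨x₀, h₀⟩ (fun _ y => ⟨g y.1, (hg y.1 y.2).1⟩) n
  exact ⟨fun n => (F n).1, rfl, fun n => ⟨(F n).2, (hg (F n).1 (F n).2).2⟩⟩

/-- a point of the orbit cannot be in the strip -/
theorem PP.not_in_strip {σ σ' : SS ι} (h : PP a b S K D z₀ d₀ σ) (h' : PP a b S K D z₀ d₀ σ')
    (ho : σ'.o = σ.o) (hd : σ'.d = σ.d) {s : ℝ} (hs : s ∈ Ioo 0 σ.r)
    (hx : σ'.x = σ.x + s • σ.v) : False := by
  have h1 := (h.gap s hs).2
  have h2 := h'.mem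
  rw [ho, hd, hx] at h2
  exact h1 h2

theorem PP.cr_x (hab : ∀ i ∈ S, a i ≠ b i) {σ : SS ι} (h : PP a b S K D z₀ d₀ σ) {i : ι}
    (ho : σ.o = some i) : i ∈ S ∧ cr (b i - a i) (σ.x - a i) = 0 := by
  have h1 := h.start
  rw [ho] at h1
  obtain ⟨⟨hi, hx, -⟩, -⟩ := h1
  exact ⟨hi, cr_of_mem (hab i hi) (openSegment_subset_segment ℝ _ _ hx)⟩

theorem PP.v_eq (hab : ∀ i ∈ S, a i ≠ b i) (hDt : ∀ d ∈ D, ∀ i ∈ S, cr (b i - a i) d ≠ 0)
    {σ σ' : SS ι} (h : PP a b S K D z₀ d₀ σ) (h' : PP a b S K D z₀ d₀ σ') {i : ι}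
    (ho : σ.o = some i) (ho' : σ'.o = some i) (hd : σ'.d = σ.d)
    (hc : cr σ'.d σ'.v = cr σ.d σ.v) : σ'.v = σ.v := by
  have hi := (h.cr_x hab ho).1
  have he : b i - a i ≠ 0 := sub_ne_zero.2 (hab i hi).symm
  have hde : cr σ.d (b i - a i) ≠ 0 := by
    rw [cr_comm]; exact neg_ne_zero.2 (hDt _ h.dir i hi)
  have hde' : cr σ'.d (b i - a i) ≠ 0 := by rw [hd]; exact hde
  have e1 := vec_eq he hde (h.par i ho) rfl
  have e2 := vec_eq he hde' (h'.par i ho') rfl
  rw [hc, hd] at e2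
  rw [e1, e2]

/-- The strip theorem: a point of an invariant set, with a one sided gap, cannot have a
non-singular forward orbit. -/
theorem strip [Countable ι] (hS : S.Finite) (hab : ∀ i ∈ S, a i ≠ b i) (hK : Inv a b S K)
    (hDf : D.Finite) (hSing : (Sing a b S).Finite)
    (hD1 : ∀ d ∈ D, ‖d‖ = 1) (hDt : ∀ d ∈ D, ∀ i ∈ S, cr (b i - a i) d ≠ 0)
    (hDr : ∀ d ∈ D, ∀ i ∈ S, refl (b i - a i) d ∈ D)
    (hns : ∀ (w : List ι) (p : ℂ) (T : ℝ), p ∈ Sing a b S → 0 < T → z₀ + T • d₀ ≠ U a b w p)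
    (hper : ∀ (w w' : List ι) (T : ℝ) (x e : ℂ), 0 < T → ‖e‖ = 1 → L a b w e = d₀ →
      L a b w' e = d₀ → U a b w x + T • d₀ ≠ U a b w' x)
    {σ₀ : SS ι} (h₀ : PP a b S K D z₀ d₀ σ₀) : False := by
  obtain ⟨f, -, hf⟩ := exists_iter (PP a b S K D z₀ d₀) (RR a b S)
    (fun σ h => next hS hab hK hD1 hDt hDr hns h) h₀
  have hP : ∀ n, PP a b S K D z₀ d₀ (f n) := fun n => (hf n).1
  have hR : ∀ n, RR a b S (f n) (f (n + 1)) := fun n => (hf n).2
  have hanti : Antitone fun n => (f n).r := antitone_nat_of_succ_le fun n => (hR n).r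
  have hmono : StrictMono fun n => (f n).T := strictMono_nat_of_lt_succ fun n => (hR n).T
  have hpos : ∀ n, 1 ≤ n → ∃ i ∈ S, (f n).o = some i := by
    intro n hn
    obtain ⟨m, rfl⟩ := Nat.exists_eq_add_of_le' hn
    exact (hR m).o
  -- finitely many cuts
  have hcut : {n : ℕ | 1 ≤ n ∧ (f (n + 1)).r < (f n).r}.Finite := by
    by_contra hinf
    have hinf' : {n : ℕ | 1 ≤ n ∧ (f (n + 1)).r < (f n).r}.Infinite := hinf
    have hp : ∀ n : ℕ, ∃ p : ℂ, (f (n + 1)).r < (f n).r →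
        p ∈ Sing a b S ∧ ∃ τ : ℝ, p = (f n).x + (f (n + 1)).r • (f n).v + τ • (f n).d := by
      intro n
      by_cases h : (f (n + 1)).r < (f n).r
      · obtain ⟨p, h1, h2⟩ := (hR n).cut h
        exact ⟨p, fun _ => ⟨h1, h2⟩⟩
      · exact ⟨0, fun h' => absurd h' h⟩
    choose p hp using hp
    have hfin : (Sing a b S ×ˢ ((some '' S) ×ˢ (D ×ˢ ({1, -1} : Set ℝ)))).Finite :=
      hSing.prod ((hS.image _).prod (hDf.prod (Set.toFinite _)))
    have hmaps : MapsTo (fun n => (p n, (f n).o, (f n).d, cr (f n).d (f n).v))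
        {n : ℕ | 1 ≤ n ∧ (f (n + 1)).r < (f n).r}
        (Sing a b S ×ˢ ((some '' S) ×ˢ (D ×ˢ ({1, -1} : Set ℝ)))) := by
      rintro n ⟨hn, hlt⟩
      obtain ⟨i, hi, ho⟩ := hpos n hn
      exact ⟨(hp n hlt).1, ⟨i, hi, ho.symm⟩, (hP n).dir, (hP n).nv⟩
    obtain ⟨k, hk, l, hl, hne, heq⟩ := hinf'.exists_ne_map_eq_of_mapsTo hmaps hfin
    have main : ∀ k l : ℕ, k < l → 1 ≤ k → (f (k + 1)).r < (f k).r → (f (l + 1)).r < (f l).r →
        (p k, (f k).o, (f k).d, cr (f k).d (f k).v) =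
          (p l, (f l).o, (f l).d, cr (f l).d (f l).v) → False := by
      intro k l hkl hk1 hk hl heq
      simp only [Prod.mk.injEq] at heq
      obtain ⟨e1, e2, e3, e4⟩ := heq
      obtain ⟨i, hi, ho⟩ := hpos k hk1
      have ho' : (f l).o = some i := by rw [← e2]; exact ho
      have hv : (f l).v = (f k).v := (hP k).v_eq hab hDt (hP l) ho ho' e3.symm e4.symm
      obtain ⟨-, τ, hτ⟩ := hp k hk
      obtain ⟨-, τ', hτ'⟩ := hp l hl
      rw [← e1, hv, ← e3] at hτ'
      have hxk := ((hP k).cr_x hab ho).2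
      have hxl := ((hP l).cr_x hab ho').2
      have hvk := (hP k).par i ho
      have h1 : cr (b i - a i) ((f k).x + (f (k + 1)).r • (f k).v - a i) = 0 := by
        rw [show (f k).x + (f (k + 1)).r • (f k).v - a i =
          ((f k).x - a i) + (f (k + 1)).r • (f k).v by ring, cr_add_right, hxk, cr_smul_right,
          hvk]; ring
      have h2 : cr (b i - a i) ((f l).x + (f (l + 1)).r • (f k).v - a i) = 0 := by
        rw [show (f l).x + (f (l + 1)).r • (f k).v - a i =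
          ((f l).x - a i) + (f (l + 1)).r • (f k).v by ring, cr_add_right, hxl, cr_smul_right,
          hvk]; ring
      have h3 : (f k).x + (f (k + 1)).r • (f k).v - a i =
          ((f l).x + (f (l + 1)).r • (f k).v - a i) + (τ' - τ) • (f k).d := by
        rw [sub_smul]
        linear_combination hτ' - hτ
      have h4 := eq_of_line (hDt _ (hP k).dir i hi) h2 h1 h3
      have h5 : (f l).x = (f k).x + ((f (k + 1)).r - (f (l + 1)).r) • (f k).v := by
        rw [h4, zero_smul, add_zero] at h3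
        rw [sub_smul]
        linear_combination -h3
      have h6 : (f (l + 1)).r < (f (k + 1)).r := hl.trans_le (hanti (Nat.succ_le_of_lt hkl))
      have h7 := (hP (l + 1)).r0
      exact (hP k).not_in_strip (hP l) e2.symm e3.symm
        (s := (f (k + 1)).r - (f (l + 1)).r) ⟨by linarith, by linarith⟩ h5
    rcases lt_or_gt_of_ne hne with h | h
    · exact main k l h hk.1 hk.2 hl.2 heq
    · exact main l k h hl.1 hl.2 hk.2 heq.symm
  obtain ⟨N, hN1, hN⟩ : ∃ N : ℕ, 1 ≤ N ∧ ∀ n, N ≤ n → (f (n + 1)).r = (f n).r := by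
    obtain ⟨B, hB⟩ := hcut.bddAbove
    refine ⟨B + 1, by omega, fun n hn => ?_⟩
    by_contra h
    have h1 : (f (n + 1)).r < (f n).r := lt_of_le_of_ne (hR n).r h
    have := hB (show n ∈ {n : ℕ | 1 ≤ n ∧ (f (n + 1)).r < (f n).r} from ⟨by omega, h1⟩)
    omega
  have hrN : ∀ n, N ≤ n → (f n).r = (f N).r := by
    intro n hn
    induction n, hn using Nat.le_induction with
    | base => rfl
    | succ n hn ih => rw [hN n hn, ih]
  have hr0 := (hP N).r0
  set η : ℝ := (f N).r / 4 with hη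
  have hη0 : 0 < η := by positivity
  obtain ⟨B, hB⟩ := (isCompact_M (a := a) (b := b) hS).isBounded.exists_norm_le
  have hxB : ∀ n, N ≤ n → ‖(f n).x‖ ≤ B := by
    intro n hn
    obtain ⟨i, hi, ho⟩ := hpos n (hN1.trans hn)
    have h1 := (hP n).start
    rw [ho] at h1
    exact hB _ (mem_M.2 ⟨i, hi, openSegment_subset_segment ℝ _ _ h1.1.2.1⟩)
  have hfloor : ∀ c : ℝ, |c| ≤ B → ⌊c / η⌋ ∈ Icc ⌊-B / η⌋ ⌊B / η⌋ := by
    intro c hc
    obtain ⟨h1, h2⟩ := abs_le.1 hc
    exact ⟨Int.floor_le_floor (div_le_div_of_nonneg_right h1 hη0.le),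
      Int.floor_le_floor (div_le_div_of_nonneg_right h2 hη0.le)⟩
  have hfin : ((some '' S) ×ˢ (D ×ˢ (({1, -1} : Set ℝ) ×ˢ (Icc ⌊-B / η⌋ ⌊B / η⌋ ×ˢ
      Icc ⌊-B / η⌋ ⌊B / η⌋)))).Finite :=
    (hS.image _).prod (hDf.prod ((Set.toFinite _).prod ((Set.finite_Icc _ _).prod
      (Set.finite_Icc _ _))))
  have hmaps : MapsTo (fun n => ((f n).o, (f n).d, cr (f n).d (f n).v, ⌊(f n).x.re / η⌋,
      ⌊(f n).x.im / η⌋)) (Ici N) ((some '' S) ×ˢ (D ×ˢ (({1, -1} : Set ℝ) ×ˢ
        (Icc ⌊-B / η⌋ ⌊B / η⌋ ×ˢ Icc ⌊-B / η⌋ ⌊B / η⌋)))) := by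
    intro n hn
    obtain ⟨i, hi, ho⟩ := hpos n (hN1.trans hn)
    refine ⟨⟨i, hi, ho.symm⟩, (hP n).dir, (hP n).nv, hfloor _ ?_, hfloor _ ?_⟩
    · exact (Complex.abs_re_le_norm _).trans (hxB n hn)
    · exact (Complex.abs_im_le_norm _).trans (hxB n hn)
  obtain ⟨k, hk, l, hl, hne, heq⟩ := (Set.Ici_infinite N).exists_ne_map_eq_of_mapsTo hmaps hfin
  have main : ∀ k l : ℕ, k < l → N ≤ k → ((f k).o, (f k).d, cr (f k).d (f k).v,
      ⌊(f k).x.re / η⌋, ⌊(f k).x.im / η⌋) = ((f l).o, (f l).d, cr (f l).d (f l).v,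
      ⌊(f l).x.re / η⌋, ⌊(f l).x.im / η⌋) → False := by
    intro k l hkl hk heq
    simp only [Prod.mk.injEq] at heq
    obtain ⟨e2, e3, e4, e5, e6⟩ := heq
    obtain ⟨i, hi, ho⟩ := hpos k (hN1.trans hk)
    have ho' : (f l).o = some i := by rw [← e2]; exact ho
    have hv : (f l).v = (f k).v := (hP k).v_eq hab hDt (hP l) ho ho' e3.symm e4.symm
    have he : b i - a i ≠ 0 := sub_ne_zero.2 (hab i hi).symm
    have hxk := ((hP k).cr_x hab ho).2
    have hxl := ((hP l).cr_x hab ho').2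
    have hvk := (hP k).par i ho
    have hde : cr (f k).d (b i - a i) ≠ 0 := by
      rw [cr_comm]; exact neg_ne_zero.2 (hDt _ (hP k).dir i hi)
    have hc0 : cr (f k).d (f k).v ≠ 0 := by
      rcases (hP k).nv with h | h <;> rw [h] <;> norm_num
    have hc1 : |cr (f k).d (f k).v| = 1 := by
      rcases (hP k).nv with h | h <;> rw [h] <;> norm_num
    have hdiff : cr (b i - a i) ((f l).x - (f k).x) = 0 := by
      rw [show (f l).x - (f k).x = ((f l).x - a i) - ((f k).x - a i) by ring, cr_sub_right, hxk,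
        hxl, sub_self]
    obtain ⟨s, hs⟩ : ∃ s : ℝ, (f l).x - (f k).x = s • (f k).v := by
      have h1 := vec_eq he hde hdiff rfl
      have h2 := vec_eq he hde hvk rfl
      refine ⟨cr (f k).d ((f l).x - (f k).x) / cr (f k).d (f k).v, ?_⟩
      rw [h2, smul_smul]
      rw [← h2]
      conv_lhs => rw [h1]
      congr 1
      field_simp
    have habs : |s| ≤ ‖(f l).x - (f k).x‖ := by
      have h1 := cr_le (f k).d ((f l).x - (f k).x)
      rw [hD1 _ (hP k).dir, one_mul] at h1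
      have h2 : cr (f k).d ((f l).x - (f k).x) = s * cr (f k).d (f k).v := by
        rw [hs, cr_smul_right]
      rw [h2, abs_mul, hc1, mul_one] at h1
      exact h1
    have hclose : ‖(f l).x - (f k).x‖ < 2 * η := by
      have h1 : |(f l).x.re - (f k).x.re| < η := by
        have h3 := Int.abs_sub_lt_one_of_floor_eq_floor e5.symm
        rw [← sub_div, abs_div, abs_of_pos hη0, div_lt_one hη0] at h3
        exact h3
      have h2 : |(f l).x.im - (f k).x.im| < η := by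
        have h3 := Int.abs_sub_lt_one_of_floor_eq_floor e6.symm
        rw [← sub_div, abs_div, abs_of_pos hη0, div_lt_one hη0] at h3
        exact h3
      refine (Complex.norm_le_abs_re_add_abs_im _).trans_lt ?_
      rw [Complex.sub_re, Complex.sub_im]
      linarith
    have hsr : |s| < (f N).r := by
      have : 2 * η < (f N).r := by rw [hη]; linarith
      linarith
    rcases lt_trichotomy s 0 with h | h | h
    · rw [abs_of_neg h] at hsr
      refine (hP l).not_in_strip (hP k) e2 e3 (s := -s) ⟨by linarith, ?_⟩ ?_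
      · rw [hrN l (hk.trans hkl.le)]; exact hsr
      · rw [hv, neg_smul]
        linear_combination -hs
    · rw [h, zero_smul, sub_eq_zero] at hs
      have hT : 0 < (f l).T - (f k).T := sub_pos.2 (hmono hkl)
      refine hper (f k).w (f l).w _ (f k).x (f k).d hT (hD1 _ (hP k).dir) (hP k).lin ?_ ?_
      · rw [e3]; exact (hP l).lin
      · rw [← (hP k).unf]
        have := (hP l).unf
        rw [hs] at this
        rw [← this, sub_smul]
        ring
    · rw [abs_of_pos h] at hsr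
      refine (hP k).not_in_strip (hP l) e2.symm e3.symm (s := s) ⟨h, ?_⟩ ?_
      · rw [hrN k hk]; exact hsr
      · linear_combination hs
  rcases lt_or_gt_of_ne hne with h | h
  · exact main k l h hk heq
  · exact main l k h hl heq.symm

end Mirr
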