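import Pool.Agent.Lib.MP_669c56_pr.Clopen

/-! # The limit set of an infinite trajectory is an invariant set -/

set_option autoImplicit false

open Set Filter Topology ComplexConjugate

namespace Mirr

variable {ι : Type*} {a b : ι → ℂ} {S : Set ι}

/-- an infinite regular trajectory -/
structure IsTraj (a b : ι → ℂ) (S : Set ι) (x d : ℕ → ℂ) (j : ℕ → ι) (t : ℕ → ℝ) : Prop where
  start : x 0 ∉ M a b S
  step0 : Step a b S none (x 0) (d 0) (j 0) (t 0)
  step : ∀ k, Step a b S (some (j k)) (x (k + 1)) (d (k + 1)) (j (k + 1)) (t (k + 1))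
  xs : ∀ k, x (k + 1) = x k + t k • d k
  ds : ∀ k, d (k + 1) = refl (b (j k) - a (j k)) (d k)

/-- the limit set -/
def Om (a b : ι → ℂ) (S : Set ι) (x d : ℕ → ℂ) (t : ℕ → ℝ) (e : ℂ) : Set ℂ :=
  {z | z ∉ M a b S ∧ ∀ ε : ℝ, 0 < ε → ∀ N : ℕ, ∃ k, N ≤ k ∧ d k = e ∧
    ∃ τ ∈ Ioo 0 (t k), ‖x k + τ • e - z‖ < ε}

variable {x d : ℕ → ℂ} {j : ℕ → ι} {t : ℕ → ℝ}

theorem IsTraj.starts (h : IsTraj a b S x d j t) (hab : ∀ i ∈ S, a i ≠ b i) (k : ℕ) :
    Start a b S (some (j k)) (x (k + 1)) (d (k + 1)) := by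
  induction k with
  | zero =>
    rw [h.xs, h.ds]
    exact h.step0.start hab (show Start a b S none (x 0) (d 0) from h.start)
  | succ k ih =>
    rw [h.xs (k + 1), h.ds (k + 1)]
    exact (h.step k).start hab ih

theorem IsTraj.memM (h : IsTraj a b S x d j t) (hab : ∀ i ∈ S, a i ≠ b i) (k : ℕ) :
    x (k + 1) ∈ M a b S := by
  have := (h.starts hab k).1
  exact mem_M.2 ⟨j k, this.1, openSegment_subset_segment ℝ _ _ this.2.1⟩

theorem IsTraj.tpos (h : IsTraj a b S x d j t) (k : ℕ) : 0 < t k := by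
  cases k with
  | zero => exact h.step0.1
  | succ k => exact (h.step k).1

/-- reversal of a flight between two mirrors -/
theorem Step.rev (hab : ∀ i ∈ S, a i ≠ b i) {i j : ι} {x d : ℂ} {t : ℝ}
    (hs : Start a b S (some i) x d) (h : Step a b S (some i) x d j t) :
    Start a b S (some j) (x + t • d) (-d) ∧ Step a b S (some j) (x + t • d) (-d) i t := by
  have hr := h.reg hab hs
  obtain ⟨ht, hj, ho, hm, hd, hf⟩ := h
  refine ⟨⟨hr, by rw [cr_neg_right]; exact neg_ne_zero.2 hd⟩, ht, hs.1.1, fun h1 => ho ?_, ?_, ?_,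
    ?_⟩
  · rw [Option.some.inj h1]
  · have : x + t • d + t • -d = x := by rw [smul_neg]; ring
    rw [this]
    exact hs.1.2.1
  · rw [cr_neg_right]; exact neg_ne_zero.2 hs.2
  · intro j' hj' h1 h2 τ hτ
    have : x + t • d + τ • -d = x + (t - τ) • d := by rw [smul_neg, sub_smul]; ring
    rw [this]
    exact hf j' hj' (fun h3 => h2 (Option.some.inj h3).symm) (fun h3 => h1 (by rw [h3]))
      (t - τ) ⟨by linarith [hτ.2], by linarith [hτ.1]⟩

theorem Reg.ball (hS : S.Finite) {i : ι} {y : ℂ} (h : Reg a b S i y) :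
    ∃ r : ℝ, 0 < r ∧ ∀ y', ‖y' - y‖ < r → ∀ j ∈ S, j ≠ i → y' ∉ segment ℝ (a j) (b j) := by
  have hc : IsClosed (M a b {j ∈ S | j ≠ i}) :=
    (isCompact_M (hS.subset (sep_subset _ _))).isClosed
  have hy : y ∈ (M a b {j ∈ S | j ≠ i})ᶜ := by
    intro hm
    obtain ⟨j, ⟨hj, hji⟩, hx⟩ := mem_M.1 hm
    exact h.2.2 j hj hji hx
  obtain ⟨r, hr, hb⟩ := Metric.isOpen_iff.1 hc.isOpen_compl y hy
  refine ⟨r, hr, fun y' hy' j hj hji hx => ?_⟩
  exact hb (by rwa [Metric.mem_ball, dist_eq_norm]) (mem_M.2 ⟨j, ⟨hj, hji⟩, hx⟩)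

/-- Local lemma: a flight passing close to `y - τ d` is reflected by the mirror of `y` and passes
close to `y + τ' (refl d)`. -/
theorem loc (hS : S.Finite) (hab : ∀ i ∈ S, a i ≠ b i) {j : ι} {y d : ℂ}
    (hy : Reg a b S j y) (hd : cr (b j - a j) d ≠ 0) :
    ∃ δ₀ : ℝ, 0 < δ₀ ∧ (∀ τ ∈ Ioo 0 δ₀, y - τ • d ∉ M a b S ∧
        y + τ • refl (b j - a j) d ∉ M a b S) ∧
      ∀ τ ∈ Ioo 0 δ₀, ∀ τ' ∈ Ioo 0 δ₀, ∀ ε : ℝ, 0 < ε → ∃ η : ℝ, 0 < η ∧
        ∀ (i j₁ j₂ : ι) (x : ℂ) (t t' : ℝ), Start a b S (some i) x d →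
          Step a b S (some i) x d j₁ t →
          Step a b S (some j₁) (x + t • d) (refl (b j₁ - a j₁) d) j₂ t' →
          ∀ σ ∈ Ioo 0 t, ‖x + σ • d - (y - τ • d)‖ < η →
            j₁ = j ∧ τ' < t' ∧ ‖(x + t • d) + τ' • refl (b j - a j) d -
              (y + τ' • refl (b j - a j) d)‖ < ε := by
  obtain ⟨r, hr, hball⟩ := hy.ball hS
  have he : b j - a j ≠ 0 := sub_ne_zero.2 (hab j hy.1).symm
  have hd' : cr (b j - a j) (refl (b j - a j) d) ≠ 0 := by
    rw [cr_refl he]; exact neg_ne_zero.2 hd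
  have hys := openSegment_subset_segment ℝ _ _ hy.2.1
  have hyl := cr_of_mem (hab j hy.1) hys
  set δ₀ : ℝ := r / (‖d‖ + 1) with hδ₀
  have hn : 0 ≤ ‖d‖ := norm_nonneg d
  have hδ₀pos : 0 < δ₀ := by positivity
  have hsmall : ∀ τ ∈ Icc 0 δ₀, ∀ w : ℂ, ‖w‖ = ‖d‖ → ‖τ • w‖ < r := by
    intro τ hτ w hw
    rw [norm_smul, hw, Real.norm_eq_abs, abs_of_nonneg hτ.1]
    have h1 : τ * ‖d‖ ≤ δ₀ * ‖d‖ := mul_le_mul_of_nonneg_right hτ.2 hn
    have h2 : δ₀ * (‖d‖ + 1) = r := by rw [hδ₀]; field_simp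
    nlinarith
  have hoffj : ∀ (w : ℂ), cr (b j - a j) w ≠ 0 → ∀ τ : ℝ, τ ≠ 0 →
      y + τ • w ∉ segment ℝ (a j) (b j) := by
    intro w hw τ hτ h
    have h1 := cr_of_mem (hab j hy.1) h
    exact hτ (eq_of_line hw hyl h1 (by ring))
  have hoff : ∀ (w : ℂ), cr (b j - a j) w ≠ 0 → ‖w‖ = ‖d‖ → ∀ τ ∈ Icc 0 δ₀, τ ≠ 0 →
      y + τ • w ∉ M a b S := by
    intro w hw hwn τ hτ hτ0 hm
    obtain ⟨i, hi, hx⟩ := mem_M.1 hm
    by_cases hij : i = j
    · subst hij
      exact hoffj w hw τ hτ0 hx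
    · refine hball _ ?_ i hi hij hx
      rw [add_sub_cancel_left]
      exact hsmall τ hτ w hwn
  have hneg : ∀ τ : ℝ, y - τ • d = y + τ • -d := fun τ => by rw [smul_neg]; ring
  have hdn : cr (b j - a j) (-d) ≠ 0 := by rw [cr_neg_right]; exact neg_ne_zero.2 hd
  refine ⟨δ₀, hδ₀pos, fun τ hτ => ⟨?_, ?_⟩, ?_⟩
  · rw [hneg]
    exact hoff _ hdn (norm_neg d) τ ⟨hτ.1.le, hτ.2.le⟩ hτ.1.ne'
  · exact hoff _ hd' (norm_refl he d) τ ⟨hτ.1.le, hτ.2.le⟩ hτ.1.ne'
  intro τ hτ τ' hτ' ε hε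
  -- the step from `y - τ d`
  have hstep : Step a b S none (y - τ • d) d j τ := by
    refine ⟨hτ.1, hy.1, by simp, ?_, hd, ?_⟩
    · rw [sub_add_cancel]; exact hy.2.1
    · intro j' hj' _ hjj τ'' hτ''
      refine hball _ ?_ j' hj' hjj
      have : y - τ • d + τ'' • d - y = (τ - τ'') • -d := by rw [smul_neg, sub_smul]; ring
      rw [this]
      exact hsmall (τ - τ'') ⟨by linarith [hτ''.2], by linarith [hτ''.1, hτ.2]⟩ _ (norm_neg d)
  have htime := hstep.time hab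
  -- robustness of the first part
  have h1 : ∀ᶠ z : ℂ in 𝓝 (y - τ • d), Step a b S none z d j (hitT a b z d j) := by
    have h2 := step_open hS hab hstep
    have hc : Tendsto (fun z : ℂ => ((a, b, z, d) : Par ι)) (𝓝 (y - τ • d))
        (𝓝 (a, b, y - τ • d, d)) := Continuous.tendsto (by fun_prop) _
    exact hc.eventually h2
  have hcont : Tendsto (fun z : ℂ => z + hitT a b z d j • d) (𝓝 (y - τ • d)) (𝓝 y) := by
    have h2 : ContinuousAt (fun z : ℂ => z + hitT a b z d j • d) (y - τ • d) := by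
      have : ContinuousAt (fun z : ℂ => hitT a b z d j) (y - τ • d) := by
        unfold hitT
        exact ContinuousAt.div (by fun_prop) continuousAt_const hd
      fun_prop
    have h3 := h2.tendsto
    rw [← htime] at h3
    simpa using h3
  -- robustness of the second part
  have h4 : ∀ᶠ y' : ℂ in 𝓝 y, ∀ j' ∈ S, j' ≠ j → ∀ τ'' ∈ Icc 0 τ',
      y' + τ'' • refl (b j - a j) d ∉ segment ℝ (a j') (b j') := by
    rw [Filter.eventually_all_finite hS]
    intro j' hj'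
    by_cases hjj : j' = j
    · exact Filter.Eventually.of_forall fun _ h => absurd hjj h
    · have := avoid_robust (q0 := y) (A := fun _ => a j') (B := fun _ => b j') (X := fun y' => y')
        (D := fun _ => refl (b j - a j) d) (T := fun _ => τ') continuousAt_const
        continuousAt_const continuousAt_id continuousAt_const continuousAt_const hτ'.1.le (by
          intro τ'' hτ''
          refine hball _ ?_ j' hj' hjj
          rw [add_sub_cancel_left]
          exact hsmall τ'' ⟨hτ''.1, by linarith [hτ''.2, hτ'.2]⟩ _ (norm_refl he d))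
      filter_upwards [this] with y' hy' _
      exact hy'
  have h5 : ∀ᶠ y' : ℂ in 𝓝 y, ‖y' - y‖ < ε := by
    filter_upwards [Metric.ball_mem_nhds y hε] with y' hy'
    rwa [Metric.mem_ball, dist_eq_norm] at hy'
  obtain ⟨η, hη, hall⟩ := Metric.eventually_nhds_iff.1 (h1.and (hcont.eventually (h4.and h5)))
  refine ⟨η, hη, fun i j₁ j₂ x t t' hs hst hst' σ hσ hclose => ?_⟩
  obtain ⟨k1, k2, k3⟩ := hall (y := x + σ • d) (by rwa [dist_eq_norm])
  have hz : x + σ • d ∉ M a b S := hst.free hab hs hσ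
  have hst2 : Step a b S none (x + σ • d) d j₁ (t - σ) := by
    refine ⟨by linarith [hσ.2], hst.2.1, by simp, ?_, hst.2.2.2.2.1, ?_⟩
    · have : x + σ • d + (t - σ) • d = x + t • d := by rw [sub_smul]; ring
      rw [this]; exact hst.2.2.2.1
    · intro j' hj' _ hjj τ'' hτ''
      have : x + σ • d + τ'' • d = x + (σ + τ'') • d := by rw [add_smul]; ring
      rw [this]
      by_cases hij : i = j'
      · exact notMem_start hab hs (by rw [hij]) (by linarith [hσ.1, hτ''.1])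
      · exact hst.2.2.2.2.2 j' hj' (fun h => hij (Option.some.inj h)) hjj _
          ⟨by linarith [hσ.1, hτ''.1], by linarith [hτ''.2]⟩
  obtain ⟨e1, e2⟩ := Step.unique hab (o := none) hz hst2 k1
  subst e1
  have e3 : x + σ • d + hitT a b (x + σ • d) d j₁ • d = x + t • d := by
    rw [← e2, sub_smul]; ring
  rw [e3] at k2 k3
  refine ⟨rfl, ?_, ?_⟩
  · by_contra hcon
    refine k2 j₂ hst'.2.1 (fun h => hst'.2.2.1 (by rw [h])) t' ⟨hst'.1.le, not_lt.1 hcon⟩ ?_
    exact openSegment_subset_segment ℝ _ _ hst'.2.2.2.1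
  · rw [add_sub_add_right_eq_sub]
    exact k3

theorem IsTraj.inv (h : IsTraj a b S x d j t) (hS : S.Finite) (hab : ∀ i ∈ S, a i ≠ b i) :
    Inv a b S (Om a b S x d t) where
  off := fun e z hz => hz.1
  bdd := by
    obtain ⟨B, hB⟩ := (isCompact_M (a := a) (b := b) hS).isBounded.exists_norm_le
    refine ⟨B + 1, fun e z hz => ?_⟩
    obtain ⟨k, hk, he, τ, hτ, hc⟩ := hz.2 1 one_pos 1
    obtain ⟨m, rfl⟩ := Nat.exists_eq_add_of_le' hk
    have h1 := hB _ (h.memM hab m)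
    have h2 := hB _ (h.memM hab (m + 1))
    have h3 : x (m + 1) + τ • e ∈ segment ℝ (x (m + 1)) (x (m + 1 + 1)) := by
      rw [segment_eq_image']
      refine ⟨τ / t (m + 1), ⟨by have := h.tpos (m + 1); have := hτ.1; positivity,
        (div_le_one (h.tpos _)).2 hτ.2.le⟩, ?_⟩
      simp only
      rw [h.xs (m + 1), add_sub_cancel_left, smul_smul, div_mul_cancel₀ _ (h.tpos _).ne', he]
    have h4 := norm_le_of_segment h1 h2 h3
    have h5 : ‖z‖ ≤ ‖x (m + 1) + τ • e‖ + ‖x (m + 1) + τ • e - z‖ := by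
      have : z = (x (m + 1) + τ • e) - (x (m + 1) + τ • e - z) := by ring
      calc ‖z‖ = ‖(x (m + 1) + τ • e) - (x (m + 1) + τ • e - z)‖ := by rw [← this]
        _ ≤ _ := norm_sub_le _ _
    linarith
  flight := by
    intro e z T hz hf
    refine ⟨hf T right_mem_uIcc, fun ε hε N => ?_⟩
    have hZ : IsCompact ((fun τ : ℝ => z + τ • e) '' uIcc 0 T) :=
      isCompact_uIcc.image (by fun_prop)
    have hdis : Disjoint ((fun τ : ℝ => z + τ • e) '' uIcc 0 T) (M a b S) := by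
      rw [Set.disjoint_left]
      rintro _ ⟨τ, hτ, rfl⟩
      exact hf τ hτ
    obtain ⟨δ, hδ, hth⟩ := hdis.exists_thickenings hZ (isCompact_M hS).isClosed
    have hav : ∀ τ ∈ uIcc 0 T, ∀ y, ‖y - (z + τ • e)‖ < δ → y ∉ M a b S := by
      intro τ hτ y hy hyM
      have h1 : y ∈ Metric.thickening δ ((fun τ : ℝ => z + τ • e) '' uIcc 0 T) := by
        rw [Metric.mem_thickening_iff]
        exact ⟨_, ⟨τ, hτ, rfl⟩, by rwa [dist_eq_norm]⟩
      exact Set.disjoint_left.1 hth h1 (Metric.self_subset_thickening hδ _ hyM)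
    obtain ⟨k, hk, he, τ₀, hτ₀, hc⟩ := hz.2 (min ε δ) (lt_min hε hδ) (N + 1)
    obtain ⟨m, rfl⟩ := Nat.exists_eq_add_of_le' (show 1 ≤ k by omega)
    have hcl : ∀ τ : ℝ, x (m + 1) + τ₀ • e + τ • e - (z + τ • e) = x (m + 1) + τ₀ • e - z :=
      fun τ => by ring
    have hav' : ∀ τ ∈ uIcc 0 T, x (m + 1) + τ₀ • e + τ • e ∉ M a b S := by
      intro τ hτ
      refine hav τ hτ _ ?_
      rw [hcl]
      exact hc.trans_le (min_le_right _ _)
    have h1 : τ₀ + T < t (m + 1) := by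
      by_contra hcon
      refine hav' (t (m + 1) - τ₀) ?_ ?_
      · rw [mem_uIcc]
        left
        exact ⟨by linarith [hτ₀.2], by linarith [not_lt.1 hcon]⟩
      · have e1 : x (m + 1) + τ₀ • e + (t (m + 1) - τ₀) • e = x (m + 1 + 1) := by
          rw [h.xs (m + 1), he, sub_smul]; ring
        rw [e1]
        exact h.memM hab (m + 1)
    have h2 : 0 < τ₀ + T := by
      by_contra hcon
      refine hav' (-τ₀) ?_ ?_
      · rw [mem_uIcc]
        right
        exact ⟨by linarith [not_lt.1 hcon], by linarith [hτ₀.1]⟩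
      · have e1 : x (m + 1) + τ₀ • e + (-τ₀) • e = x (m + 1) := by rw [neg_smul]; ring
        rw [e1]
        exact h.memM hab m
    refine ⟨m + 1, by omega, he, τ₀ + T, ⟨h2, h1⟩, ?_⟩
    have e1 : x (m + 1) + (τ₀ + T) • e - (z + T • e) = x (m + 1) + τ₀ • e - z := by
      rw [add_smul]; ring
    rw [e1]
    exact hc.trans_le (min_le_left _ _)
  bounce := by
    intro i y e hy he
    have hee : b i - a i ≠ 0 := sub_ne_zero.2 (hab i hy.1).symm
    constructor
    · rintro ⟨δ, hδ, h1⟩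
      obtain ⟨δ₀, hδ₀, hoff, hloc⟩ := loc hS hab hy he
      refine ⟨δ₀, hδ₀, fun τ' hτ' => ⟨(hoff τ' hτ').2, fun ε hε N => ?_⟩⟩
      have hm : 0 < min δ δ₀ := lt_min hδ hδ₀
      have hτ1 : min δ δ₀ / 2 ∈ Ioo 0 δ := ⟨by positivity, by linarith [min_le_left δ δ₀]⟩
      have hτ2 : min δ δ₀ / 2 ∈ Ioo 0 δ₀ := ⟨by positivity, by linarith [min_le_right δ δ₀]⟩
      obtain ⟨η, hη, hall⟩ := hloc _ hτ2 τ' hτ' ε hε
      obtain ⟨k, hk, hdk, σ, hσ, hc⟩ := (h1 _ hτ1).2 η hη (N + 1)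
      obtain ⟨m, rfl⟩ := Nat.exists_eq_add_of_le' (show 1 ≤ k by omega)
      have s1 := h.starts hab m
      have s2 := h.step m
      have s3 := h.step (m + 1)
      rw [h.xs (m + 1), h.ds (m + 1), hdk] at s3
      rw [hdk] at s1 s2
      obtain ⟨k1, k2, k3⟩ := hall _ _ _ _ _ _ s1 s2 s3 σ hσ hc
      refine ⟨m + 1 + 1, by omega, ?_, τ', ⟨hτ'.1, k2⟩, ?_⟩
      · rw [h.ds (m + 1), hdk, k1]
      · rw [h.xs (m + 1), hdk]
        exact k3
    · rintro ⟨δ, hδ, h1⟩
      have he' : cr (b i - a i) (-refl (b i - a i) e) ≠ 0 := by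
        rw [cr_neg_right, cr_refl hee, neg_neg]; exact he
      obtain ⟨δ₀, hδ₀, hoff, hloc⟩ := loc hS hab hy he'
      have hrr : refl (b i - a i) (-refl (b i - a i) e) = -e := by
        rw [refl_neg, refl_refl hee]
      rw [hrr] at hoff hloc
      refine ⟨δ₀, hδ₀, fun τ' hτ' => ⟨?_, fun ε hε N => ?_⟩⟩
      · have := (hoff τ' hτ').2
        rwa [smul_neg, ← sub_eq_add_neg] at this
      have hm : 0 < min δ δ₀ := lt_min hδ hδ₀
      have hτ1 : min δ δ₀ / 2 ∈ Ioo 0 δ := ⟨by positivity, by linarith [min_le_left δ δ₀]⟩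
      have hτ2 : min δ δ₀ / 2 ∈ Ioo 0 δ₀ := ⟨by positivity, by linarith [min_le_right δ δ₀]⟩
      obtain ⟨η, hη, hall⟩ := hloc _ hτ2 τ' hτ' ε hε
      obtain ⟨k, hk, hdk, σ, hσ, hc⟩ := (h1 _ hτ1).2 η hη (N + 3)
      obtain ⟨m, rfl⟩ := Nat.exists_eq_add_of_le' (show 2 ≤ k by omega)
      -- the flights `m + 2` and `m + 1`, reversed
      have s1 := h.starts hab (m + 1)
      have s2 := h.step (m + 1)
      obtain ⟨r1, r2⟩ := s2.rev hab s1
      have s1' := h.starts hab m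
      have s2' := h.step m
      obtain ⟨r1', r2'⟩ := s2'.rev hab s1'
      rw [show m + 1 + 1 = m + 2 from rfl] at *
      rw [hdk] at r1 r2
      have e1 : x (m + 2) + t (m + 2) • refl (b i - a i) e + t (m + 2) • -refl (b i - a i) e =
          x (m + 2) := by rw [smul_neg]; ring
      have e2 : -d (m + 1) = refl (b (j (m + 1)) - a (j (m + 1))) (-refl (b i - a i) e) := by
        rw [refl_neg, ← hdk, h.ds (m + 1), refl_refl]
        exact sub_ne_zero.2 (hab _ (s2'.2.1)).symm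
      rw [← h.xs (m + 1), e2] at r2'
      obtain ⟨k1, k2, k3⟩ := hall _ _ _ _ _ _ r1 r2 (by rw [e1]; exact r2') (t (m + 2) - σ)
        ⟨by linarith [hσ.2], by linarith [hσ.1]⟩ (by
          rw [smul_neg, smul_neg]
          have e3 : x (m + 2) + t (m + 2) • refl (b i - a i) e +
              -((t (m + 2) - σ) • refl (b i - a i) e) -
              (y - -((min δ δ₀ / 2) • refl (b i - a i) e)) =
              x (m + 2) + σ • refl (b i - a i) e - (y + (min δ δ₀ / 2) • refl (b i - a i) e) := by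
            rw [sub_smul]; ring
          rw [e3]
          exact hc)
      have hd1 : d (m + 1) = e := by
        have := e2
        rw [k1, hrr] at this
        exact neg_injective this
      refine ⟨m + 1, by omega, hd1, t (m + 1) - τ', ⟨by linarith, by linarith [hτ'.1]⟩, ?_⟩
      rw [e1] at k3
      have e4 : x (m + 1) + (t (m + 1) - τ') • e - (y - τ' • e) =
          x (m + 2) + τ' • -e - (y + τ' • -e) := by
        rw [show m + 2 = m + 1 + 1 from rfl, h.xs (m + 1), hd1, sub_smul, smul_neg]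
        ring
      rw [e4]
      exact k3

theorem Om.closed (e z : ℂ) (hz : z ∉ M a b S) (h : z ∈ closure (Om a b S x d t e)) :
    z ∈ Om a b S x d t e := by
  refine ⟨hz, fun ε hε N => ?_⟩
  obtain ⟨z', hz', hzz⟩ := Metric.mem_closure_iff.1 h (ε / 2) (by positivity)
  obtain ⟨k, hk, hd, τ, hτ, hc⟩ := hz'.2 (ε / 2) (by positivity) N
  refine ⟨k, hk, hd, τ, hτ, ?_⟩
  rw [dist_comm, dist_eq_norm] at hzz
  calc ‖x k + τ • e - z‖ = ‖(x k + τ • e - z') + (z' - z)‖ := by congr 1; ring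
    _ ≤ ‖x k + τ • e - z'‖ + ‖z' - z‖ := norm_add_le _ _
    _ < ε := by linarith

end Mirr
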