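import Pool.Agent.Lib.MP_669c56_pr.Rational
import Pool.Agent.Lib.MP_669c56_pr.Chain

/-! # Mirrors given by centre, half length and inclination; pairs of mirrors -/

set_option autoImplicit false

open Set Filter Topology ComplexConjugate

namespace Mirr

variable {ι : Type*}

/-- the unit vector of the angle `t` -/
noncomputable def ev (t : ℝ) : ℂ := Complex.exp (t * Complex.I)

theorem norm_ev (t : ℝ) : ‖ev t‖ = 1 := Complex.norm_exp_ofReal_mul_I t

theorem ev_ne_zero (t : ℝ) : ev t ≠ 0 := Complex.exp_ne_zero _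

theorem continuous_ev : Continuous ev := by
  unfold ev
  fun_prop

/-- the first end point of the mirror `i` -/
noncomputable def eA (κ : ι → ℕ) (θ : ℕ → ℝ) (c : ι → ℂ) (l : ι → ℝ) (i : ι) : ℂ :=
  c i - l i • ev (θ (κ i))

/-- the second end point of the mirror `i` -/
noncomputable def eB (κ : ι → ℕ) (θ : ℕ → ℝ) (c : ι → ℂ) (l : ι → ℝ) (i : ι) : ℂ :=
  c i + l i • ev (θ (κ i))

theorem eB_sub_eA (κ : ι → ℕ) (θ : ℕ → ℝ) (c : ι → ℂ) (l : ι → ℝ) (i : ι) :
    eB κ θ c l i - eA κ θ c l i = (2 * l i) • ev (θ (κ i)) := by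
  simp only [eA, eB, Complex.real_smul, Complex.ofReal_mul, Complex.ofReal_ofNat]
  ring

theorem eA_ne_eB {κ : ι → ℕ} {θ : ℕ → ℝ} {c : ι → ℂ} {l : ι → ℝ} {i : ι} (h : l i ≠ 0) :
    eA κ θ c l i ≠ eB κ θ c l i := by
  intro h1
  have h2 := eB_sub_eA κ θ c l i
  rw [h1, sub_self] at h2
  have h3 : (2 * l i) • ev (θ (κ i)) ≠ 0 := smul_ne_zero (by positivity) (ev_ne_zero _)
  exact h3 h2.symm

/-- the quotient in the reflection law -/
theorem quot_real_smul {r : ℝ} (hr : r ≠ 0) (z : ℂ) : (r • z) / conj (r • z) = z / conj z := by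
  have hr' : (r : ℂ) ≠ 0 := Complex.ofReal_ne_zero.2 hr
  simp only [Complex.real_smul, map_mul, Complex.conj_ofReal]
  rw [mul_div_mul_left _ _ hr']

theorem ev_conj (t : ℝ) : conj (ev t) = ev (-t) := by
  unfold ev
  rw [← Complex.exp_conj]
  congr 1
  simp

theorem ev_mul (s t : ℝ) : ev s * ev t = ev (s + t) := by
  unfold ev
  rw [← Complex.exp_add]
  congr 1
  push_cast
  ring

theorem ev_quot (t : ℝ) : ev t / conj (ev t) = ev (2 * t) := by
  rw [ev_conj, div_eq_iff (ev_ne_zero _), ev_mul]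
  congr 1
  ring

theorem ev_pow (t : ℝ) (n : ℕ) : ev t ^ n = ev (n * t) := by
  unfold ev
  rw [← Complex.exp_nat_mul]
  congr 1
  push_cast
  ring

theorem ev_rat (q : ℚ) : ev (2 * (q * Real.pi)) ^ q.den = 1 := by
  rw [ev_pow]
  unfold ev
  rw [Complex.exp_eq_one_iff]
  refine ⟨q.num, ?_⟩
  have h : ((q.den : ℝ) * (2 * ((q : ℝ) * Real.pi))) = (q.num : ℝ) * (2 * Real.pi) := by
    have h1 : (q : ℝ) * (q.den : ℝ) = q.num := by
      exact_mod_cast Rat.mul_den_eq_num q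
    linear_combination (2 * Real.pi) * h1
  rw [h]
  push_cast
  ring

/-- a common power for finitely many rational mirrors -/
theorem exists_pow {S : Set ι} (hS : S.Finite) {w : ι → ℂ} (h : ∀ i ∈ S, ∃ n : ℕ, 0 < n ∧ w i ^ n = 1) :
    ∃ N : ℕ, 0 < N ∧ ∀ i ∈ S, w i ^ N = 1 := by
  classical
  choose! n hn hw using h
  refine ⟨∏ i ∈ hS.toFinset, n i, Finset.prod_pos fun i hi => hn i (hS.mem_toFinset.1 hi), ?_⟩
  intro i hi
  obtain ⟨k, hk⟩ := Finset.dvd_prod_of_mem n (hS.mem_toFinset.2 hi)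
  rw [hk, pow_mul, hw i hi, one_pow]

/-- the points of a mirror -/
theorem mem_seg_iff {c e y : ℂ} {l : ℝ} :
    y ∈ segment ℝ (c - l • e) (c + l • e) ↔ ∃ s : ℝ, |s| ≤ |l| ∧ y = c + s • e := by
  rw [segment_eq_image']
  constructor
  · rintro ⟨r, hr, rfl⟩
    refine ⟨(2 * r - 1) * l, ?_, ?_⟩
    · rw [abs_mul]
      have : |2 * r - 1| ≤ 1 := abs_le.2 ⟨by linarith [hr.1], by linarith [hr.2]⟩
      calc |2 * r - 1| * |l| ≤ 1 * |l| := mul_le_mul_of_nonneg_right this (abs_nonneg _)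
        _ = |l| := one_mul _
    · simp only [Complex.real_smul, Complex.ofReal_mul, Complex.ofReal_sub, Complex.ofReal_one,
        Complex.ofReal_ofNat]
      ring
  · rintro ⟨s, hs, rfl⟩
    rcases eq_or_ne l 0 with h | h
    · rw [h, abs_zero] at hs
      have : s = 0 := abs_eq_zero.1 (le_antisymm hs (abs_nonneg _))
      refine ⟨0, ⟨le_rfl, zero_le_one⟩, ?_⟩
      simp [h, this]
    · have h1 : |s / l| ≤ 1 := by
        rw [abs_div, div_le_one (abs_pos.2 h)]; exact hs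
      rw [abs_le] at h1
      refine ⟨(s / l + 1) / 2, ⟨by linarith [h1.1], by linarith [h1.2]⟩, ?_⟩
      have h2 : (l : ℂ) ≠ 0 := Complex.ofReal_ne_zero.2 h
      simp only [Complex.real_smul, Complex.ofReal_div, Complex.ofReal_add, Complex.ofReal_one,
        Complex.ofReal_ofNat]
      field_simp
      ring

/-- two non parallel lines meet at most once -/
theorem subsingleton_of_cr {c c' e e' : ℂ} {l l' : ℝ} (hcr : cr e e' ≠ 0) :
    (segment ℝ (c - l • e) (c + l • e) ∩ segment ℝ (c' - l' • e') (c' + l' • e')).Subsingleton := by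
  rintro y ⟨hy1, hy2⟩ z ⟨hz1, hz2⟩
  obtain ⟨s, -, hs⟩ := mem_seg_iff.1 hy1
  obtain ⟨t, -, ht⟩ := mem_seg_iff.1 hz1
  obtain ⟨s', -, hs'⟩ := mem_seg_iff.1 hy2
  obtain ⟨t', -, ht'⟩ := mem_seg_iff.1 hz2
  have h1 : (s - t) • e = (s' - t') • e' := by
    have : y - z = y - z := rfl
    rw [sub_smul, sub_smul]
    have e1 : s • e - t • e = y - z := by rw [hs, ht]; ring
    have e2 : s' • e' - t' • e' = y - z := by rw [hs', ht']; ring
    rw [e1, e2]
  have h2 : (s - t) * cr e e' = 0 := by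
    rw [← cr_smul_left, h1, cr_smul_left, cr_self, mul_zero]
  have h3 : s - t = 0 := (mul_eq_zero.1 h2).resolve_right hcr
  rw [hs, ht, sub_eq_zero.1 h3]

/-- the closed condition for two parallel mirrors -/
def PC (δ : ℝ) (e : ℂ) (D : ℂ) (l l' : ℝ) : Prop :=
  δ ≤ |cr e D| ∨ |l| + |l'| ≤ |(conj e * D).re|

theorem re_conj_smul {e : ℂ} (he : ‖e‖ = 1) (s : ℝ) : (conj e * (s • e)).re = s := by
  have h : conj e * (s • e) = (s : ℂ) := by
    rw [Complex.real_smul, mul_left_comm, ← Complex.normSq_eq_conj_mul_self,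
      Complex.normSq_eq_norm_sq, he]
    simp
  rw [h, Complex.ofReal_re]

theorem subsingleton_of_pc {δ : ℝ} (hδ : 0 < δ) {c c' e : ℂ} {l l' : ℝ} (he : ‖e‖ = 1)
    (hl : l ≠ 0) (h : PC δ e (c' - c) l l') :
    (segment ℝ (c - l • e) (c + l • e) ∩ segment ℝ (c' - l' • e) (c' + l' • e)).Subsingleton := by
  have hD : ∀ y, y ∈ segment ℝ (c - l • e) (c + l • e) →
      y ∈ segment ℝ (c' - l' • e) (c' + l' • e) → ∃ s s' : ℝ, |s| ≤ |l| ∧ |s'| ≤ |l'| ∧
        y = c + s • e ∧ c' - c = (s - s') • e := by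
    intro y hy1 hy2
    obtain ⟨s, hs0, hs⟩ := mem_seg_iff.1 hy1
    obtain ⟨s', hs0', hs'⟩ := mem_seg_iff.1 hy2
    refine ⟨s, s', hs0, hs0', hs, ?_⟩
    rw [sub_smul]
    have : c' = y - s' • e := by rw [hs']; ring
    rw [this, hs]; ring
  rintro y ⟨hy1, hy2⟩ z ⟨hz1, hz2⟩
  obtain ⟨s, s', hs, hs', hy, hc⟩ := hD y hy1 hy2
  obtain ⟨t, t', ht, ht', hz, hc'⟩ := hD z hz1 hz2
  rcases h with h | h
  · rw [hc, cr_smul_right, cr_self, mul_zero, abs_zero] at h
    linarith
  have h1 := h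
  rw [hc, re_conj_smul he] at h1
  have h2 := h
  rw [hc', re_conj_smul he] at h2
  have h3 : s - s' = t - t' := by
    have := re_conj_smul he (s - s')
    rw [← hc, hc', re_conj_smul he] at this
    exact this.symm
  have hl0 : 0 < |l| := abs_pos.2 hl
  have hl0' : 0 ≤ |l'| := abs_nonneg l'
  rw [abs_le] at hs hs' ht ht'
  have hst : s = t := by
    rcases abs_choice (s - s') with h4 | h4
    · rw [h4] at h1
      rw [← h3, h4] at h2
      linarith [hs.2, hs'.1, ht.2, ht'.1]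
    · rw [h4] at h1
      rw [← h3, h4] at h2
      linarith [hs.1, hs'.2, ht.1, ht'.2]
  rw [hy, hz, hst]

theorem pc_of_subsingleton {c c' e : ℂ} {l l' : ℝ} (he : ‖e‖ = 1) (hl : l ≠ 0) (hl' : l' ≠ 0)
    (h : (segment ℝ (c - l • e) (c + l • e) ∩
      segment ℝ (c' - l' • e) (c' + l' • e)).Subsingleton) :
    ∀ᶠ n : ℕ in atTop, PC (1 / ((n : ℝ) + 1)) e (c' - c) l l' := by
  by_cases hcr : cr e (c' - c) = 0
  · refine Filter.Eventually.of_forall fun n => Or.inr ?_
    by_contra hcon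
    push Not at hcon
    have hc := eq_smul_of_cr he hcr
    set D : ℝ := (conj e * (c' - c)).re with hD
    have hl0 : 0 < |l| := abs_pos.2 hl
    have hl0' : 0 < |l'| := abs_pos.2 hl'
    rw [abs_lt] at hcon
    set lo : ℝ := max (-|l|) (D - |l'|) with hlo
    set up : ℝ := min |l| (D + |l'|) with hup
    have hlt : lo < up := by
      rw [hlo, hup, max_lt_iff, lt_min_iff, lt_min_iff]
      refine ⟨⟨by linarith, by linarith [hcon.1]⟩, by linarith [hcon.2], by linarith⟩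
    have hin : ∀ s : ℝ, lo ≤ s → s ≤ up → c + s • e ∈ segment ℝ (c - l • e) (c + l • e) ∩
        segment ℝ (c' - l' • e) (c' + l' • e) := by
      intro s h1 h2
      have h3 := (le_max_left _ _).trans h1
      have h4 := (le_max_right _ _).trans h1
      have h5 := h2.trans (min_le_left _ _)
      have h6 := h2.trans (min_le_right _ _)
      refine ⟨mem_seg_iff.2 ⟨s, abs_le.2 ⟨h3, h5⟩, rfl⟩, mem_seg_iff.2 ⟨s - D, abs_le.2
        ⟨by linarith, by linarith⟩, ?_⟩⟩
      have : c' = c + D • e := by rw [← hc]; ring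
      rw [this, sub_smul]; ring
    have h1 := h (hin lo le_rfl hlt.le) (hin up hlt.le le_rfl)
    have h2 : lo • e = up • e := add_left_cancel h1
    have he0 : e ≠ 0 := by rw [← norm_pos_iff, he]; exact one_pos
    exact hlt.ne (smul_left_injective ℝ he0 h2)
  · have h1 : 0 < |cr e (c' - c)| := abs_pos.2 hcr
    have h2 := (tendsto_one_div_add_atTop_nhds_zero_nat (𝕜 := ℝ)).eventually_lt_const h1
    filter_upwards [h2] with n hn
    exact Or.inl hn.le

/-! ## Only the mirrors of `S` matter -/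

theorem Step.congr {a b a' b' : ι → ℂ} {S : Set ι} (hab : ∀ i ∈ S, a i = a' i ∧ b i = b' i)
    {o : Option ι} {x d : ℂ} {j : ι} {t : ℝ} (h : Step a b S o x d j t) :
    Step a' b' S o x d j t := by
  obtain ⟨h1, h2, h3, h4, h5, h6⟩ := h
  refine ⟨h1, h2, h3, ?_, ?_, ?_⟩
  · rw [← (hab j h2).1, ← (hab j h2).2]; exact h4
  · rw [← (hab j h2).1, ← (hab j h2).2]; exact h5
  · intro j' hj' ho hne τ hτ
    rw [← (hab j' hj').1, ← (hab j' hj').2]
    exact h6 j' hj' ho hne τ hτ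

theorem Esc.congr {a b a' b' : ι → ℂ} {S : Set ι} (hab : ∀ i ∈ S, a i = a' i ∧ b i = b' i)
    {o : Option ι} {x d : ℂ} (h : Esc a b S o x d) : Esc a' b' S o x d := by
  induction h with
  | free h =>
    refine Esc.free fun j hj ho τ hτ => ?_
    rw [← (hab j hj).1, ← (hab j hj).2]
    exact h j hj ho τ hτ
  | @step o x d j t h _ ih =>
    refine Esc.step (h.congr hab) ?_
    rw [← (hab j h.2.1).1, ← (hab j h.2.1).2]
    exact ih

theorem M_congr {a b a' b' : ι → ℂ} {S : Set ι} (hab : ∀ i ∈ S, a i = a' i ∧ b i = b' i) :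
    M a b S = M a' b' S := by
  ext y
  rw [mem_M, mem_M]
  constructor
  · rintro ⟨i, hi, h⟩
    exact ⟨i, hi, by rw [← (hab i hi).1, ← (hab i hi).2]; exact h⟩
  · rintro ⟨i, hi, h⟩
    exact ⟨i, hi, by rw [(hab i hi).1, (hab i hi).2]; exact h⟩

end Mirr
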