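import Pool.Agent.Lib.MP_669c56_pr.Esc

/-! # Finite families of mirrors with rational inclinations: all but countably many rays escape -/

set_option autoImplicit false

open Set Filter Topology ComplexConjugate

namespace Mirr

variable {ι : Type*} {a b : ι → ℂ} {S : Set ι}

theorem sing_countable (hS : S.Countable) (hpair : ∀ i ∈ S, ∀ j ∈ S, i ≠ j →
    (segment ℝ (a i) (b i) ∩ segment ℝ (a j) (b j)).Subsingleton) : (Sing a b S).Countable := by
  have h1 : Sing a b S ⊆ (⋃ i ∈ S, {a i, b i}) ∪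
      ⋃ i ∈ S, ⋃ j ∈ S, {p | i ≠ j ∧ p ∈ segment ℝ (a i) (b i) ∩ segment ℝ (a j) (b j)} := by
    rintro p (⟨i, hi, h⟩ | ⟨i, hi, j, hj, hij, h1, h2⟩)
    · left
      simp only [mem_iUnion]
      exact ⟨i, hi, h⟩
    · right
      simp only [mem_iUnion]
      exact ⟨i, hi, j, hj, hij, h1, h2⟩
  refine Set.Countable.mono h1 (Set.Countable.union ?_ ?_)
  · exact hS.biUnion fun i _ => (Set.toFinite _).countable
  · refine hS.biUnion fun i hi => hS.biUnion fun j hj => ?_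
    refine Set.Subsingleton.countable ?_
    rintro p ⟨hij, hp⟩ q ⟨_, hq⟩
    exact hpair i hi j hj hij hp hq

theorem sing_finite (hS : S.Finite) (hpair : ∀ i ∈ S, ∀ j ∈ S, i ≠ j →
    (segment ℝ (a i) (b i) ∩ segment ℝ (a j) (b j)).Subsingleton) : (Sing a b S).Finite := by
  have h1 : Sing a b S ⊆ (⋃ i ∈ S, {a i, b i}) ∪
      ⋃ i ∈ S, ⋃ j ∈ S, {p | i ≠ j ∧ p ∈ segment ℝ (a i) (b i) ∩ segment ℝ (a j) (b j)} := by
    rintro p (⟨i, hi, h⟩ | ⟨i, hi, j, hj, hij, h1, h2⟩)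
    · left
      simp only [mem_iUnion]
      exact ⟨i, hi, h⟩
    · right
      simp only [mem_iUnion]
      exact ⟨i, hi, j, hj, hij, h1, h2⟩
  refine Set.Finite.subset (Set.Finite.union ?_ ?_) h1
  · exact hS.biUnion fun i _ => Set.toFinite _
  · refine hS.biUnion fun i hi => hS.biUnion fun j hj => ?_
    refine Set.Subsingleton.finite ?_
    rintro p ⟨hij, hp⟩ q ⟨_, hq⟩
    exact hpair i hi j hj hij hp hq

/-- the directions reached from `u` -/
def Dset (N : ℕ) (u : ℂ) : Set ℂ :=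
  {z | ∃ ζ : ℂ, ζ ^ (2 * N) = 1 ∧ (z = ζ * u ∨ z = ζ * conj u)}

theorem roots_finite {n : ℕ} (hn : 0 < n) : {ζ : ℂ | ζ ^ n = 1}.Finite := by
  refine ((Polynomial.nthRoots n (1 : ℂ)).toFinset.finite_toSet).subset fun ζ hζ => ?_
  rw [Finset.mem_coe, Multiset.mem_toFinset, Polynomial.mem_nthRoots hn]
  exact hζ

theorem Dset_finite {N : ℕ} (hN : 0 < N) (u : ℂ) : (Dset N u).Finite := by
  have h := roots_finite (n := 2 * N) (by omega)
  refine ((h.image fun ζ => ζ * u).union (h.image fun ζ => ζ * conj u)).subset ?_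
  rintro z ⟨ζ, hζ, rfl | rfl⟩
  · exact Or.inl ⟨ζ, hζ, rfl⟩
  · exact Or.inr ⟨ζ, hζ, rfl⟩

theorem transBad_finite (hS : S.Finite) (hab : ∀ i ∈ S, a i ≠ b i) :
    {z : ℂ | ‖z‖ = 1 ∧ ∃ i ∈ S, cr (b i - a i) z = 0}.Finite := by
  have : {z : ℂ | ‖z‖ = 1 ∧ ∃ i ∈ S, cr (b i - a i) z = 0} ⊆
      ⋃ i ∈ S, {(‖b i - a i‖)⁻¹ • (b i - a i), -((‖b i - a i‖)⁻¹ • (b i - a i))} := by
    rintro z ⟨hz, i, hi, h⟩
    simp only [mem_iUnion]
    refine ⟨i, hi, ?_⟩
    have he : b i - a i ≠ 0 := sub_ne_zero.2 (hab i hi).symm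
    have hn : 0 < ‖b i - a i‖ := norm_pos_iff.2 he
    have h3 := eq_par (a := 0) (b := b i - a i) (y := z) (Ne.symm he) (by simpa using h)
    rw [zero_add, sub_zero] at h3
    set r := par 0 (b i - a i) z
    have h4 : |r| * ‖b i - a i‖ = 1 := by
      rw [← hz, h3, norm_smul, Real.norm_eq_abs]
    have h5 : |r| = (‖b i - a i‖)⁻¹ := eq_inv_of_mul_eq_one_left h4
    rcases abs_choice r with h6 | h6
    · left
      rw [← h5, h6]; exact h3
    · right
      show z = -((‖b i - a i‖)⁻¹ • (b i - a i))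
      rw [← h5, h6, neg_smul, neg_neg]; exact h3
  exact Set.Finite.subset (hS.biUnion fun i _ => Set.toFinite _) this

/-- the exceptional source directions -/
def BadU (a b : ι → ℂ) (S : Set ι) (N : ℕ) : Set ℂ :=
  {u | ∃ ζ : ℂ, ζ ^ (2 * N) = 1 ∧
    ((ζ * u ∈ BadDir a b S ∪ {z : ℂ | ‖z‖ = 1 ∧ ∃ i ∈ S, cr (b i - a i) z = 0}) ∨
     ζ * conj u ∈ BadDir a b S ∪ {z : ℂ | ‖z‖ = 1 ∧ ∃ i ∈ S, cr (b i - a i) z = 0})} ∪
  {u | ‖u‖ = 1 ∧ ∃ w : List ι, ∃ p ∈ Sing a b S, ∃ T : ℝ, 0 < T ∧ T • u = U a b w p}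

theorem hitSing_countable [Countable ι] (hSing : (Sing a b S).Countable) :
    {u : ℂ | ‖u‖ = 1 ∧ ∃ w : List ι, ∃ p ∈ Sing a b S, ∃ T : ℝ, 0 < T ∧
      T • u = U a b w p}.Countable := by
  have : {u : ℂ | ‖u‖ = 1 ∧ ∃ w : List ι, ∃ p ∈ Sing a b S, ∃ T : ℝ, 0 < T ∧ T • u = U a b w p} ⊆
      ⋃ (w : List ι), ⋃ p ∈ Sing a b S, {(‖U a b w p‖)⁻¹ • U a b w p} := by
    rintro u ⟨hu, w, p, hp, T, hT, h⟩
    simp only [mem_iUnion]
    exact ⟨w, p, hp, unit_unique hT hu h⟩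
  refine Countable.mono this ?_
  exact countable_iUnion fun w => hSing.biUnion fun p _ => countable_singleton _

theorem BadU_countable [Countable ι] (hS : S.Finite) (hab : ∀ i ∈ S, a i ≠ b i)
    (hSing : (Sing a b S).Countable) {N : ℕ} (hN : 0 < N) : (BadU a b S N).Countable := by
  have hB : (BadDir a b S ∪ {z : ℂ | ‖z‖ = 1 ∧ ∃ i ∈ S, cr (b i - a i) z = 0}).Countable :=
    (BadDir.countable hSing).union (transBad_finite hS hab).countable
  set B := BadDir a b S ∪ {z : ℂ | ‖z‖ = 1 ∧ ∃ i ∈ S, cr (b i - a i) z = 0}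
  refine Set.Countable.union ?_ (hitSing_countable hSing)
  have h1 : {u : ℂ | ∃ ζ : ℂ, ζ ^ (2 * N) = 1 ∧ (ζ * u ∈ B ∨ ζ * conj u ∈ B)} ⊆
      ⋃ ζ ∈ {ζ : ℂ | ζ ^ (2 * N) = 1}, ((fun u => ζ * u) ⁻¹' B ∪ (fun u => ζ * conj u) ⁻¹' B) := by
    rintro u ⟨ζ, hζ, h⟩
    simp only [mem_iUnion]
    exact ⟨ζ, hζ, h⟩
  refine Countable.mono h1 ?_
  refine (roots_finite (n := 2 * N) (by omega)).countable.biUnion fun ζ hζ => ?_
  have hζ0 : ζ ≠ 0 := by
    rintro rfl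
    rw [mem_ofPred_eq, zero_pow (by omega)] at hζ
    exact zero_ne_one hζ
  refine Set.Countable.union ?_ ?_
  · exact hB.preimage_of_injOn (fun u _ v _ h => mul_left_cancel₀ hζ0 h)
  · exact hB.preimage_of_injOn (fun u _ v _ h =>
      (starRingEnd ℂ).injective (mul_left_cancel₀ hζ0 h))

theorem goodD_of_notMem {N : ℕ} (hN : 0 < N)
    (hrat : ∀ i ∈ S, ((b i - a i) / conj (b i - a i)) ^ N = 1) {u : ℂ} (hu : ‖u‖ = 1)
    (hbad : u ∉ BadU a b S N) : GoodD a b S (Dset N u) where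
  fin := Dset_finite hN u
  unit := by
    rintro d ⟨ζ, hζ, h⟩
    have h1 : ‖ζ‖ = 1 := Complex.norm_eq_one_of_pow_eq_one hζ (by omega)
    rcases h with rfl | rfl
    · rw [norm_mul, h1, hu, one_mul]
    · rw [norm_mul, h1, Complex.norm_conj, hu, one_mul]
  trans := by
    rintro d ⟨ζ, hζ, h⟩ i hi hcr
    have h1 : ‖ζ‖ = 1 := Complex.norm_eq_one_of_pow_eq_one hζ (by omega)
    apply hbad
    left
    rcases h with rfl | rfl
    · exact ⟨ζ, hζ, Or.inl (Or.inr ⟨by rw [norm_mul, h1, hu, one_mul], i, hi, hcr⟩)⟩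
    · exact ⟨ζ, hζ, Or.inr (Or.inr ⟨by rw [norm_mul, h1, Complex.norm_conj, hu, one_mul],
        i, hi, hcr⟩)⟩
  refl := by
    rintro d ⟨ζ, hζ, h⟩ i hi
    refine ⟨(b i - a i) / conj (b i - a i) * conj ζ, ?_, ?_⟩
    · rw [mul_pow, pow_mul', hrat i hi, one_pow, one_mul, ← map_pow, hζ, map_one]
    · rcases h with rfl | rfl
      · right
        simp only [Mirr.refl, map_mul]; ring
      · left
        simp only [Mirr.refl, map_mul, Complex.conj_conj]; ring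
  neg := by
    rintro d ⟨ζ, hζ, h⟩
    refine ⟨-ζ, by rw [Even.neg_pow (even_two_mul N), hζ], ?_⟩
    rcases h with rfl | rfl
    · left; ring
    · right; ring
  good := by
    rintro d ⟨ζ, hζ, h⟩ hd
    apply hbad
    left
    rcases h with rfl | rfl
    · exact ⟨ζ, hζ, Or.inl (Or.inl hd)⟩
    · exact ⟨ζ, hζ, Or.inr (Or.inl hd)⟩

/-- a state of the flight with its unfolding -/
structure RS (ι : Type*) where
  o : Option ι
  x : ℂ
  d : ℂ
  w : List ι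
  T : ℝ

/-- the invariant of the states which do not escape -/
def RP (a b : ι → ℂ) (S : Set ι) (D : Set ℂ) (u : ℂ) (σ : RS ι) : Prop :=
  Start a b S σ.o σ.x σ.d ∧ σ.d ∈ D ∧ U a b σ.w σ.x = σ.T • u ∧ L a b σ.w σ.d = u ∧ 0 ≤ σ.T ∧
    ¬ Esc a b S σ.o σ.x σ.d

theorem RP.next (hS : S.Finite) (hab : ∀ i ∈ S, a i ≠ b i) {D : Set ℂ} (hD : GoodD a b S D) {u : ℂ}
    (hbad : ∀ (w : List ι) (p : ℂ) (T : ℝ), p ∈ Sing a b S → 0 < T → T • u ≠ U a b w p)
    {σ : RS ι} (h : RP a b S D u σ) : ∃ (σ' : RS ι) (j : ι) (t : ℝ), RP a b S D u σ' ∧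
      Step a b S σ.o σ.x σ.d j t ∧ σ'.o = some j ∧ σ'.x = σ.x + t • σ.d ∧
        σ'.d = refl (b j - a j) σ.d := by
  obtain ⟨hs, hd, hU, hL, hT, hE⟩ := h
  rcases trichotomy hS (hD.trans _ hd) hs with h | ⟨j, t, h⟩ | ⟨t, ht, h⟩
  · exact absurd (Esc.free fun j hj ho τ hτ => h τ hτ j hj ho) hE
  · have hj := h.2.1
    have he : b j - a j ≠ 0 := sub_ne_zero.2 (hab j hj).symm
    refine ⟨⟨some j, σ.x + t • σ.d, refl (b j - a j) σ.d, σ.w ++ [j], σ.T + t⟩, j, t,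
      ⟨h.start hab hs, hD.refl _ hd _ hj, ?_, ?_, ?_, ?_⟩, h, rfl, rfl, rfl⟩
    · show U a b (σ.w ++ [j]) (σ.x + t • σ.d) = (σ.T + t) • u
      rw [U_concat, rf_of_line (hab j hj)
        (cr_of_mem (hab j hj) (openSegment_subset_segment ℝ _ _ h.2.2.2.1)), U_add, hU, L_smul, hL,
        add_smul]
    · show L a b (σ.w ++ [j]) (refl (b j - a j) σ.d) = u
      rw [L_concat, refl_refl he, hL]
    · show 0 ≤ σ.T + t
      linarith [h.1]
    · exact fun hE' => hE (Esc.step h hE')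
  · exfalso
    refine hbad σ.w _ (σ.T + t) h (by linarith) ?_
    rw [U_add, hU, L_smul, hL, add_smul]

/-- all source directions off a countable set escape -/
theorem Esc.of_notMem [Countable ι] (hS : S.Finite) (hab : ∀ i ∈ S, a i ≠ b i)
    (hpair : ∀ i ∈ S, ∀ j ∈ S, i ≠ j →
      (segment ℝ (a i) (b i) ∩ segment ℝ (a j) (b j)).Subsingleton) {N : ℕ} (hN : 0 < N)
    (hrat : ∀ i ∈ S, ((b i - a i) / conj (b i - a i)) ^ N = 1) (h0 : (0 : ℂ) ∉ M a b S)
    (hunb : ¬ Bornology.IsBounded (connectedComponentIn (M a b S)ᶜ 0)) {u : ℂ} (hu : ‖u‖ = 1)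
    (hbad : u ∉ BadU a b S N) : Esc a b S none 0 u := by
  by_contra hE
  have hD := goodD_of_notMem hN hrat hu hbad
  have hbad' : ∀ (w : List ι) (p : ℂ) (T : ℝ), p ∈ Sing a b S → 0 < T → T • u ≠ U a b w p := by
    intro w p T hp hT h
    exact hbad (Or.inr ⟨hu, w, p, hp, T, hT, h⟩)
  have hstart : RP a b S (Dset N u) u ⟨none, 0, u, [], 0⟩ := by
    refine ⟨h0, ⟨1, one_pow _, Or.inl (one_mul u).symm⟩, ?_, rfl, le_rfl, hE⟩
    show (0 : ℂ) = (0 : ℝ) • u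
    rw [zero_smul]
  have hnext : ∀ σ : {σ : RS ι // RP a b S (Dset N u) u σ}, ∃ (σ' : {σ : RS ι //
      RP a b S (Dset N u) u σ}) (j : ι) (t : ℝ), Step a b S σ.1.o σ.1.x σ.1.d j t ∧
        σ'.1.o = some j ∧ σ'.1.x = σ.1.x + t • σ.1.d ∧ σ'.1.d = refl (b j - a j) σ.1.d := by
    rintro ⟨σ, hσ⟩
    obtain ⟨σ', j, t, h1, h2⟩ := hσ.next hS hab hD hbad'
    exact ⟨⟨σ', h1⟩, j, t, h2⟩
  choose nx j t hnx using hnext
  set σ : ℕ → {σ : RS ι // RP a b S (Dset N u) u σ} := fun n => nx^[n] ⟨_, hstart⟩ with hσ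
  have hσs : ∀ k, σ (k + 1) = nx (σ k) := fun k => Function.iterate_succ_apply' _ _ _
  have hσ0 : (σ 0).1 = ⟨none, 0, u, [], 0⟩ := rfl
  have htraj : IsTraj a b S (fun k => (σ k).1.x) (fun k => (σ k).1.d) (fun k => j (σ k))
      (fun k => t (σ k)) := by
    refine ⟨h0, ?_, ?_, ?_, ?_⟩
    · exact (hnx (σ 0)).1
    · intro k
      have h1 := (hnx (σ (k + 1))).1
      have h2 := (hnx (σ k)).2.1
      rw [← hσs k] at h2
      rw [h2] at h1
      exact h1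
    · intro k
      show (σ (k + 1)).1.x = _
      rw [hσs k]
      exact (hnx (σ k)).2.2.1
    · intro k
      show (σ (k + 1)).1.d = _
      rw [hσs k]
      exact (hnx (σ k)).2.2.2
  exact htraj.false hS hab (sing_finite hS hpair) hD (fun k => (σ k).2.2.1) rfl hunb

theorem angle_countable {C : Set ℂ} (hC : C.Countable) :
    {α : ℝ | Complex.exp (α * Complex.I) ∈ C}.Countable := by
  have h1 : {α : ℝ | Complex.exp (α * Complex.I) ∈ C} ⊆
      ⋃ u ∈ C, {α : ℝ | Complex.exp (α * Complex.I) = u} := by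
    intro α hα
    simp only [mem_iUnion]
    exact ⟨_, hα, rfl⟩
  refine Countable.mono h1 (hC.biUnion fun u _ => ?_)
  rcases Set.eq_empty_or_nonempty {α : ℝ | Complex.exp (α * Complex.I) = u} with h | ⟨α₀, h₀⟩
  · rw [h]; exact Set.countable_empty
  · refine (Set.countable_range fun n : ℤ => α₀ + n * (2 * Real.pi)).mono ?_
    intro α hα
    have h2 : Complex.exp (α * Complex.I) = Complex.exp (α₀ * Complex.I) := by
      rw [mem_ofPred_eq] at hα h₀
      rw [hα, h₀]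
    obtain ⟨n, hn⟩ := Complex.exp_eq_exp_iff_exists_int.1 h2
    refine ⟨n, ?_⟩
    have h3 : ((α : ℂ)) = α₀ + n * (2 * Real.pi) := by
      have : (α : ℂ) * Complex.I = (α₀ + n * (2 * Real.pi)) * Complex.I := by rw [hn]; ring
      exact mul_right_cancel₀ Complex.I_ne_zero this
    have h4 : ((α₀ + n * (2 * Real.pi) : ℝ) : ℂ) = α := by rw [h3]; push_cast; ring
    exact Complex.ofReal_injective h4

theorem norm_exp_angle (α : ℝ) : ‖Complex.exp (α * Complex.I)‖ = 1 :=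
  Complex.norm_exp_ofReal_mul_I α

/-- Finite families with rational inclinations: all angles but countably many escape. -/
theorem rational_escape [Countable ι] (hS : S.Finite) (hab : ∀ i ∈ S, a i ≠ b i)
    (hpair : ∀ i ∈ S, ∀ j ∈ S, i ≠ j →
      (segment ℝ (a i) (b i) ∩ segment ℝ (a j) (b j)).Subsingleton) {N : ℕ} (hN : 0 < N)
    (hrat : ∀ i ∈ S, ((b i - a i) / conj (b i - a i)) ^ N = 1) (h0 : (0 : ℂ) ∉ M a b S)
    (hunb : ¬ Bornology.IsBounded (connectedComponentIn (M a b S)ᶜ 0)) :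
    {α : ℝ | ¬ Esc a b S none 0 (Complex.exp (α * Complex.I))}.Countable := by
  refine (angle_countable (BadU_countable hS hab (sing_finite hS hpair).countable hN)).mono ?_
  intro α hα
  by_contra hcon
  exact hα (Esc.of_notMem hS hab hpair hN hrat h0 hunb (norm_exp_angle α) hcon)

end Mirr
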