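import Pool.Agent.Lib.MP_669c56_pr.Basic

/-! # Robustness of regular hits -/

set_option autoImplicit false

open Set Filter Topology ComplexConjugate

namespace Mirr

theorem avoid_robust {P : Type*} [TopologicalSpace P] {q0 : P} {A B X D : P → ℂ} {T : P → ℝ}
    (hA : ContinuousAt A q0) (hB : ContinuousAt B q0) (hX : ContinuousAt X q0)
    (hD : ContinuousAt D q0) (hT : ContinuousAt T q0) (hT0 : 0 ≤ T q0)
    (h : ∀ τ ∈ Icc 0 (T q0), X q0 + τ • D q0 ∉ segment ℝ (A q0) (B q0)) :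
    ∀ᶠ q in 𝓝 q0, ∀ τ ∈ Icc 0 (T q), X q + τ • D q ∉ segment ℝ (A q) (B q) := by
  have hK : IsCompact (Icc (0 : ℝ) 1 ×ˢ Icc (0 : ℝ) 1) := isCompact_Icc.prod isCompact_Icc
  have h1 : ∀ᶠ q in 𝓝 q0, ∀ p ∈ Icc (0 : ℝ) 1 ×ˢ Icc (0 : ℝ) 1,
      X q + (p.1 * T q) • D q - (A q + p.2 • (B q - A q)) ≠ 0 := by
    refine hK.eventually_forall_of_forall_eventually (P := fun q p =>
      X q + (p.1 * T q) • D q - (A q + p.2 • (B q - A q)) ≠ 0) fun p hp => ?_
    have hc : ContinuousAt (fun z : P × (ℝ × ℝ) => X z.1 + (z.2.1 * T z.1) • D z.1 -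
        (A z.1 + z.2.2 • (B z.1 - A z.1))) (q0, p) := by
      have e1 : ContinuousAt (fun z : P × (ℝ × ℝ) => z.1) (q0, p) := continuousAt_fst
      have hX' : ContinuousAt (fun z : P × (ℝ × ℝ) => X z.1) (q0, p) :=
        ContinuousAt.comp (f := fun z : P × (ℝ × ℝ) => z.1) (g := X) hX e1
      have hA' : ContinuousAt (fun z : P × (ℝ × ℝ) => A z.1) (q0, p) :=
        ContinuousAt.comp (f := fun z : P × (ℝ × ℝ) => z.1) (g := A) hA e1
      have hB' : ContinuousAt (fun z : P × (ℝ × ℝ) => B z.1) (q0, p) :=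
        ContinuousAt.comp (f := fun z : P × (ℝ × ℝ) => z.1) (g := B) hB e1
      have hD' : ContinuousAt (fun z : P × (ℝ × ℝ) => D z.1) (q0, p) :=
        ContinuousAt.comp (f := fun z : P × (ℝ × ℝ) => z.1) (g := D) hD e1
      have hT' : ContinuousAt (fun z : P × (ℝ × ℝ) => T z.1) (q0, p) :=
        ContinuousAt.comp (f := fun z : P × (ℝ × ℝ) => z.1) (g := T) hT e1
      have h21 : ContinuousAt (fun z : P × (ℝ × ℝ) => z.2.1) (q0, p) := by fun_prop
      have h22 : ContinuousAt (fun z : P × (ℝ × ℝ) => z.2.2) (q0, p) := by fun_prop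
      exact (hX'.add ((h21.mul hT').smul hD')).sub (hA'.add (h22.smul (hB'.sub hA')))
    refine hc.eventually_ne ?_
    intro h0
    simp only at h0
    refine h (p.1 * T q0) ⟨mul_nonneg hp.1.1 hT0, ?_⟩ ?_
    · calc p.1 * T q0 ≤ 1 * T q0 := mul_le_mul_of_nonneg_right hp.1.2 hT0
        _ = T q0 := one_mul _
    · rw [sub_eq_zero.1 h0, segment_eq_image']
      exact ⟨p.2, hp.2, rfl⟩
  filter_upwards [h1] with q hq τ hτ hmem
  rw [segment_eq_image'] at hmem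
  obtain ⟨μ, hμ, hμe⟩ := hmem
  rcases eq_or_lt_of_le (hτ.1.trans hτ.2) with h0 | h0
  · have hτ0 : τ = 0 := le_antisymm (by rw [h0]; exact hτ.2) hτ.1
    refine hq (0, μ) ⟨⟨le_rfl, zero_le_one⟩, hμ⟩ ?_
    simp only at hμe ⊢
    rw [hμe, hτ0, zero_mul, sub_self]
  · refine hq (τ / T q, μ) ⟨⟨div_nonneg hτ.1 h0.le, (div_le_one h0).2 hτ.2⟩, hμ⟩ ?_
    simp only at hμe ⊢
    rw [hμe, div_mul_cancel₀ _ h0.ne', sub_self]

theorem norm_le_of_segment {a b y : ℂ} {C : ℝ} (ha : ‖a‖ ≤ C) (hb : ‖b‖ ≤ C)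
    (hy : y ∈ segment ℝ a b) : ‖y‖ ≤ C := by
  have h : segment ℝ a b ⊆ Metric.closedBall (0 : ℂ) C :=
    (convex_closedBall (0 : ℂ) C).segment_subset (by simpa using ha) (by simpa using hb)
  simpa using h hy

theorem free_robust {P : Type*} [TopologicalSpace P] {q0 : P} {A B X D : P → ℂ}
    (hA : ContinuousAt A q0) (hB : ContinuousAt B q0) (hX : ContinuousAt X q0)
    (hD : ContinuousAt D q0) (hD0 : D q0 ≠ 0)
    (h : ∀ τ : ℝ, 0 ≤ τ → X q0 + τ • D q0 ∉ segment ℝ (A q0) (B q0)) :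
    ∀ᶠ q in 𝓝 q0, ∀ τ : ℝ, 0 ≤ τ → X q + τ • D q ∉ segment ℝ (A q) (B q) := by
  set C : ℝ := max ‖A q0‖ ‖B q0‖ + 1 with hC
  have hδ : 0 < ‖D q0‖ := norm_pos_iff.2 hD0
  set T0 : ℝ := (C + ‖X q0‖ + 1) / (‖D q0‖ / 2) with hT0
  have hC0 : 0 < C := by
    have : 0 ≤ max ‖A q0‖ ‖B q0‖ := le_max_of_le_left (norm_nonneg _)
    linarith
  have hT0' : 0 ≤ T0 := by positivity
  have h1 := avoid_robust hA hB hX hD (T := fun _ => T0) continuousAt_const hT0'
    fun τ hτ => h τ hτ.1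
  have eA : ∀ᶠ q in 𝓝 q0, ‖A q‖ < C :=
    hA.norm.eventually_lt continuousAt_const (by have := le_max_left ‖A q0‖ ‖B q0‖; linarith)
  have eB : ∀ᶠ q in 𝓝 q0, ‖B q‖ < C :=
    hB.norm.eventually_lt continuousAt_const (by have := le_max_right ‖A q0‖ ‖B q0‖; linarith)
  have eX : ∀ᶠ q in 𝓝 q0, ‖X q‖ < ‖X q0‖ + 1 :=
    hX.norm.eventually_lt continuousAt_const (by linarith)
  have eD : ∀ᶠ q in 𝓝 q0, ‖D q0‖ / 2 < ‖D q‖ :=
    continuousAt_const.eventually_lt hD.norm (by linarith)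
  filter_upwards [h1, eA, eB, eX, eD] with q h1 hA hB hX hD τ hτ hmem
  rcases le_or_gt τ T0 with hle | hlt
  · exact h1 τ ⟨hτ, hle⟩ hmem
  · have k1 := norm_le_of_segment hA.le hB.le hmem
    have k2 : τ * ‖D q‖ ≤ ‖X q + τ • D q‖ + ‖X q‖ := by
      have e : τ • D q = (X q + τ • D q) - X q := by abel
      calc τ * ‖D q‖ = ‖τ • D q‖ := by rw [norm_smul, Real.norm_eq_abs, abs_of_nonneg hτ]
        _ = ‖(X q + τ • D q) - X q‖ := by rw [← e]
        _ ≤ _ := norm_sub_le _ _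
    have k3 : C + ‖X q0‖ + 1 < τ * (‖D q0‖ / 2) := by
      rw [hT0, div_lt_iff₀ (by positivity)] at hlt
      exact hlt
    have k4 : τ * (‖D q0‖ / 2) ≤ τ * ‖D q‖ := mul_le_mul_of_nonneg_left hD.le hτ
    linarith

variable {ι : Type*}

/-- the time at which the ray from `x` meets the line of the mirror `j` -/
noncomputable def hitT (a b : ι → ℂ) (x d : ℂ) (j : ι) : ℝ :=
  cr (b j - a j) (a j - x) / cr (b j - a j) d

/-- parameters: end points, position, direction -/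
abbrev Par (ι : Type*) := (ι → ℂ) × (ι → ℂ) × ℂ × ℂ

/-- the position is on the line of the start mirror -/
def OnL (o : Option ι) (q : Par ι) : Prop :=
  ∀ i, o = some i → cr (q.2.1 i - q.1 i) (q.2.2.1 - q.1 i) = 0

variable {a b : ι → ℂ} {S : Set ι}

theorem Step.time {o : Option ι} {x d : ℂ} {j : ι} {t : ℝ} (hab : ∀ i ∈ S, a i ≠ b i)
    (h : Step a b S o x d j t) : t = hitT a b x d j := by
  have h1 := cr_of_mem (hab j h.2.1) (openSegment_subset_segment ℝ _ _ h.2.2.2.1)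
  rw [hitT, eq_div_iff h.2.2.2.2.1]
  rw [cr_sub_right, cr_add_right, cr_smul_right] at h1
  rw [cr_sub_right]
  linarith

theorem openSegment_robust {P : Type*} [TopologicalSpace P] {q0 : P} {A B Y : P → ℂ}
    (hA : ContinuousAt A q0) (hB : ContinuousAt B q0) (hY : ContinuousAt Y q0)
    (hne : A q0 ≠ B q0) (h : Y q0 ∈ openSegment ℝ (A q0) (B q0)) :
    ∀ᶠ q in 𝓝 q0, cr (B q - A q) (Y q - A q) = 0 → Y q ∈ openSegment ℝ (A q) (B q) := by
  have hc : ContinuousAt (fun q => par (A q) (B q) (Y q)) q0 := by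
    unfold par
    refine ContinuousAt.div ?_ ?_ ?_
    · exact Complex.continuous_re.continuousAt.comp
        ((Complex.continuous_conj.continuousAt.comp (hB.sub hA)).mul (hY.sub hA))
    · exact Complex.continuous_normSq.continuousAt.comp (hB.sub hA)
    · simpa [Complex.normSq_eq_zero, sub_eq_zero] using hne.symm
  have h' := (mem_openSegment_iff hne).1 h
  have e1 : ∀ᶠ q in 𝓝 q0, 0 < par (A q) (B q) (Y q) :=
    continuousAt_const.eventually_lt hc h'.2.1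
  have e2 : ∀ᶠ q in 𝓝 q0, par (A q) (B q) (Y q) < 1 :=
    hc.eventually_lt continuousAt_const h'.2.2
  have e3 : ∀ᶠ q in 𝓝 q0, B q - A q ≠ 0 :=
    (hB.sub hA).eventually_ne (sub_ne_zero.2 hne.symm)
  filter_upwards [e1, e2, e3] with q h1 h2 h3 h4
  exact (mem_openSegment_iff (sub_ne_zero.1 h3).symm).2 ⟨h4, h1, h2⟩

theorem continuousAt_hitT {x d : ℂ} {j : ι} (hd : cr (b j - a j) d ≠ 0) :
    ContinuousAt (fun q : Par ι => hitT q.1 q.2.1 q.2.2.1 q.2.2.2 j) (a, b, x, d) := by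
  unfold hitT
  refine ContinuousAt.div ?_ ?_ hd
  · fun_prop
  · fun_prop

/-- a regular hit persists -/
theorem step_open (hS : S.Finite) {o : Option ι} {x d : ℂ} {j : ι} {t : ℝ}
    (hab : ∀ i ∈ S, a i ≠ b i) (h : Step a b S o x d j t) :
    ∀ᶠ q : Par ι in 𝓝 (a, b, x, d),
      Step q.1 q.2.1 S o q.2.2.1 q.2.2.2 j (hitT q.1 q.2.1 q.2.2.1 q.2.2.2 j) := by
  have ht := h.time hab
  obtain ⟨ht0, hj, ho, hm, hd, hf⟩ := h
  have hc := continuousAt_hitT (x := x) hd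
  have c1 : ContinuousAt (fun q : Par ι => q.1 j) (a, b, x, d) := by fun_prop
  have c2 : ContinuousAt (fun q : Par ι => q.2.1 j) (a, b, x, d) := by fun_prop
  have c3 : ContinuousAt (fun q : Par ι => q.2.2.1) (a, b, x, d) := by fun_prop
  have c4 : ContinuousAt (fun q : Par ι => q.2.2.2) (a, b, x, d) := by fun_prop
  have e1 : ∀ᶠ q : Par ι in 𝓝 (a, b, x, d), 0 < hitT q.1 q.2.1 q.2.2.1 q.2.2.2 j :=
    continuousAt_const.eventually_lt hc (by show (0 : ℝ) < hitT a b x d j; rwa [← ht])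
  have e2 : ∀ᶠ q : Par ι in 𝓝 (a, b, x, d), cr (q.2.1 j - q.1 j) q.2.2.2 ≠ 0 :=
    (ContinuousAt.cr (c2.sub c1) c4).eventually_ne hd
  have e3 := openSegment_robust (Y := fun q : Par ι => q.2.2.1 +
    hitT q.1 q.2.1 q.2.2.1 q.2.2.2 j • q.2.2.2) c1 c2 (c3.add (hc.smul c4)) (hab j hj)
    (by show x + hitT a b x d j • d ∈ _; rwa [← ht])
  have e4 : ∀ᶠ q : Par ι in 𝓝 (a, b, x, d), ∀ j' ∈ S, o ≠ some j' → j' ≠ j →
      ∀ τ ∈ Icc 0 (hitT q.1 q.2.1 q.2.2.1 q.2.2.2 j),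
        q.2.2.1 + τ • q.2.2.2 ∉ segment ℝ (q.1 j') (q.2.1 j') := by
    rw [Filter.eventually_all_finite hS]
    intro j' hj'
    by_cases hcon : o ≠ some j' ∧ j' ≠ j
    · have c1' : ContinuousAt (fun q : Par ι => q.1 j') (a, b, x, d) := by fun_prop
      have c2' : ContinuousAt (fun q : Par ι => q.2.1 j') (a, b, x, d) := by fun_prop
      have := avoid_robust c1' c2' c3 c4 hc
        (by show 0 ≤ hitT a b x d j; rw [← ht]; exact ht0.le)
        (by
          intro τ hτ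
          refine hf j' hj' hcon.1 hcon.2 τ ⟨hτ.1, ?_⟩
          rw [ht]; exact hτ.2)
      filter_upwards [this] with q hq _ _
      exact hq
    · exact Filter.Eventually.of_forall fun q h1 h2 => absurd ⟨h1, h2⟩ hcon
  filter_upwards [e1, e2, e3, e4] with q h1 h2 h3 h4
  refine ⟨h1, hj, ho, h3 ?_, h2, h4⟩
  rw [cr_sub_right, cr_add_right, cr_smul_right]
  have : hitT q.1 q.2.1 q.2.2.1 q.2.2.2 j * cr (q.2.1 j - q.1 j) q.2.2.2 =
      cr (q.2.1 j - q.1 j) (q.1 j - q.2.2.1) := by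
    rw [hitT, div_mul_cancel₀ _ h2]
  rw [this, cr_sub_right]
  ring

/-- a regular start persists -/
theorem start_open (hS : S.Finite) {o : Option ι} {x d : ℂ}
    (hab : ∀ i ∈ S, a i ≠ b i) (h : Start a b S o x d) :
    ∀ᶠ q : Par ι in 𝓝 (a, b, x, d), OnL o q → Start q.1 q.2.1 S o q.2.2.1 q.2.2.2 := by
  have c3 : ContinuousAt (fun q : Par ι => q.2.2.1) (a, b, x, d) := by fun_prop
  have c4 : ContinuousAt (fun q : Par ι => q.2.2.2) (a, b, x, d) := by fun_prop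
  have key : ∀ j' ∈ S, x ∉ segment ℝ (a j') (b j') →
      ∀ᶠ q : Par ι in 𝓝 (a, b, x, d), q.2.2.1 ∉ segment ℝ (q.1 j') (q.2.1 j') := by
    intro j' hj' hx
    have c1' : ContinuousAt (fun q : Par ι => q.1 j') (a, b, x, d) := by fun_prop
    have c2' : ContinuousAt (fun q : Par ι => q.2.1 j') (a, b, x, d) := by fun_prop
    have := avoid_robust (T := fun _ : Par ι => (0 : ℝ)) c1' c2' c3 c4 continuousAt_const le_rfl
      (by
        intro τ hτ
        have : τ = 0 := le_antisymm hτ.2 hτ.1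
        rw [this, zero_smul, add_zero]
        exact hx)
    filter_upwards [this] with q hq
    have := hq 0 ⟨le_rfl, le_rfl⟩
    rwa [zero_smul, add_zero] at this
  cases o with
  | none =>
    have h' : ∀ j' ∈ S, x ∉ segment ℝ (a j') (b j') := fun j' hj' h1 => h (mem_M.2 ⟨j', hj', h1⟩)
    have e : ∀ᶠ q : Par ι in 𝓝 (a, b, x, d), ∀ j' ∈ S, q.2.2.1 ∉ segment ℝ (q.1 j') (q.2.1 j') := by
      rw [Filter.eventually_all_finite hS]
      exact fun j' hj' => key j' hj' (h' j' hj')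
    filter_upwards [e] with q hq _
    show q.2.2.1 ∉ M q.1 q.2.1 S
    rw [mem_M]
    rintro ⟨i, hi, hx⟩
    exact hq i hi hx
  | some i =>
    obtain ⟨⟨hi, hx, hj⟩, hd⟩ := h
    have c1 : ContinuousAt (fun q : Par ι => q.1 i) (a, b, x, d) := by fun_prop
    have c2 : ContinuousAt (fun q : Par ι => q.2.1 i) (a, b, x, d) := by fun_prop
    have e1 := openSegment_robust (Y := fun q : Par ι => q.2.2.1) c1 c2 c3 (hab i hi) hx
    have e2 : ∀ᶠ q : Par ι in 𝓝 (a, b, x, d), cr (q.2.1 i - q.1 i) q.2.2.2 ≠ 0 :=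
      (ContinuousAt.cr (c2.sub c1) c4).eventually_ne hd
    have e3 : ∀ᶠ q : Par ι in 𝓝 (a, b, x, d), ∀ j' ∈ S, j' ≠ i →
        q.2.2.1 ∉ segment ℝ (q.1 j') (q.2.1 j') := by
      rw [Filter.eventually_all_finite hS]
      intro j' hj'
      by_cases hji : j' = i
      · exact Filter.Eventually.of_forall fun q h1 => absurd hji h1
      · filter_upwards [key j' hj' (hj j' hj' hji)] with q hq _
        exact hq
    filter_upwards [e1, e2, e3] with q h1 h2 h3 h4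
    exact ⟨⟨hi, h1 (h4 i rfl), h3⟩, h2⟩

end Mirr
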