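import Pool.Agent.Lib.MP_669c56_pr.Basic

/-! # Unfolding: words of reflections and the countable set of bad directions -/

set_option autoImplicit false

open Set Filter Topology ComplexConjugate

namespace Mirr

variable {ι : Type*}

/-- the reflection in the line of the mirror `j` -/
noncomputable def rf (a b : ι → ℂ) (j : ι) (z : ℂ) : ℂ := a j + refl (b j - a j) (z - a j)

/-- the composite of the reflections of a word -/
noncomputable def U (a b : ι → ℂ) : List ι → ℂ → ℂ
  | [], z => z
  | j :: w, z => rf a b j (U a b w z)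

/-- its linear part -/
noncomputable def L (a b : ι → ℂ) : List ι → ℂ → ℂ
  | [], z => z
  | j :: w, z => refl (b j - a j) (L a b w z)

variable {a b : ι → ℂ}

theorem rf_add (j : ι) (z v : ℂ) : rf a b j (z + v) = rf a b j z + refl (b j - a j) v := by
  simp only [rf]
  rw [show z + v - a j = (z - a j) + v by ring, refl_add]
  ring

theorem U_add (w : List ι) (z v : ℂ) : U a b w (z + v) = U a b w z + L a b w v := by
  induction w with
  | nil => rfl
  | cons j w ih => simp only [U, L]; rw [ih, rf_add]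

theorem L_add (w : List ι) (z v : ℂ) : L a b w (z + v) = L a b w z + L a b w v := by
  induction w with
  | nil => rfl
  | cons j w ih => simp only [L]; rw [ih, refl_add]

theorem L_smul (w : List ι) (t : ℝ) (v : ℂ) : L a b w (t • v) = t • L a b w v := by
  induction w with
  | nil => rfl
  | cons j w ih => simp only [L]; rw [ih, refl_smul]

theorem U_concat (w : List ι) (j : ι) (z : ℂ) : U a b (w ++ [j]) z = U a b w (rf a b j z) := by
  induction w with
  | nil => rfl
  | cons i w ih => simp only [List.cons_append, U]; rw [ih]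

theorem L_concat (w : List ι) (j : ι) (z : ℂ) :
    L a b (w ++ [j]) z = L a b w (refl (b j - a j) z) := by
  induction w with
  | nil => rfl
  | cons i w ih => simp only [List.cons_append, L]; rw [ih]

/-- a point of the line is fixed -/
theorem rf_of_line {j : ι} (hab : a j ≠ b j) {z : ℂ} (hz : cr (b j - a j) (z - a j) = 0) :
    rf a b j z = z := by
  rw [rf, refl_of_cr (sub_ne_zero.2 hab.symm) hz]
  ring

theorem L_form (w : List ι) :
    ∃ c : ℂ, (∀ z, L a b w z = c * z) ∨ ∀ z, L a b w z = c * conj z := by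
  induction w with
  | nil => exact ⟨1, Or.inl fun z => by simp [L]⟩
  | cons j w ih =>
    obtain ⟨c, h | h⟩ := ih
    · refine ⟨(b j - a j) / conj (b j - a j) * conj c, Or.inr fun z => ?_⟩
      simp only [L, h, refl, map_mul]
      ring
    · refine ⟨(b j - a j) / conj (b j - a j) * conj c, Or.inl fun z => ?_⟩
      simp only [L, h, refl, map_mul, Complex.conj_conj]
      ring

/-- the bad directions: saddle connections, and directions of periodic orbits -/
def BadDir (a b : ι → ℂ) (S : Set ι) : Set ℂ :=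
  {d | ‖d‖ = 1 ∧ ((∃ w w' : List ι, ∃ p ∈ Sing a b S, ∃ q ∈ Sing a b S, ∃ T : ℝ, 0 < T ∧
    U a b w' p + T • d = U a b w q) ∨
    ∃ (w w' : List ι) (T : ℝ) (x e : ℂ), 0 < T ∧ ‖e‖ = 1 ∧ L a b w e = d ∧ L a b w' e = d ∧
      U a b w x + T • d = U a b w' x)}

theorem unit_unique {c d : ℂ} {T : ℝ} (hT : 0 < T) (hd : ‖d‖ = 1) (h : T • d = c) :
    d = (‖c‖)⁻¹ • c := by
  have hc : ‖c‖ = T := by rw [← h, norm_smul, hd, mul_one, Real.norm_eq_abs, abs_of_pos hT]
  rw [hc, ← h, smul_smul, inv_mul_cancel₀ hT.ne', one_smul]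

theorem sq_finite (c : ℂ) : {z : ℂ | z ^ 2 = c}.Finite := by
  by_cases h : ∃ z : ℂ, z ^ 2 = c
  · obtain ⟨z, hz⟩ := h
    refine (Set.toFinite ({z, -z} : Set ℂ)).subset fun y hy => ?_
    have : y ^ 2 = z ^ 2 := by rw [hz]; exact hy
    rcases sq_eq_sq_iff_eq_or_eq_neg.1 this with h | h
    · exact Or.inl h
    · exact Or.inr h
  · have : {z : ℂ | z ^ 2 = c} = ∅ := by
      ext z
      simp only [mem_ofPred_eq, mem_empty_iff_false, iff_false]
      exact fun hz => h ⟨z, hz⟩
    rw [this]
    exact Set.finite_empty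

theorem periodic_finite (w w' : List ι) :
    {d : ℂ | ‖d‖ = 1 ∧ ∃ (T : ℝ) (x e : ℂ), 0 < T ∧ ‖e‖ = 1 ∧ L a b w e = d ∧ L a b w' e = d ∧
      U a b w x + T • d = U a b w' x}.Finite := by
  obtain ⟨c, hc⟩ := L_form (a := a) (b := b) w
  obtain ⟨c', hc'⟩ := L_form (a := a) (b := b) w'
  refine (((Set.finite_singleton ((‖U a b w' 0 - U a b w 0‖)⁻¹ •
    (U a b w' 0 - U a b w 0))).union (sq_finite (c' / conj c))).union
      (sq_finite (c / conj c'))).subset ?_
  rintro d ⟨hd, T, x, e, hT, he, h1, h2, h3⟩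
  have he0 : e ≠ 0 := by rintro rfl; simp at he
  have hd0 : d ≠ 0 := by rintro rfl; simp at hd
  have hce0 : conj e ≠ 0 := (map_ne_zero (starRingEnd ℂ)).2 he0
  have hdd : d * conj d = 1 := by
    rw [Complex.mul_conj, Complex.normSq_eq_norm_sq, hd]; simp
  have same : (∀ z, L a b w z = L a b w' z) →
      d = (‖U a b w' 0 - U a b w 0‖)⁻¹ • (U a b w' 0 - U a b w 0) := by
    intro hL
    refine unit_unique hT hd ?_
    have e1 := U_add (a := a) (b := b) w 0 x
    have e2 := U_add (a := a) (b := b) w' 0 x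
    rw [zero_add] at e1 e2
    rw [e1, e2, hL x] at h3
    linear_combination h3
  rcases hc with hc | hc <;> rcases hc' with hc' | hc'
  · left; left
    refine same fun z => ?_
    have : c = c' := by
      have : c * e = c' * e := by rw [← hc, ← hc', h1, h2]
      exact mul_right_cancel₀ he0 this
    rw [hc, hc', this]
  · left; right
    show d ^ 2 = c' / conj c
    rw [hc] at h1
    rw [hc'] at h2
    have hcc : conj c ≠ 0 := by
      rw [map_ne_zero]
      rintro rfl
      rw [zero_mul] at h1
      exact hd0 h1.symm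
    have h4 : conj c * conj e = conj d := by rw [← map_mul, h1]
    rw [eq_div_iff hcc]
    have h5 : d * (conj c * conj e) = 1 := by rw [h4, hdd]
    calc d ^ 2 * conj c = d ^ 2 * conj c * (d * (conj c * conj e)) / (d * (conj c * conj e)) := by
          rw [h5]; simp
      _ = c' := by
          rw [h5, div_one, mul_one]
          have : d * conj c * conj e = 1 := by rw [mul_assoc, h5]
          have h6 : d ^ 2 * conj c * conj e = d := by
            calc d ^ 2 * conj c * conj e = d * (d * conj c * conj e) := by ring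
              _ = d := by rw [this, mul_one]
          have h7 : d ^ 2 * conj c * conj e = c' * conj e := by rw [h6, h2]
          exact mul_right_cancel₀ hce0 h7
  · right
    show d ^ 2 = c / conj c'
    rw [hc] at h1
    rw [hc'] at h2
    have hcc : conj c' ≠ 0 := by
      rw [map_ne_zero]
      rintro rfl
      rw [zero_mul] at h2
      exact hd0 h2.symm
    have h4 : conj c' * conj e = conj d := by rw [← map_mul, h2]
    rw [eq_div_iff hcc]
    have h5 : d * (conj c' * conj e) = 1 := by rw [h4, hdd]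
    have h6 : d ^ 2 * conj c' * conj e = d := by
      calc d ^ 2 * conj c' * conj e = d * (d * (conj c' * conj e)) := by ring
        _ = d := by rw [h5, mul_one]
    have h7 : d ^ 2 * conj c' * conj e = c * conj e := by rw [h6, h1]
    exact mul_right_cancel₀ hce0 h7
  · left; left
    refine same fun z => ?_
    have : c = c' := by
      have : c * conj e = c' * conj e := by rw [← hc, ← hc', h1, h2]
      exact mul_right_cancel₀ hce0 this
    rw [hc, hc', this]

theorem BadDir.countable [Countable ι] {S : Set ι} (hSing : (Sing a b S).Countable) :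
    (BadDir a b S).Countable := by
  have h1 : {d : ℂ | ‖d‖ = 1 ∧ ∃ w w' : List ι, ∃ p ∈ Sing a b S, ∃ q ∈ Sing a b S,
      ∃ T : ℝ, 0 < T ∧ U a b w' p + T • d = U a b w q}.Countable := by
    have : {d : ℂ | ‖d‖ = 1 ∧ ∃ w w' : List ι, ∃ p ∈ Sing a b S, ∃ q ∈ Sing a b S,
      ∃ T : ℝ, 0 < T ∧ U a b w' p + T • d = U a b w q} ⊆
      ⋃ (w : List ι) (w' : List ι), ⋃ p ∈ Sing a b S, ⋃ q ∈ Sing a b S,
        {(‖U a b w q - U a b w' p‖)⁻¹ • (U a b w q - U a b w' p)} := by
      rintro d ⟨hd, w, w', p, hp, q, hq, T, hT, h⟩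
      simp only [mem_iUnion]
      refine ⟨w, w', p, hp, q, hq, ?_⟩
      exact unit_unique hT hd (by rw [← h]; ring)
    refine Countable.mono this ?_
    refine countable_iUnion fun w => countable_iUnion fun w' => ?_
    exact hSing.biUnion fun p _ => hSing.biUnion fun q _ => countable_singleton _
  have h2 : {d : ℂ | ‖d‖ = 1 ∧ ∃ (w w' : List ι) (T : ℝ) (x e : ℂ), 0 < T ∧ ‖e‖ = 1 ∧
      L a b w e = d ∧ L a b w' e = d ∧ U a b w x + T • d = U a b w' x}.Countable := by
    have : {d : ℂ | ‖d‖ = 1 ∧ ∃ (w w' : List ι) (T : ℝ) (x e : ℂ), 0 < T ∧ ‖e‖ = 1 ∧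
      L a b w e = d ∧ L a b w' e = d ∧ U a b w x + T • d = U a b w' x} ⊆
      ⋃ (w : List ι) (w' : List ι), {d : ℂ | ‖d‖ = 1 ∧ ∃ (T : ℝ) (x e : ℂ), 0 < T ∧ ‖e‖ = 1 ∧
        L a b w e = d ∧ L a b w' e = d ∧ U a b w x + T • d = U a b w' x} := by
      rintro d ⟨hd, w, w', h⟩
      simp only [mem_iUnion]
      exact ⟨w, w', hd, h⟩
    refine Countable.mono this ?_
    exact countable_iUnion fun w => countable_iUnion fun w' => (periodic_finite w w').countable
  refine (h1.union h2).mono ?_
  rintro d ⟨hd, h | h⟩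
  · exact Or.inl ⟨hd, h⟩
  · exact Or.inr ⟨hd, h⟩

end Mirr
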