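import Pool.Agent.Lib.MP_669c56_pr.Robust
import Pool.Agent.Lib.MP_669c56_pr.Words

/-! # Invariant sets have no one sided gaps (strip argument) -/

set_option autoImplicit false

open Set Filter Topology ComplexConjugate

namespace Mirr

variable {ι : Type*} {a b : ι → ℂ} {S : Set ι}

/-- A bounded set of phase points off the mirrors, invariant under the flight in both directions and
under regular reflections in both directions. -/
structure Inv (a b : ι → ℂ) (S : Set ι) (K : ℂ → Set ℂ) : Prop where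
  off : ∀ d, ∀ z ∈ K d, z ∉ M a b S
  bdd : ∃ B : ℝ, ∀ d, ∀ z ∈ K d, ‖z‖ ≤ B
  flight : ∀ d z (T : ℝ), z ∈ K d → (∀ τ ∈ uIcc 0 T, z + τ • d ∉ M a b S) → z + T • d ∈ K d
  bounce : ∀ j y d, Reg a b S j y → cr (b j - a j) d ≠ 0 →
    ((∃ δ : ℝ, 0 < δ ∧ ∀ τ ∈ Ioo 0 δ, y - τ • d ∈ K d) ↔
      ∃ δ : ℝ, 0 < δ ∧ ∀ τ ∈ Ioo 0 δ, y + τ • refl (b j - a j) d ∈ K (refl (b j - a j) d))

/-- time reversal -/
theorem Inv.rev {K : ℂ → Set ℂ} (hab : ∀ i ∈ S, a i ≠ b i) (h : Inv a b S K) :
    Inv a b S (fun d => K (-d)) where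
  off := fun d z hz => h.off (-d) z hz
  bdd := by
    obtain ⟨B, hB⟩ := h.bdd
    exact ⟨B, fun d z hz => hB (-d) z hz⟩
  flight := by
    intro d z T hz hf
    have := h.flight (-d) z (-T) hz (by
      intro τ hτ
      have h1 := hf (-τ) (by
        rw [mem_uIcc] at hτ ⊢
        rcases hτ with h | h
        · right; constructor <;> linarith [h.1, h.2]
        · left; constructor <;> linarith [h.1, h.2])
      rwa [neg_smul, ← smul_neg] at h1)
    rwa [neg_smul, smul_neg, neg_neg] at this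
  bounce := by
    intro j y d hy hd
    have he := sub_ne_zero.2 (hab j hy.1).symm
    have h1 := h.bounce j y (-refl (b j - a j) d) hy (by
      rw [cr_neg_right, cr_refl he, neg_neg]; exact hd)
    rw [refl_neg, refl_refl he] at h1
    simp only [smul_neg, sub_neg_eq_add, ← sub_eq_add_neg] at h1
    exact h1.symm

/-- membership of the state: off the mirrors, or leaving the mirror -/
def InK (K : ℂ → Set ℂ) : Option ι → ℂ → ℂ → Prop
  | none, y, d => y ∈ K d
  | some _, y, d => ∃ δ : ℝ, 0 < δ ∧ ∀ τ ∈ Ioo 0 δ, y + τ • d ∈ K d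

theorem Inv.all_of_one {K : ℂ → Set ℂ} (hK : Inv a b S K) {y d : ℂ} {t τ₁ : ℝ}
    (hf : ∀ τ ∈ Ioo 0 t, y + τ • d ∉ M a b S) (h₁ : τ₁ ∈ Ioo 0 t) (h : y + τ₁ • d ∈ K d) :
    ∀ τ ∈ Ioo 0 t, y + τ • d ∈ K d := by
  intro τ hτ
  have h1 := hK.flight d _ (τ - τ₁) h (by
    intro τ' hτ'
    have e : y + τ₁ • d + τ' • d = y + (τ₁ + τ') • d := by rw [add_smul]; ring
    rw [e]
    refine hf _ ?_
    rw [mem_uIcc] at hτ'
    rcases hτ' with h | h
    · exact ⟨by linarith [h.1, h₁.1], by linarith [h.2, hτ.2]⟩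
    · exact ⟨by linarith [h.1, hτ.1], by linarith [h.2, h₁.2]⟩)
  have e : y + τ₁ • d + (τ - τ₁) • d = y + τ • d := by rw [sub_smul]; ring
  rwa [e] at h1

theorem Inv.step_mem {K : ℂ → Set ℂ} (hab : ∀ i ∈ S, a i ≠ b i) (hK : Inv a b S K)
    {o : Option ι} {y d : ℂ} {j : ι} {t : ℝ} (hs : Start a b S o y d)
    (h : Step a b S o y d j t) :
    InK K o y d ↔ InK K (some j) (y + t • d) (Mirr.refl (b j - a j) d) := by
  have hf : ∀ τ ∈ Ioo 0 t, y + τ • d ∉ M a b S := fun τ hτ => h.free hab hs hτ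
  have ht := h.1
  have hb := hK.bounce j (y + t • d) d (h.reg hab hs) h.2.2.2.2.1
  show InK K o y d ↔ ∃ δ : ℝ, 0 < δ ∧ ∀ τ ∈ Ioo 0 δ,
    y + t • d + τ • Mirr.refl (b j - a j) d ∈ K (Mirr.refl (b j - a j) d)
  rw [← hb]
  have hsub : ∀ τ : ℝ, y + t • d - τ • d = y + (t - τ) • d := fun τ => by rw [sub_smul]; ring
  constructor
  · intro h1
    have hall : ∀ τ ∈ Ioo 0 t, y + τ • d ∈ K d := by
      cases o with
      | none =>
        intro τ hτ
        refine hK.flight d y τ h1 fun τ' hτ' => ?_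
        rw [uIcc_of_le hτ.1.le] at hτ'
        rcases eq_or_lt_of_le hτ'.1 with h0 | h0
        · rw [← h0, zero_smul, add_zero]
          exact hs
        · exact hf τ' ⟨h0, by linarith [hτ'.2, hτ.2]⟩
      | some i =>
        obtain ⟨δ, hδ, h2⟩ := h1
        have hm : 0 < min δ t := lt_min hδ ht
        have h3 : min δ t / 2 ∈ Ioo 0 t := ⟨by positivity, by linarith [min_le_right δ t]⟩
        have h4 : min δ t / 2 ∈ Ioo 0 δ := ⟨by positivity, by linarith [min_le_left δ t]⟩
        exact hK.all_of_one hf h3 (h2 _ h4)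
    refine ⟨t, ht, fun τ hτ => ?_⟩
    rw [hsub]
    exact hall _ ⟨by linarith [hτ.2], by linarith [hτ.1]⟩
  · rintro ⟨δ, hδ, h2⟩
    have hm : 0 < min δ t := lt_min hδ ht
    have h4 : min δ t / 2 ∈ Ioo 0 δ := ⟨by positivity, by linarith [min_le_left δ t]⟩
    have h3 : t - min δ t / 2 ∈ Ioo 0 t := ⟨by linarith [min_le_right δ t], by linarith⟩
    have h5 := h2 _ h4
    rw [hsub] at h5
    cases o with
    | none =>
      have h6 := hK.flight d _ (-(t - min δ t / 2)) h5 (by
        intro τ' hτ'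
        have e : y + (t - min δ t / 2) • d + τ' • d = y + (t - min δ t / 2 + τ') • d := by
          rw [add_smul]; ring
        rw [e]
        rw [uIcc_of_ge (by linarith [h3.1])] at hτ'
        rcases eq_or_lt_of_le (show 0 ≤ t - min δ t / 2 + τ' by linarith [hτ'.1]) with h0 | h0
        · rw [← h0, zero_smul, add_zero]
          exact hs
        · exact hf _ ⟨h0, by linarith [hτ'.2, h3.2]⟩)
      have e : y + (t - min δ t / 2) • d + -(t - min δ t / 2) • d = y := by
        rw [neg_smul]; ring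
      rwa [e] at h6
    | some i => exact ⟨t, ht, hK.all_of_one hf h3 h5⟩

end Mirr
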