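import Pool.Agent.Lib.MP_669c56_pr.Strip

/-! # The strip argument -/

set_option autoImplicit false

open Set Filter Topology ComplexConjugate

namespace Mirr

variable {ι : Type*}

/-- state of the strip: mirror, position, direction, transversal vector, word, time, width -/
structure SS (ι : Type*) where
  o : Option ι
  x : ℂ
  d : ℂ
  v : ℂ
  w : List ι
  T : ℝ
  r : ℝ

structure PP (a b : ι → ℂ) (S : Set ι) (K : ℂ → Set ℂ) (D : Set ℂ) (z₀ d₀ : ℂ) (σ : SS ι) :
    Prop where
  start : Start a b S σ.o σ.x σ.d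
  mem : InK K σ.o σ.x σ.d
  dir : σ.d ∈ D
  unf : z₀ + σ.T • d₀ = U a b σ.w σ.x
  lin : L a b σ.w σ.d = d₀
  T0 : 0 ≤ σ.T
  nv : cr σ.d σ.v = 1 ∨ cr σ.d σ.v = -1
  par : ∀ i, σ.o = some i → cr (b i - a i) σ.v = 0
  r0 : 0 < σ.r
  gap : ∀ s ∈ Ioo 0 σ.r, Start a b S σ.o (σ.x + s • σ.v) σ.d ∧
    ¬ InK K σ.o (σ.x + s • σ.v) σ.d

structure RR (a b : ι → ℂ) (S : Set ι) (σ σ' : SS ι) : Prop where
  o : ∃ j ∈ S, σ'.o = some j
  T : σ.T < σ'.T
  r : σ'.r ≤ σ.r
  cut : σ'.r < σ.r → ∃ p ∈ Sing a b S, ∃ τ : ℝ, p = σ.x + σ'.r • σ.v + τ • σ.d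

theorem eq_smul_of_cr {d u : ℂ} (hd : ‖d‖ = 1) (h : cr d u = 0) : u = (conj d * u).re • d := by
  have h1 : (conj d * u).im = 0 := by rw [← cr_eq_im, h]
  have h2 : conj d * u = ((conj d * u).re : ℂ) := by
    apply Complex.ext
    · simp
    · rw [h1]; simp
  have h3 : d * conj d = 1 := by rw [Complex.mul_conj, Complex.normSq_eq_norm_sq, hd]; simp
  rw [Complex.real_smul, ← h2]
  calc u = (d * conj d) * u := by rw [h3, one_mul]
    _ = _ := by ring

theorem vec_eq {e d v : ℂ} {c : ℝ} (he : e ≠ 0) (hde : cr d e ≠ 0) (h : cr e v = 0)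
    (hc : cr d v = c) : v = (c / cr d e) • e := by
  have h1 := eq_par (a := 0) (b := e) (y := v) (Ne.symm he) (by simpa using h)
  rw [zero_add, sub_zero] at h1
  set μ := Mirr.par 0 e v with hμ
  rw [h1, cr_smul_right] at hc
  rw [← hc, mul_div_assoc, div_self hde, mul_one]
  exact h1

theorem end_mem {X : Type*} [TopologicalSpace X] {C : Set X} (hC : IsClosed C) {f : ℝ → X}
    (hf : Continuous f) {s : ℝ} (hs : 0 < s) (h : ∀ s' ∈ Ioo 0 s, f s' ∈ C) : f s ∈ C := by
  have h1 : closure (Ioo 0 s) ⊆ f ⁻¹' C := closure_minimal h (hC.preimage hf)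
  rw [closure_Ioo hs.ne] at h1
  exact h1 ⟨hs.le, le_rfl⟩

theorem next {a b : ι → ℂ} {S : Set ι} {K : ℂ → Set ℂ} {D : Set ℂ} {z₀ d₀ : ℂ} (hS : S.Finite)
    (hab : ∀ i ∈ S, a i ≠ b i) (hK : Inv a b S K) (hD1 : ∀ d ∈ D, ‖d‖ = 1)
    (hDt : ∀ d ∈ D, ∀ i ∈ S, cr (b i - a i) d ≠ 0)
    (hDr : ∀ d ∈ D, ∀ i ∈ S, refl (b i - a i) d ∈ D)
    (hns : ∀ (w : List ι) (p : ℂ) (T : ℝ), p ∈ Sing a b S → 0 < T → z₀ + T • d₀ ≠ U a b w p)
    {σ : SS ι} (h : PP a b S K D z₀ d₀ σ) : ∃ σ', PP a b S K D z₀ d₀ σ' ∧ RR a b S σ σ' := by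
  obtain ⟨o, x, d, v, w, T, r⟩ := σ
  obtain ⟨hs, hmem, hd, hunf, hlin, hT, hnv, hpar, hr, hgap⟩ := h
  simp only at hs hmem hd hunf hlin hT hnv hpar hr hgap
  have hd1 := hD1 d hd
  rcases trichotomy hS (hDt d hd) hs with hfree | ⟨j, t, hst⟩ | ⟨t, ht, hsing⟩
  · -- escape is impossible
    exfalso
    obtain ⟨B, hB⟩ := hK.bdd
    obtain ⟨τ₁, hτ₁, hall⟩ : ∃ τ₁ : ℝ, 0 ≤ τ₁ ∧ ∀ τ, τ₁ ≤ τ → x + τ • d ∈ K d := by
      have hout : ∀ τ : ℝ, 0 < τ → x + τ • d ∉ M a b S := by
        intro τ hτ hm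
        obtain ⟨i, hi, hx⟩ := mem_M.1 hm
        by_cases ho : o = some i
        · exact notMem_start hab hs ho hτ.ne' hx
        · exact hfree τ hτ.le i hi ho hx
      cases o with
      | none =>
        refine ⟨0, le_rfl, fun τ hτ => hK.flight d x τ hmem fun τ' hτ' => ?_⟩
        rw [uIcc_of_le hτ] at hτ'
        rcases eq_or_lt_of_le hτ'.1 with h0 | h0
        · rw [← h0, zero_smul, add_zero]; exact hs
        · exact hout τ' h0
      | some i =>
        obtain ⟨δ, hδ, h2⟩ := hmem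
        refine ⟨δ / 2, by positivity, fun τ hτ => ?_⟩
        have h3 := hK.flight d _ (τ - δ / 2) (h2 (δ / 2) ⟨by positivity, by linarith⟩) (by
          intro τ' hτ'
          rw [uIcc_of_le (by linarith)] at hτ'
          have e : x + (δ / 2) • d + τ' • d = x + (δ / 2 + τ') • d := by rw [add_smul]; ring
          rw [e]
          exact hout _ (by linarith [hτ'.1]))
        have e : x + (δ / 2) • d + (τ - δ / 2) • d = x + τ • d := by rw [sub_smul]; ring
        rwa [e] at h3
    have hB0 : 0 ≤ B := (norm_nonneg _).trans (hB d _ (hall τ₁ le_rfl))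
    have h1 := hB d _ (hall (τ₁ + B + ‖x‖ + 1) (by linarith [norm_nonneg x]))
    have h2 : ‖(τ₁ + B + ‖x‖ + 1) • d‖ ≤ ‖x + (τ₁ + B + ‖x‖ + 1) • d‖ + ‖x‖ := by
      have e : (τ₁ + B + ‖x‖ + 1) • d = (x + (τ₁ + B + ‖x‖ + 1) • d) - x := by ring
      calc ‖(τ₁ + B + ‖x‖ + 1) • d‖ = ‖(x + (τ₁ + B + ‖x‖ + 1) • d) - x‖ := by rw [← e]
        _ ≤ _ := norm_sub_le _ _
    rw [norm_smul, hd1, mul_one, Real.norm_eq_abs,
      abs_of_nonneg (by linarith [norm_nonneg x])] at h2
    linarith
  · -- a regular hit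
    have hj := hst.2.1
    have he : b j - a j ≠ 0 := sub_ne_zero.2 (hab j hj).symm
    set e := b j - a j with hedef
    have hced : cr e d ≠ 0 := hst.2.2.2.2.1
    have hcde : cr d e ≠ 0 := by rw [cr_comm]; exact neg_ne_zero.2 hced
    set v' : ℂ := (cr d v / cr d e) • e with hv'
    have hcv' : cr d v' = cr d v := by rw [hv', cr_smul_right, div_mul_cancel₀ _ hcde]
    have hev' : cr e v' = 0 := by rw [hv', cr_smul_right, cr_self, mul_zero]
    obtain ⟨κ, hκ⟩ : ∃ κ : ℝ, v' - v = κ • d :=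
      ⟨_, eq_smul_of_cr hd1 (by rw [cr_sub_right, hcv', sub_self])⟩
    have hpos : ∀ s : ℝ, x + s • v + (t + s * κ) • d = (x + t • d) + s • v' := by
      intro s
      have : v' = v + κ • d := by rw [← hκ]; ring
      rw [this]
      simp only [Complex.real_smul, Complex.ofReal_add, Complex.ofReal_mul]
      ring
    have hline0 : cr e (x + t • d - a j) = 0 :=
      cr_of_mem (hab j hj) (openSegment_subset_segment ℝ _ _ hst.2.2.2.1)
    have htime : ∀ (s t' : ℝ), Step a b S o (x + s • v) d j t' → t' = t + s * κ := by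
      intro s t' h'
      have h1 : cr e (x + s • v + t' • d - a j) = 0 :=
        cr_of_mem (hab j hj) (openSegment_subset_segment ℝ _ _ h'.2.2.2.1)
      have h2 : cr e (x + s • v + (t + s * κ) • d - a j) = 0 := by
        rw [hpos s, show x + t • d + s • v' - a j = (x + t • d - a j) + s • v' by ring,
          cr_add_right, hline0, cr_smul_right, hev']
        ring
      have := eq_of_line (t := t' - (t + s * κ)) hced h2 h1 (by rw [sub_smul]; ring)
      linarith
    have hopen : ∀ (s₀ : ℝ) (j' : ι) (t₀ : ℝ), Step a b S o (x + s₀ • v) d j' t₀ →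
        ∃ δ : ℝ, 0 < δ ∧ ∀ s, |s - s₀| < δ → ∃ t', Step a b S o (x + s • v) d j' t' := by
      intro s₀ j' t₀ h'
      have h1 := step_open hS hab h'
      have hc : Tendsto (fun s : ℝ => ((a, b, x + s • v, d) : Par ι)) (𝓝 s₀)
          (𝓝 (a, b, x + s₀ • v, d)) := by
        refine Continuous.tendsto ?_ s₀
        fun_prop
      obtain ⟨δ, hδ, h2⟩ := Metric.eventually_nhds_iff.1 (hc.eventually h1)
      exact ⟨δ, hδ, fun s hs => ⟨_, h2 (by rwa [Real.dist_eq])⟩⟩
    set W : Set ℝ := {ρ | ρ ≤ r ∧ 0 < ρ ∧ ∀ s ∈ Ioo 0 ρ, ∃ t', Step a b S o (x + s • v) d j t'}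
      with hW
    have hWne : W.Nonempty := by
      obtain ⟨δ, hδ, h1⟩ := hopen 0 j t (by rw [zero_smul, add_zero]; exact hst)
      refine ⟨min δ r, min_le_right _ _, lt_min hδ hr, fun s hs => h1 s ?_⟩
      rw [sub_zero, abs_of_pos hs.1]
      exact hs.2.trans_le (min_le_left _ _)
    have hWb : BddAbove W := ⟨r, fun ρ hρ => hρ.1⟩
    set r' := sSup W with hr'
    have hr'le : r' ≤ r := csSup_le hWne fun ρ hρ => hρ.1
    have hr'pos : 0 < r' := by
      obtain ⟨ρ, hρ⟩ := hWne
      exact hρ.2.1.trans_le (le_csSup hWb hρ)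
    have hstep : ∀ s ∈ Ioo 0 r', Step a b S o (x + s • v) d j (t + s * κ) := by
      intro s hs
      obtain ⟨ρ, hρ, hsρ⟩ := exists_lt_of_lt_csSup hWne hs.2
      obtain ⟨t', h1⟩ := hρ.2.2 s ⟨hs.1, hsρ⟩
      have := htime s t' h1
      rwa [← this]
    refine ⟨⟨some j, x + t • d, refl e d, v', w ++ [j], T + t, r'⟩, ?_, ?_⟩
    · refine ⟨hst.start hab hs, (hK.step_mem hab hs hst).1 hmem, hDr d hd j hj, ?_, ?_, ?_, ?_, ?_,
        hr'pos, ?_⟩
      · show z₀ + (T + t) • d₀ = U a b (w ++ [j]) (x + t • d)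
        rw [U_concat, rf_of_line (hab j hj) hline0, U_add, L_smul, hlin, ← hunf, add_smul]
        ring
      · show L a b (w ++ [j]) (refl e d) = d₀
        rw [L_concat, refl_refl he, hlin]
      · show 0 ≤ T + t
        linarith [hst.1]
      · show cr (refl e d) v' = 1 ∨ cr (refl e d) v' = -1
        have : cr (refl e d) v' = -cr d v := by
          conv_lhs => rw [← refl_of_cr he hev']
          rw [cr_refl_refl he, hcv']
        rw [this]
        rcases hnv with h | h <;> rw [h]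
        · right; rfl
        · left; norm_num
      · intro i hi
        simp only [Option.some.injEq] at hi
        subst hi
        exact hev'
      · intro s hs'
        have hg := hgap s ⟨hs'.1, hs'.2.trans_le hr'le⟩
        have h1 := hstep s hs'
        have h2 := h1.start hab hg.1
        have h3 := hK.step_mem hab hg.1 h1
        rw [hpos] at h2 h3
        exact ⟨h2, fun h4 => hg.2 (h3.2 h4)⟩
    · refine ⟨⟨j, hj, rfl⟩, by show T < T + t; linarith [hst.1], hr'le, fun hlt => ?_⟩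
      simp only at hlt
      have hg := hgap r' ⟨hr'pos, hlt⟩
      rcases trichotomy hS (hDt d hd) hg.1 with hfree | ⟨j', t', hst'⟩ | ⟨τ, hτ, hsing⟩
      · exfalso
        have h1 : 0 ≤ t + r' * κ := end_mem (C := Ici (0 : ℝ)) isClosed_Ici
          (f := fun s => t + s * κ) (by fun_prop) hr'pos fun s hs => (hstep s hs).1.le
        have h2 : (x + t • d) + r' • v' ∈ segment ℝ (a j) (b j) :=
          end_mem (C := segment ℝ (a j) (b j)) (isCompact_segment _ _).isClosed
            (f := fun s : ℝ => (x + t • d) + s • v') (by fun_prop) hr'pos fun s hs => by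
              have := (hstep s hs).2.2.2.1
              rw [hpos] at this
              exact openSegment_subset_segment ℝ _ _ this
        rw [← hpos] at h2
        exact hfree _ h1 j hj hst.2.2.1 h2
      · exfalso
        obtain ⟨δ, hδ, h1⟩ := hopen r' j' t' hst'
        have hjj : j' = j := by
          set s₁ : ℝ := max (r' / 2) (r' - δ / 2) with hs₁
          have k1 : s₁ < r' := max_lt (by linarith) (by linarith)
          have k2 : 0 < s₁ := lt_of_lt_of_le (by positivity) (le_max_left _ _)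
          have k3 : |s₁ - r'| < δ := by
            rw [abs_sub_comm, abs_of_pos (by linarith)]
            have := le_max_right (r' / 2) (r' - δ / 2)
            rw [← hs₁] at this
            linarith
          obtain ⟨t'', h2⟩ := h1 s₁ k3
          exact (h2.unique hab (hgap s₁ ⟨k2, k1.trans hlt⟩).1 (hstep s₁ ⟨k2, k1⟩)).1
        subst hjj
        have : min (r' + δ) r ∈ W := by
          refine ⟨min_le_right _ _, lt_min (by linarith) (by linarith), fun s hs => ?_⟩
          rcases lt_or_ge s r' with h3 | h3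
          · exact ⟨_, hstep s ⟨hs.1, h3⟩⟩
          · refine h1 s ?_
            rw [abs_of_nonneg (by linarith)]
            have := hs.2.trans_le (min_le_left _ _)
            linarith
        have h4 := le_csSup hWb this
        have h5 : r' < min (r' + δ) r := lt_min (by linarith) hlt
        linarith
      · exact ⟨_, hsing, τ, rfl⟩
  · exfalso
    refine hns w _ (T + t) hsing (by linarith) ?_
    rw [U_add, L_smul, hlin, ← hunf, add_smul]
    ring

end Mirr
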