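import Pool.Agent.Lib.MP_669c56_pr.Omega

/-! # No accumulation of hits; an infinite trajectory cannot start in the unbounded component -/

set_option autoImplicit false

open Set Filter Topology ComplexConjugate

namespace Mirr

variable {ι : Type*} {a b : ι → ℂ} {S : Set ι} {x d : ℕ → ℂ} {j : ℕ → ι} {t : ℕ → ℝ}

theorem sep (hS : S.Finite) {ε : ℝ} (hε : 0 < ε) :
    ∃ δ : ℝ, 0 < δ ∧ ∀ i ∈ S, ∀ j ∈ S, i ≠ j → ∀ x ∈ segment ℝ (a i) (b i),
      ∀ y ∈ segment ℝ (a j) (b j), ‖x - y‖ < δ → ∃ p ∈ Sing a b S, ‖x - p‖ < ε := by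
  have hpair : ∀ i ∈ S, ∀ j ∈ S, ∀ᶠ δ in 𝓝[>] (0 : ℝ), i ≠ j → ∀ x ∈ segment ℝ (a i) (b i),
      ∀ y ∈ segment ℝ (a j) (b j), ‖x - y‖ < δ → ∃ p ∈ Sing a b S, ‖x - p‖ < ε := by
    intro i hi j hj
    by_cases hij : i = j
    · exact Filter.Eventually.of_forall fun δ h => absurd hij h
    obtain ⟨δ₀, hδ₀, h0⟩ : ∃ δ₀ : ℝ, 0 < δ₀ ∧ ∀ x ∈ segment ℝ (a i) (b i),
        ∀ y ∈ segment ℝ (a j) (b j), ‖x - y‖ < δ₀ → ∃ p ∈ Sing a b S, ‖x - p‖ < ε := by
      set A : Set (ℂ × ℂ) := (segment ℝ (a i) (b i) ×ˢ segment ℝ (a j) (b j)) ∩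
        {z | ∀ p ∈ Sing a b S, ε ≤ ‖z.1 - p‖} with hA
      have hAc : IsCompact A := by
        refine ((isCompact_segment _ _).prod (isCompact_segment _ _)).inter_right ?_
        have : {z : ℂ × ℂ | ∀ p ∈ Sing a b S, ε ≤ ‖z.1 - p‖} =
            ⋂ p ∈ Sing a b S, {z : ℂ × ℂ | ε ≤ ‖z.1 - p‖} := by
          ext z; simp
        rw [this]
        exact isClosed_biInter fun p _ => isClosed_le continuous_const (by fun_prop)
      rcases A.eq_empty_or_nonempty with he | hne
      · refine ⟨1, one_pos, fun x hx y hy _ => ?_⟩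
        by_contra hcon
        push Not at hcon
        have : ((x, y) : ℂ × ℂ) ∈ A := ⟨⟨hx, hy⟩, hcon⟩
        rw [he] at this
        exact this
      · obtain ⟨z, hz, hmin⟩ := hAc.exists_isMinOn hne
          (f := fun z : ℂ × ℂ => ‖z.1 - z.2‖) (by fun_prop)
        have hpos : 0 < ‖z.1 - z.2‖ := by
          rw [norm_pos_iff, sub_ne_zero]
          intro h
          have h1 := hz.2 z.1 (Or.inr ⟨i, hi, j, hj, hij, hz.1.1, by rw [h]; exact hz.1.2⟩)
          rw [sub_self, norm_zero] at h1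
          linarith
        refine ⟨‖z.1 - z.2‖, hpos, fun x hx y hy hxy => ?_⟩
        by_contra hcon
        push Not at hcon
        have h1 : ((x, y) : ℂ × ℂ) ∈ A := ⟨⟨hx, hy⟩, hcon⟩
        have h2 := hmin h1
        simp only [mem_ofPred_eq] at h2
        linarith
    filter_upwards [Ioo_mem_nhdsGT hδ₀] with δ hδ _ x hx y hy hxy
    exact h0 x hx y hy (hxy.trans hδ.2)
  have h1 : ∀ᶠ δ in 𝓝[>] (0 : ℝ), ∀ i ∈ S, ∀ j ∈ S, i ≠ j → ∀ x ∈ segment ℝ (a i) (b i),
      ∀ y ∈ segment ℝ (a j) (b j), ‖x - y‖ < δ → ∃ p ∈ Sing a b S, ‖x - p‖ < ε := by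
    rw [Filter.eventually_all_finite hS]
    intro i hi
    rw [Filter.eventually_all_finite hS]
    exact fun j hj => hpair i hi j hj
  obtain ⟨δ, h2, h3⟩ := (h1.and self_mem_nhdsWithin).exists
  exact ⟨δ, h3, h2⟩

theorem finite_sep {F : Set ℂ} (hF : F.Finite) :
    ∃ ρ : ℝ, 0 < ρ ∧ ∀ p ∈ F, ∀ q ∈ F, ‖p - q‖ < ρ → p = q := by
  have h1 : ∀ᶠ ρ in 𝓝[>] (0 : ℝ), ∀ p ∈ F, ∀ q ∈ F, ‖p - q‖ < ρ → p = q := by
    rw [Filter.eventually_all_finite hF]
    intro p hp
    rw [Filter.eventually_all_finite hF]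
    intro q hq
    by_cases h : p = q
    · exact Filter.Eventually.of_forall fun _ _ => h
    · have : 0 < ‖p - q‖ := norm_pos_iff.2 (sub_ne_zero.2 h)
      filter_upwards [Ioo_mem_nhdsGT this] with ρ hρ h2
      exact absurd h2 (not_lt.2 hρ.2.le)
  obtain ⟨ρ, h2, h3⟩ := (h1.and self_mem_nhdsWithin).exists
  exact ⟨ρ, h3, h2⟩

theorem IsTraj.notZeno (h : IsTraj a b S x d j t) (hS : S.Finite) (hab : ∀ i ∈ S, a i ≠ b i)
    (hSing : (Sing a b S).Finite) (hd : ∀ k, ‖d k‖ = 1) :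
    ∃ ε : ℝ, 0 < ε ∧ ∀ N, ∃ k, N ≤ k ∧ ε ≤ t k := by
  by_contra hcon
  push Not at hcon
  have hz : ∀ ε : ℝ, 0 < ε → ∃ N, ∀ k, N ≤ k → t k < ε := hcon
  obtain ⟨ρ, hρ, hsing⟩ := finite_sep hSing
  have hnorm : ∀ k, ‖x (k + 1) - x k‖ = t k := by
    intro k
    rw [h.xs, add_sub_cancel_left, norm_smul, hd, mul_one, Real.norm_eq_abs,
      abs_of_pos (h.tpos k)]
  have hnear : ∀ ε : ℝ, 0 < ε → ∃ N, 1 ≤ N ∧ ∀ k, N ≤ k → ∃ p ∈ Sing a b S, ‖x k - p‖ < ε := by
    intro ε hε
    obtain ⟨δ, hδ, h1⟩ := sep (a := a) (b := b) hS hε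
    obtain ⟨N, hN⟩ := hz δ hδ
    refine ⟨N + 1, by omega, fun k hk => ?_⟩
    obtain ⟨m, rfl⟩ := Nat.exists_eq_add_of_le' (show 1 ≤ k by omega)
    have k1 := (h.starts hab m).1
    have k2 := (h.starts hab (m + 1)).1
    refine h1 (j m) k1.1 (j (m + 1)) k2.1 (fun h2 => (h.step m).2.2.1 (by rw [h2])) _
      (openSegment_subset_segment ℝ _ _ k1.2.1) _ (openSegment_subset_segment ℝ _ _ k2.2.1) ?_
    rw [norm_sub_rev, hnorm]
    exact hN _ (by omega)
  -- convergence to a singular point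
  obtain ⟨p, hp, hconv⟩ : ∃ p ∈ Sing a b S, ∀ ε : ℝ, 0 < ε → ∃ N, ∀ k, N ≤ k → ‖x k - p‖ < ε := by
    obtain ⟨N₀, hN₀, h0⟩ := hnear (ρ / 4) (by positivity)
    obtain ⟨N₁, hN₁⟩ := hz (ρ / 4) (by positivity)
    choose! p hp using h0
    set N := max N₀ N₁ with hN
    have hpp : ∀ k, N ≤ k → p k = p N := by
      intro k hk
      induction k, hk using Nat.le_induction with
      | base => rfl
      | succ k hk ih =>
        rw [← ih]
        have hk0 : N₀ ≤ k := (le_max_left _ _).trans hk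
        have hk1 : N₁ ≤ k := (le_max_right _ _).trans hk
        refine hsing _ (hp (k + 1) (by omega)).1 _ (hp k hk0).1 ?_
        have h1 := (hp (k + 1) (by omega)).2
        have h2 := (hp k hk0).2
        have h3 := hN₁ k hk1
        rw [← hnorm k] at h3
        calc ‖p (k + 1) - p k‖ = ‖-(x (k + 1) - p (k + 1)) + (x (k + 1) - x k) + (x k - p k)‖ := by
              congr 1; ring
          _ ≤ ‖-(x (k + 1) - p (k + 1))‖ + ‖x (k + 1) - x k‖ + ‖x k - p k‖ := norm_add₃_le
          _ < ρ := by rw [norm_neg]; linarith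
    refine ⟨p N, (hp N (le_max_left _ _)).1, fun ε hε => ?_⟩
    obtain ⟨N', hN', h1⟩ := hnear (min ε (ρ / 4)) (by positivity)
    refine ⟨max N N', fun k hk => ?_⟩
    have hkN : N ≤ k := (le_max_left _ _).trans hk
    obtain ⟨p', hp', h2⟩ := h1 k ((le_max_right _ _).trans hk)
    have h3 := (hp k ((le_max_left _ _).trans hkN)).2
    rw [hpp k hkN] at h3
    have h4 : p' = p N := by
      refine hsing _ hp' _ (hp N (le_max_left _ _)).1 ?_
      have h5 := h2.trans_le (min_le_right _ _)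
      calc ‖p' - p N‖ = ‖-(x k - p') + (x k - p N)‖ := by congr 1; ring
        _ ≤ ‖-(x k - p')‖ + ‖x k - p N‖ := norm_add_le _ _
        _ < ρ := by rw [norm_neg]; linarith
    rw [← h4]
    exact h2.trans_le (min_le_left _ _)
  -- all late mirrors contain `p`
  obtain ⟨N, hN⟩ : ∃ N, ∀ k, N ≤ k → p ∈ segment ℝ (a (j k)) (b (j k)) := by
    have h1 : ∀ᶠ k in atTop, ∀ i ∈ S, p ∉ segment ℝ (a i) (b i) → j k ≠ i := by
      rw [Filter.eventually_all_finite hS]
      intro i hi
      by_cases hpi : p ∈ segment ℝ (a i) (b i)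
      · exact Filter.Eventually.of_forall fun _ h => absurd hpi h
      · obtain ⟨r, hr, hb⟩ := Metric.isOpen_iff.1 (isCompact_segment (a i) (b i)).isClosed.isOpen_compl
          p hpi
        obtain ⟨N, hN⟩ := hconv r hr
        filter_upwards [eventually_ge_atTop N] with k hk _ hjk
        have h2 := (h.starts hab k).1
        have h3 : x (k + 1) ∈ (segment ℝ (a i) (b i))ᶜ := hb (by
          rw [Metric.mem_ball, dist_eq_norm]; exact hN _ (by omega))
        rw [← hjk] at h3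
        exact h3 (openSegment_subset_segment ℝ _ _ h2.2.1)
    obtain ⟨N, hN⟩ := Filter.eventually_atTop.1 h1
    refine ⟨N, fun k hk => ?_⟩
    by_contra hcon
    exact hN k hk (j k) ((h.starts hab k).1.1) hcon rfl
  have hline : ∀ k, N ≤ k → cr (b (j k) - a (j k)) (x (k + 1) - p) = 0 := by
    intro k hk
    have h1 := (h.starts hab k).1
    have h2 := cr_of_mem (hab _ h1.1) (openSegment_subset_segment ℝ _ _ h1.2.1)
    have h3 := cr_of_mem (hab _ h1.1) (hN k hk)
    rw [show x (k + 1) - p = (x (k + 1) - a (j k)) - (p - a (j k)) by ring, cr_sub_right, h2, h3,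
      sub_self]
  have hconst : ∀ k, N ≤ k → |cr (x (k + 1) - p) (d (k + 1))| = |cr (x k - p) (d k)| := by
    intro k hk
    have h1 := (h.starts hab k).1
    have he : b (j k) - a (j k) ≠ 0 := sub_ne_zero.2 (hab _ h1.1).symm
    have h2 : cr (x (k + 1) - p) (d (k + 1)) = -cr (x (k + 1) - p) (d k) := by
      conv_lhs => rw [← refl_of_cr he (hline k hk), h.ds k]
      exact cr_refl_refl he _ _
    have h3 : cr (x (k + 1) - p) (d k) = cr (x k - p) (d k) := by
      rw [h.xs k, show x k + t k • d k - p = (x k - p) + t k • d k by ring, cr_add_left,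
        cr_smul_left, cr_self]
      ring
    rw [h2, h3, abs_neg]
  have hconst' : ∀ k, N ≤ k → |cr (x k - p) (d k)| = |cr (x N - p) (d N)| := by
    intro k hk
    induction k, hk using Nat.le_induction with
    | base => rfl
    | succ k hk ih => rw [hconst k hk, ih]
  have hzero : ∀ k, N ≤ k → cr (x k - p) (d k) = 0 := by
    intro k hk
    by_contra hne
    have hpos : 0 < |cr (x k - p) (d k)| := abs_pos.2 hne
    obtain ⟨N', hN'⟩ := hconv _ hpos
    have h1 := hN' (max k N') (le_max_right _ _)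
    have h2 := hconst' (max k N') (hk.trans (le_max_left _ _))
    rw [← hconst' k hk] at h2
    have h3 := cr_le (x (max k N') - p) (d (max k N'))
    rw [h2, hd, mul_one] at h3
    linarith
  have h1 := h.starts hab N
  have he : b (j N) - a (j N) ≠ 0 := sub_ne_zero.2 (hab _ h1.1.1).symm
  have h2 := hzero (N + 1) (by omega)
  have h3 := eq_par (a := 0) (b := b (j N) - a (j N)) (y := x (N + 1) - p) (Ne.symm he)
    (by simpa using hline N le_rfl)
  rw [zero_add, sub_zero] at h3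
  rw [h3, cr_smul_left] at h2
  rcases mul_eq_zero.1 h2 with h4 | h4
  · rw [h4, zero_smul, sub_eq_zero] at h3
    exact h1.1.notSing hab (by rw [h3]; exact hp)
  · exact h1.2 h4

/-- moving inside the component -/
theorem seg_mem {p q : ℂ} (hp : p ∈ connectedComponentIn (M a b S)ᶜ 0)
    (h : segment ℝ p q ⊆ (M a b S)ᶜ) : q ∈ connectedComponentIn (M a b S)ᶜ 0 := by
  rw [connectedComponentIn_eq hp]
  exact (convex_segment p q).isPreconnected.subset_connectedComponentIn (left_mem_segment ℝ p q) h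
    (right_mem_segment ℝ p q)

theorem IsTraj.inC (h : IsTraj a b S x d j t) (hS : S.Finite) (hab : ∀ i ∈ S, a i ≠ b i)
    (hx0 : x 0 = 0) : ∀ k, ∀ τ ∈ Ioo 0 (t k),
      x k + τ • d k ∈ connectedComponentIn (M a b S)ᶜ 0 := by
  have hfree : ∀ k, ∀ τ ∈ Ioo 0 (t k), x k + τ • d k ∉ M a b S := by
    intro k τ hτ
    cases k with
    | zero => exact h.step0.free hab (show Start a b S none (x 0) (d 0) from h.start) hτ
    | succ k => exact (h.step k).free hab (h.starts hab k) hτ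
  -- along one flight
  have halong : ∀ k, ∀ τ ∈ Ioo 0 (t k), ∀ τ' ∈ Ioo 0 (t k),
      x k + τ • d k ∈ connectedComponentIn (M a b S)ᶜ 0 →
      x k + τ' • d k ∈ connectedComponentIn (M a b S)ᶜ 0 := by
    intro k τ hτ τ' hτ' hm
    refine seg_mem hm ?_
    rintro y hy
    rw [segment_eq_image'] at hy
    obtain ⟨s, hs, rfl⟩ := hy
    simp only
    have e : x k + τ • d k + s • (x k + τ' • d k - (x k + τ • d k)) =
        x k + (τ + s * (τ' - τ)) • d k := by
      rw [add_sub_add_left_eq_sub, ← sub_smul, smul_smul, add_smul]; ring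
    rw [e]
    refine hfree k _ ?_
    have e1 : τ + s * (τ' - τ) = (1 - s) * τ + s * τ' := by ring
    rw [e1]
    rcases eq_or_lt_of_le hs.1 with h0 | h0
    · rw [← h0]
      simpa using hτ
    · have h1 : 0 ≤ 1 - s := by linarith [hs.2]
      constructor
      · have := mul_pos h0 hτ'.1
        have := mul_nonneg h1 hτ.1.le
        linarith
      · have k1 := mul_lt_mul_of_pos_left hτ'.2 h0
        have k2 := mul_le_mul_of_nonneg_left hτ.2.le h1
        linarith
  intro k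
  induction k with
  | zero =>
    intro τ hτ
    have h0 : (0 : ℂ) ∈ connectedComponentIn (M a b S)ᶜ 0 :=
      mem_connectedComponentIn (by rw [← hx0]; exact h.start)
    refine seg_mem h0 ?_
    intro y hy
    rw [segment_eq_image'] at hy
    obtain ⟨s, hs, rfl⟩ := hy
    simp only
    rcases eq_or_lt_of_le hs.1 with h1 | h1
    · rw [← h1, zero_smul, add_zero, ← hx0]; exact h.start
    · have e : (0 : ℂ) + s • (x 0 + τ • d 0 - 0) = x 0 + (s * τ) • d 0 := by
        rw [hx0, zero_add, zero_add, sub_zero, smul_smul, zero_add]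
      rw [e]
      exact hfree 0 _ ⟨mul_pos h1 hτ.1, by nlinarith [hs.2, hτ.1, hτ.2]⟩
  | succ k ih =>
    -- near the point `x (k + 1)`
    have hreg := h.starts hab k
    obtain ⟨r, hr, hball⟩ := hreg.1.ball hS
    have he : b (j k) - a (j k) ≠ 0 := sub_ne_zero.2 (hab _ hreg.1.1).symm
    have hdn : ‖d (k + 1)‖ = ‖d k‖ := by rw [h.ds, norm_refl he]
    have hcrk : cr (b (j k) - a (j k)) (d k) ≠ 0 := by
      have := hreg.2
      rw [h.ds, cr_refl he] at this
      exact neg_ne_zero.1 this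
    have hyl := cr_of_mem (hab _ hreg.1.1) (openSegment_subset_segment ℝ _ _ hreg.1.2.1)
    set τ₀ : ℝ := min (r / (‖d k‖ + 1)) (min (t k) (t (k + 1))) / 2 with hτ₀
    have hn := norm_nonneg (d k)
    have hm : 0 < min (r / (‖d k‖ + 1)) (min (t k) (t (k + 1))) :=
      lt_min (by positivity) (lt_min (h.tpos _) (h.tpos _))
    have hτ₀0 : 0 < τ₀ := by positivity
    have hτ₀r : τ₀ * ‖d k‖ < r := by
      have h1 : τ₀ < r / (‖d k‖ + 1) := by
        have := min_le_left (r / (‖d k‖ + 1)) (min (t k) (t (k + 1)))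
        linarith
      rw [lt_div_iff₀ (by positivity)] at h1
      nlinarith
    have hτ₀k : τ₀ < t k := by
      have := (min_le_right (r / (‖d k‖ + 1)) (min (t k) (t (k + 1)))).trans (min_le_left _ _)
      linarith
    have hτ₀k' : τ₀ < t (k + 1) := by
      have := (min_le_right (r / (‖d k‖ + 1)) (min (t k) (t (k + 1)))).trans (min_le_right _ _)
      linarith
    have hp : x (k + 1) - τ₀ • d k ∈ connectedComponentIn (M a b S)ᶜ 0 := by
      have := ih (t k - τ₀) ⟨by linarith, by linarith⟩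
      have e : x k + (t k - τ₀) • d k = x (k + 1) - τ₀ • d k := by rw [h.xs, sub_smul]; ring
      rwa [e] at this
    have hq : x (k + 1) + τ₀ • d (k + 1) ∈ connectedComponentIn (M a b S)ᶜ 0 := by
      refine seg_mem hp ?_
      intro y hy
      rw [segment_eq_image'] at hy
      obtain ⟨s, hs, rfl⟩ := hy
      simp only
      have e : x (k + 1) - τ₀ • d k + s • (x (k + 1) + τ₀ • d (k + 1) - (x (k + 1) - τ₀ • d k)) =
          x (k + 1) + τ₀ • (s • d (k + 1) - (1 - s) • d k) := by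
        simp only [Complex.real_smul, Complex.ofReal_sub, Complex.ofReal_one]; ring
      rw [e]
      intro hmem
      obtain ⟨i, hi, hx⟩ := mem_M.1 hmem
      by_cases hij : i = j k
      · subst hij
        have h1 := cr_of_mem (hab _ hi) hx
        have h2 : cr (b (j k) - a (j k)) (s • d (k + 1) - (1 - s) • d k) =
            -cr (b (j k) - a (j k)) (d k) := by
          rw [cr_sub_right, cr_smul_right, cr_smul_right, h.ds, cr_refl he]; ring
        rw [show x (k + 1) + τ₀ • (s • d (k + 1) - (1 - s) • d k) - a (j k) =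
          (x (k + 1) - a (j k)) + τ₀ • (s • d (k + 1) - (1 - s) • d k) by ring, cr_add_right, hyl,
          cr_smul_right, h2, zero_add] at h1
        rcases mul_eq_zero.1 h1 with h3 | h3
        · exact hτ₀0.ne' h3
        · exact hcrk (neg_eq_zero.1 h3)
      · refine hball _ ?_ i hi hij hx
        rw [add_sub_cancel_left, norm_smul, Real.norm_eq_abs, abs_of_pos hτ₀0]
        have h1 : ‖s • d (k + 1) - (1 - s) • d k‖ ≤ ‖d k‖ := by
          refine (norm_sub_le _ _).trans ?_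
          rw [norm_smul, norm_smul, hdn, Real.norm_eq_abs, Real.norm_eq_abs, abs_of_nonneg hs.1,
            abs_of_nonneg (by linarith [hs.2])]
          linarith
        calc τ₀ * ‖s • d (k + 1) - (1 - s) • d k‖ ≤ τ₀ * ‖d k‖ :=
              mul_le_mul_of_nonneg_left h1 hτ₀0.le
          _ < r := hτ₀r
    intro τ hτ
    exact halong (k + 1) τ₀ ⟨hτ₀0, hτ₀k'⟩ τ hτ hq

/-- There is no infinite trajectory from a point of the unbounded component, in good directions. -/
theorem IsTraj.false [Countable ι] {D : Set ℂ} (h : IsTraj a b S x d j t) (hS : S.Finite)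
    (hab : ∀ i ∈ S, a i ≠ b i) (hSing : (Sing a b S).Finite) (hD : GoodD a b S D)
    (hdD : ∀ k, d k ∈ D) (hx0 : x 0 = 0)
    (hunb : ¬ Bornology.IsBounded (connectedComponentIn (M a b S)ᶜ 0)) : False := by
  have hd1 : ∀ k, ‖d k‖ = 1 := fun k => hD.unit _ (hdD k)
  obtain ⟨ε, hε, hlong⟩ := h.notZeno hS hab hSing hd1
  obtain ⟨B, hB⟩ := (isCompact_M (a := a) (b := b) hS).isBounded.exists_norm_le
  -- a constant direction
  obtain ⟨e, heD, hfreq⟩ : ∃ e ∈ D, ∃ᶠ k in atTop, ε ≤ t k ∧ d k = e := by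
    by_contra hcon
    push Not at hcon
    have h1 : ∀ᶠ k in atTop, ∀ e ∈ D, ¬ (ε ≤ t k ∧ d k = e) := by
      rw [Filter.eventually_all_finite hD.fin]
      intro e he
      filter_upwards [hcon e he] with k hk h1
      exact hk h1.1 h1.2
    obtain ⟨N, hN⟩ := Filter.eventually_atTop.1 h1
    obtain ⟨k, hk, hk'⟩ := hlong N
    exact hN k hk (d k) (hdD k) ⟨hk', rfl⟩
  have hfreq' : ∃ᶠ k in atTop, 1 ≤ k ∧ ε ≤ t k ∧ d k = e := by
    refine (hfreq.and_eventually (eventually_ge_atTop 1)).mono ?_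
    rintro k ⟨h1, h2⟩
    exact ⟨h2, h1⟩
  obtain ⟨φ, hφ, hφP⟩ := Filter.extraction_of_frequently_atTop hfreq'
  have hbd : ∀ n, ((x (φ n), t (φ n)) : ℂ × ℝ) ∈ Metric.closedBall (0 : ℂ) B ×ˢ
      Icc (0 : ℝ) (2 * B) := by
    intro n
    obtain ⟨m, hm⟩ := Nat.exists_eq_add_of_le' (hφP n).1
    have h1 := hB _ (h.memM hab m)
    have h2 := hB _ (h.memM hab (m + 1))
    rw [hm]
    refine ⟨by simpa using h1, (h.tpos _).le, ?_⟩
    have h3 : ‖x (m + 1 + 1) - x (m + 1)‖ = t (m + 1) := by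
      rw [h.xs (m + 1), add_sub_cancel_left, norm_smul, hd1, mul_one, Real.norm_eq_abs,
        abs_of_pos (h.tpos _)]
    rw [← h3]
    refine (norm_sub_le _ _).trans ?_
    linarith
  obtain ⟨⟨xs, ts⟩, -, ψ, hψ, hlim⟩ := ((isCompact_closedBall (0 : ℂ) B).prod
    (isCompact_Icc (a := (0 : ℝ)) (b := 2 * B))).tendsto_subseq hbd
  have hlx : Tendsto (fun n => x (φ (ψ n))) atTop (𝓝 xs) :=
    (continuous_fst.tendsto _).comp hlim
  have hlt : Tendsto (fun n => t (φ (ψ n))) atTop (𝓝 ts) :=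
    (continuous_snd.tendsto _).comp hlim
  have hts : ε ≤ ts := ge_of_tendsto' hlt fun n => (hφP (ψ n)).2.1
  -- a point of the limit flight off the mirrors
  obtain ⟨l, hl, hlM⟩ : ∃ l ∈ Ioo (0 : ℝ) 1, xs + (l * ts) • e ∉ M a b S := by
    by_contra hcon
    push Not at hcon
    have hfin : {l : ℝ | xs + (l * ts) • e ∈ M a b S}.Finite := by
      have : {l : ℝ | xs + (l * ts) • e ∈ M a b S} ⊆
          ⋃ i ∈ S, {l : ℝ | xs + (l * ts) • e ∈ segment ℝ (a i) (b i)} := by
        intro l hl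
        obtain ⟨i, hi, hx⟩ := mem_M.1 hl
        simp only [mem_iUnion]
        exact ⟨i, hi, hx⟩
      refine Set.Finite.subset (hS.biUnion fun i hi => ?_) this
      refine Set.Subsingleton.finite fun l hl l' hl' => ?_
      have h1 := cr_of_mem (hab i hi) hl
      have h2 := cr_of_mem (hab i hi) hl'
      have h3 := eq_of_line (t := l' * ts - l * ts) (hD.trans e heD i hi) h1 h2
        (by rw [sub_smul]; ring)
      have h4 : (l' - l) * ts = 0 := by linarith
      rcases mul_eq_zero.1 h4 with h5 | h5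
      · linarith
      · linarith
    exact (Set.Ioo_infinite (zero_lt_one (α := ℝ))) (hfin.subset fun l hl => hcon l hl)
  set z : ℂ := xs + (l * ts) • e with hz
  have hlz : Tendsto (fun n => x (φ (ψ n)) + (l * t (φ (ψ n))) • e) atTop (𝓝 z) :=
    hlx.add ((hlt.const_mul l).smul_const e)
  have hτ : ∀ n, l * t (φ (ψ n)) ∈ Ioo 0 (t (φ (ψ n))) := by
    intro n
    have := h.tpos (φ (ψ n))
    exact ⟨mul_pos hl.1 this, by nlinarith [hl.2]⟩
  have hzOm : z ∈ Om a b S x d t e := by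
    refine ⟨hlM, fun ε' hε' N => ?_⟩
    have h1 : ∀ᶠ n in atTop, ‖x (φ (ψ n)) + (l * t (φ (ψ n))) • e - z‖ < ε' := by
      have := Metric.tendsto_nhds.1 hlz ε' hε'
      simpa [dist_eq_norm] using this
    have h2 : ∀ᶠ n in atTop, N ≤ φ (ψ n) :=
      ((hφ.comp hψ).tendsto_atTop).eventually_ge_atTop N
    obtain ⟨n, h3, h4⟩ := (h1.and h2).exists
    exact ⟨φ (ψ n), h4, (hφP (ψ n)).2.2, _, hτ n, h3⟩
  have hzC : z ∈ connectedComponentIn (M a b S)ᶜ 0 := by
    obtain ⟨r, hr, hb⟩ := Metric.isOpen_iff.1 (isCompact_M (a := a) (b := b) hS).isClosed.isOpen_compl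
      z hlM
    have h1 : ∀ᶠ n in atTop, x (φ (ψ n)) + (l * t (φ (ψ n))) • e ∈ Metric.ball z r :=
      hlz.eventually (Metric.ball_mem_nhds z hr)
    obtain ⟨n, hn⟩ := h1.exists
    have h2 := h.inC hS hab hx0 (φ (ψ n)) _ (hτ n)
    rw [(hφP (ψ n)).2.2] at h2
    refine seg_mem h2 ?_
    exact ((convex_ball z r).segment_subset hn (Metric.mem_ball_self hr)).trans hb
  exact (h.inv hS hab).not_in_component hD hS hab hSing (fun e z => Om.closed e z) heD hunb z hzOm
    hzC

end Mirr
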